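import Mathlib

set_option autoImplicit false

namespace Pool.Agent.Helper962.Flat

open Set Filter Topology
open scoped RealInnerProductSpace

abbrev V := ℝ × ℝ
abbrev E3 := EuclideanSpace ℝ (Fin 3)

section Calculus
variable {F : Type*} [NormedAddCommGroup F] [NormedSpace ℝ F]

/-- directional derivative -/
noncomputable def dir (v : V) (f : V → F) (z : V) : F := fderiv ℝ f z v

lemma dir_an [CompleteSpace F] {f : V → F} {U : Set V} (hf : AnalyticOnNhd ℝ f U) (v : V) :
    AnalyticOnNhd ℝ (dir v f) U :=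
  (ContinuousLinearMap.apply ℝ F v).comp_analyticOnNhd hf.fderiv

lemma dir_an_at [CompleteSpace F] {f : V → F} {z : V} (hf : AnalyticAt ℝ f z) (v : V) :
    AnalyticAt ℝ (dir v f) z :=
  ((ContinuousLinearMap.apply ℝ F v).analyticAt _).comp hf.fderiv

lemma dir_comm [CompleteSpace F] {f : V → F} {z : V} (hf : AnalyticAt ℝ f z) (u v : V) :
    dir u (dir v f) z = dir v (dir u f) z := by
  have hs : IsSymmSndFDerivAt ℝ f z :=
    (hf.contDiffAt (n := ⊤)).isSymmSndFDerivAt (by simp)
  have hd : DifferentiableAt ℝ (fderiv ℝ f) z := hf.fderiv.differentiableAt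
  have h : ∀ a b : V, dir a (dir b f) z = fderiv ℝ (fderiv ℝ f) z a b := by
    intro a b
    unfold dir
    rw [fderiv_clm_apply hd (by fun_prop)]
    simp
  rw [h, h]
  exact hs _ _

lemma dir_add_left (f : V → F) (z u v : V) : dir (u + v) f z = dir u f z + dir v f z :=
  map_add _ _ _

lemma dir_smul_left (f : V → F) (z v : V) (a : ℝ) : dir (a • v) f z = a • dir v f z :=
  map_smul _ _ _

lemma dir_congr {f g : V → F} {U : Set V} (hU : IsOpen U) (h : EqOn f g U) (v : V) :
    EqOn (dir v f) (dir v g) U := by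
  intro z hz
  unfold dir
  rw [(h.eventuallyEq_of_mem (hU.mem_nhds hz)).fderiv_eq]

lemma hasDerivAt_line {f : V → F} {z k : V} {t : ℝ} (hf : DifferentiableAt ℝ f (z + t • k)) :
    HasDerivAt (fun s : ℝ => f (z + s • k)) (dir k f (z + t • k)) t := by
  have h1 : HasDerivAt (fun s : ℝ => z + s • k) ((1 : ℝ) • k) t :=
    ((hasDerivAt_id t).smul_const k).const_add z
  have := hf.hasFDerivAt.comp_hasDerivAt t h1
  rw [one_smul] at this
  exact this

end Calculus

lemma dir_mul {g h : V → ℝ} {z : V} (hg : DifferentiableAt ℝ g z) (hh : DifferentiableAt ℝ h z)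
    (v : V) : dir v (fun q => g q * h q) z = dir v g z * h z + g z * dir v h z := by
  unfold dir
  rw [fderiv_fun_mul hg hh]
  simp
  ring

lemma dir_add {g h : V → ℝ} {z : V} (hg : DifferentiableAt ℝ g z) (hh : DifferentiableAt ℝ h z)
    (v : V) : dir v (fun q => g q + h q) z = dir v g z + dir v h z := by
  unfold dir
  rw [fderiv_fun_add hg hh]
  simp

lemma dir_inner {f g : V → E3} {z : V} (hf : DifferentiableAt ℝ f z)
    (hg : DifferentiableAt ℝ g z) (v : V) :
    dir v (fun q => ⟪f q, g q⟫) z = ⟪dir v f z, g z⟫ + ⟪f z, dir v g z⟫ := by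
  unfold dir
  rw [fderiv_inner_apply ℝ hf hg]
  ring

lemma dir_inner_const {f : V → E3} {z : V} (hf : DifferentiableAt ℝ f z) (ν : E3) (v : V) :
    dir v (fun q => ⟪f q, ν⟫) z = ⟪dir v f z, ν⟫ := by
  rw [dir_inner hf (differentiableAt_const ν)]
  simp [dir]

lemma dir_const {F : Type*} [NormedAddCommGroup F] [NormedSpace ℝ F] (c : F) (v z : V) :
    dir v (fun _ => c) z = 0 := by
  simp [dir]

/-- an analytic solution of a homogeneous linear differential equation vanishing at `0` -/
lemma lin0 {f : ℝ → ℝ} {c : ℝ → ℝ} (hf : AnalyticAt ℝ f 0) (h0 : f 0 = 0)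
    (hc : ContinuousAt c 0) (hd : ∀ᶠ t in 𝓝 (0 : ℝ), HasDerivAt f (c t * f t) t) :
    ∀ᶠ t in 𝓝 (0 : ℝ), f t = 0 := by
  rw [← hf.frequently_zero_iff_eventually_zero]
  have hb : ∀ᶠ t in 𝓝 (0 : ℝ), |c t| < |c 0| + 1 :=
    hc.abs.eventually_lt continuousAt_const (by simp)
  obtain ⟨δ, hδ, h⟩ := Metric.eventually_nhds_iff.1 (hd.and hb)
  have hz : ∀ x ∈ Icc (0 : ℝ) (δ / 2), f x = 0 := by
    intro x hx
    have hball : ∀ y ∈ Icc (0 : ℝ) (δ / 2), dist y 0 < δ := by
      intro y hy
      rw [Real.dist_eq, sub_zero, abs_of_nonneg hy.1]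
      linarith [hy.2]
    refine eq_zero_of_abs_deriv_le_mul_abs_self_of_eq_zero_right (f := f)
      (f' := fun t => c t * f t) (K := |c 0| + 1) (a := 0) (b := δ / 2) ?_ ?_ h0 ?_ x hx
    · intro y hy
      exact (h (hball y hy)).1.continuousAt.continuousWithinAt
    · intro y hy
      exact (h (hball y ⟨hy.1, hy.2.le⟩)).1.hasDerivWithinAt
    · intro y hy
      rw [norm_mul, Real.norm_eq_abs]
      exact mul_le_mul_of_nonneg_right (h (hball y ⟨hy.1, hy.2.le⟩)).2.le (norm_nonneg _)
  rw [Filter.Frequently, eventually_nhdsWithin_iff, Metric.eventually_nhds_iff]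
  rintro ⟨η, hη, h'⟩
  have hpos : 0 < min (η / 2) (δ / 2) := lt_min (by linarith) (by linarith)
  refine h' (y := min (η / 2) (δ / 2)) ?_ ?_ (hz _ ⟨hpos.le, min_le_right _ _⟩)
  · rw [Real.dist_eq, sub_zero, abs_of_nonneg hpos.le]
    linarith [min_le_left (η / 2) (δ / 2)]
  · simp only [mem_compl_iff, mem_singleton_iff]
    exact hpos.ne'

lemma line_an {F : Type*} [NormedAddCommGroup F] [NormedSpace ℝ F] {f : V → F} {z k : V} {t : ℝ}
    (hf : AnalyticAt ℝ f (z + t • k)) : AnalyticAt ℝ (fun s : ℝ => f (z + s • k)) t := by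
  have h1 : AnalyticAt ℝ (fun s : ℝ => z + s • k) t :=
    analyticAt_const.add (analyticAt_id.smul analyticAt_const)
  exact AnalyticAt.fun_comp hf h1

/-- Kernel lemma for the Hessian of one function with vanishing Hessian determinant. -/
lemma hess_line {f : V → ℝ} {U : Set V} (hU : IsOpen U) (hf : AnalyticOnNhd ℝ f U) (k u : V)
    (hdet : ∀ z ∈ U, dir k (dir k f) z * dir u (dir u f) z = dir k (dir u f) z ^ 2)
    {z0 : V} {I : Set ℝ} (hI : IsPreconnected I) (h0I : (0 : ℝ) ∈ I)
    (hIU : ∀ t ∈ I, z0 + t • k ∈ U)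
    (hk : dir k (dir u f) z0 = 0) (hu : dir u (dir u f) z0 ≠ 0) :
    ∀ t ∈ I, dir k (dir u f) (z0 + t • k) = 0 ∧ dir u (dir u f) (z0 + t • k) ≠ 0 := by
  set a := dir k (dir k f) with ha
  set b := dir k (dir u f) with hb
  set c := dir u (dir u f) with hc
  have haA : AnalyticOnNhd ℝ a U := dir_an (dir_an hf k) k
  have hbA : AnalyticOnNhd ℝ b U := dir_an (dir_an hf u) k
  have hcA : AnalyticOnNhd ℝ c U := dir_an (dir_an hf u) u
  have hua : AnalyticOnNhd ℝ (dir u a) U := dir_an haA u
  have hub : AnalyticOnNhd ℝ (dir u b) U := dir_an hbA u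
  have huc : AnalyticOnNhd ℝ (dir u c) U := dir_an hcA u
  have hid1 : ∀ z ∈ U, dir u a z * c z + a z * dir u c z = 2 * (b z * dir u b z) := by
    intro z hz
    have h1 : EqOn (fun q => a q * c q) (fun q => b q * b q) U := fun q hq => by
      have := hdet q hq
      simp only
      rw [this]; ring
    have h2 := dir_congr hU h1 u hz
    rw [dir_mul (haA z hz).differentiableAt (hcA z hz).differentiableAt,
      dir_mul (hbA z hz).differentiableAt (hbA z hz).differentiableAt] at h2
    rw [h2]; ring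
  have hid2 : ∀ z ∈ U, dir u (dir u a) z * c z + dir u a z * dir u c z
      + (dir u a z * dir u c z + a z * dir u (dir u c) z)
      = 2 * (dir u b z * dir u b z + b z * dir u (dir u b) z) := by
    intro z hz
    have h2 := dir_congr hU (f := fun q => dir u a q * c q + a q * dir u c q)
      (g := fun q => 2 * (b q * dir u b q)) hid1 u hz
    rw [dir_add ((hua z hz).differentiableAt.fun_mul (hcA z hz).differentiableAt)
        ((haA z hz).differentiableAt.fun_mul (huc z hz).differentiableAt),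
      dir_mul (hua z hz).differentiableAt (hcA z hz).differentiableAt,
      dir_mul (haA z hz).differentiableAt (huc z hz).differentiableAt,
      dir_mul (differentiableAt_const _)
        ((hbA z hz).differentiableAt.fun_mul (hub z hz).differentiableAt),
      dir_mul (hbA z hz).differentiableAt (hub z hz).differentiableAt, dir_const] at h2
    rw [h2]; ring
  have hs1 : ∀ z ∈ U, dir k b z = dir u a z := by
    intro z hz
    have h1 : EqOn (dir u (dir k f)) (dir k (dir u f)) U := fun q hq => dir_comm (hf q hq) u k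
    rw [ha, dir_comm (dir_an hf k z hz) u k, dir_congr hU h1 k hz]
  have hs2 : ∀ z ∈ U, dir k c z = dir u b z := fun z hz => dir_comm (dir_an hf u z hz) k u
  have hs3 : ∀ z ∈ U, dir k (dir u b) z = dir u (dir u a) z := by
    intro z hz
    rw [dir_comm (hbA z hz) k u, dir_congr hU hs1 u hz]
  have hz0 : z0 + (0 : ℝ) • k = z0 := by simp
  have hz0U : z0 ∈ U := by simpa using hIU 0 h0I
  have hcont : ContinuousAt (fun t : ℝ => z0 + t • k) 0 := by fun_prop
  have hUnear : ∀ᶠ t in 𝓝 (0 : ℝ), z0 + t • k ∈ U :=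
    hcont.eventually_mem (by rw [hz0]; exact hU.mem_nhds hz0U)
  have lA : ∀ {g : V → ℝ}, AnalyticOnNhd ℝ g U → ∀ t ∈ I,
      AnalyticAt ℝ (fun s : ℝ => g (z0 + s • k)) t := fun hg t ht => line_an (hg _ (hIU t ht))
  have lD : ∀ {g : V → ℝ}, AnalyticOnNhd ℝ g U → ∀ t, z0 + t • k ∈ U →
      HasDerivAt (fun s : ℝ => g (z0 + s • k)) (dir k g (z0 + t • k)) t :=
    fun hg t ht => hasDerivAt_line (hg _ ht).differentiableAt
  have hCnear : ∀ᶠ t in 𝓝 (0 : ℝ), c (z0 + t • k) ≠ 0 := by
    have := (lA hcA 0 h0I).continuousAt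
    refine this.eventually_ne ?_
    simpa using hu
  have lC : ∀ {g : V → ℝ}, AnalyticOnNhd ℝ g U →
      ContinuousAt (fun s : ℝ => g (z0 + s • k)) 0 := fun hg => (lA hg 0 h0I).continuousAt
  have hc0 : c (z0 + (0 : ℝ) • k) ≠ 0 := by rwa [hz0]
  -- b vanishes near 0
  have hB : ∀ᶠ t in 𝓝 (0 : ℝ), b (z0 + t • k) = 0 := by
    refine lin0 (f := fun t : ℝ => b (z0 + t • k))
      (c := fun t => 2 * dir u b (z0 + t • k) / c (z0 + t • k)
        - b (z0 + t • k) * dir u c (z0 + t • k) / (c (z0 + t • k)) ^ 2)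
      (lA hbA 0 h0I) (by simpa using hk) ?_ ?_
    · exact ((continuousAt_const.mul (lC hub)).div (lC hcA) hc0).sub
        (((lC hbA).mul (lC huc)).div ((lC hcA).pow 2) (pow_ne_zero _ hc0))
    · filter_upwards [hUnear, hCnear] with t ht hct
      have h1 := lD hbA t ht
      rw [hs1 _ ht] at h1
      convert h1 using 1
      have h2 := hid1 _ ht
      have h3 := hdet _ ht
      field_simp
      generalize a (z0 + t • k) = A at *
      generalize b (z0 + t • k) = B at *
      generalize c (z0 + t • k) = C at *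
      generalize dir u a (z0 + t • k) = A1 at *
      generalize dir u b (z0 + t • k) = B1 at *
      generalize dir u c (z0 + t • k) = C1 at *
      linear_combination (-C) * h2 + C1 * h3
  have hA : ∀ᶠ t in 𝓝 (0 : ℝ), a (z0 + t • k) = 0 := by
    filter_upwards [hUnear, hCnear, hB] with t ht hct hbt
    have h3 := hdet _ ht
    rw [hbt] at h3
    have : a (z0 + t • k) * c (z0 + t • k) = 0 := by rw [h3]; ring
    exact (mul_eq_zero.1 this).resolve_right hct
  have hA1 : ∀ᶠ t in 𝓝 (0 : ℝ), dir u a (z0 + t • k) = 0 := by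
    filter_upwards [hUnear, hCnear, hB, hA] with t ht hct hbt hat
    have h2 := hid1 _ ht
    rw [hbt, hat] at h2
    have : dir u a (z0 + t • k) * c (z0 + t • k) = 0 := by linarith
    exact (mul_eq_zero.1 this).resolve_right hct
  set q : ℝ := dir u b z0 / (c z0) ^ 2 with hq
  have hv : ∀ᶠ t in 𝓝 (0 : ℝ), dir u b (z0 + t • k) - q * c (z0 + t • k) ^ 2 = 0 := by
    refine lin0 (f := fun t : ℝ => dir u b (z0 + t • k) - q * c (z0 + t • k) ^ 2)
      (c := fun t => 2 * dir u b (z0 + t • k) / c (z0 + t • k))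
      ((lA hub 0 h0I).sub (analyticAt_const.mul ((lA hcA 0 h0I).pow 2))) ?_ ?_ ?_
    · simp only [zero_smul, add_zero]
      rw [hq, div_mul_cancel₀ _ (pow_ne_zero _ hu), sub_self]
    · exact (continuousAt_const.mul (lC hub)).div (lC hcA) hc0
    · filter_upwards [hUnear, hCnear, hB, hA, hA1] with t ht hct hbt hat ha1t
      have h1 := lD hub t ht
      have h2 := lD hcA t ht
      rw [hs3 _ ht] at h1
      rw [hs2 _ ht] at h2
      have h4 := hid2 _ ht
      rw [hbt, hat, ha1t] at h4
      refine HasDerivAt.congr_deriv (h1.sub ((h2.pow 2).const_mul q)) ?_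
      field_simp
      push_cast
      linear_combination h4
  have he : ∀ᶠ t in 𝓝 (0 : ℝ), c (z0 + t • k) * (1 / c z0 - q * t) - 1 = 0 := by
    refine lin0 (f := fun t : ℝ => c (z0 + t • k) * (1 / c z0 - q * t) - 1)
      (c := fun t => q * c (z0 + t • k)) ?_ ?_ ?_ ?_
    · exact ((lA hcA 0 h0I).mul (analyticAt_const.sub (analyticAt_const.mul analyticAt_id))).sub
        analyticAt_const
    · simp only [zero_smul, add_zero, mul_zero, sub_zero]
      field_simp
      ring
    · exact continuousAt_const.mul (lC hcA)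
    · filter_upwards [hUnear, hCnear, hv] with t ht hct hvt
      have h2 := lD hcA t ht
      rw [hs2 _ ht] at h2
      have h5 : HasDerivAt (fun s : ℝ => 1 / c z0 - q * s) (-(q * 1)) t :=
        HasDerivAt.const_sub (1 / c z0) ((hasDerivAt_id t).const_mul q)
      refine HasDerivAt.congr_deriv ((h2.mul h5).sub_const 1) ?_
      linear_combination (1 / c z0 - q * t) * hvt
  have hBI : EqOn (fun t : ℝ => b (z0 + t • k)) (fun _ => 0) I :=
    AnalyticOnNhd.eqOn_of_preconnected_of_eventuallyEq (fun t ht => lA hbA t ht)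
      (fun _ _ => analyticAt_const) hI h0I hB
  have hCA : AnalyticOnNhd ℝ (fun t : ℝ => c (z0 + t • k) * (1 / c z0 - q * t) - 1) I :=
    fun t ht => ((lA hcA t ht).mul
      (analyticAt_const.sub (analyticAt_const.mul analyticAt_id))).sub analyticAt_const
  have hCI : EqOn (fun t : ℝ => c (z0 + t • k) * (1 / c z0 - q * t) - 1) (fun _ => 0) I :=
    AnalyticOnNhd.eqOn_of_preconnected_of_eventuallyEq hCA
      (fun _ _ => analyticAt_const) hI h0I he
  intro t ht
  refine ⟨hBI ht, fun h => ?_⟩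
  have := hCI ht
  simp only [h] at this
  norm_num at this

end Pool.Agent.Helper962.Flat
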