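import Mathlib
import Pool.Agent.Helper962.F1

set_option autoImplicit false

namespace Pool.Agent.Helper962.Flat

open Set Filter Topology
open scoped RealInnerProductSpace

/-- the standard inner product of the plane -/
def dot (u v : V) : ℝ := u.1 * v.1 + u.2 * v.2

/-- analytic isometric immersion of an open set of the flat plane -/
structure Iso (r : V → E3) (U : Set V) : Prop where
  op : IsOpen U
  an : AnalyticOnNhd ℝ r U
  iso : ∀ z ∈ U, ∀ u v : V, ⟪dir u r z, dir v r z⟫ = dot u v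

/-- second derivative -/
noncomputable def D2 (r : V → E3) (z : V) : V →L[ℝ] V →L[ℝ] E3 := fderiv ℝ (fderiv ℝ r) z

lemma dir_dir {r : V → E3} {z : V} (h : AnalyticAt ℝ r z) (u v : V) :
    dir u (dir v r) z = D2 r z u v := by
  have hd : DifferentiableAt ℝ (fderiv ℝ r) z := h.fderiv.differentiableAt
  unfold dir D2
  rw [fderiv_clm_apply hd (by fun_prop)]
  simp

lemma D2_symm {r : V → E3} {z : V} (h : AnalyticAt ℝ r z) (u v : V) :
    D2 r z u v = D2 r z v u := by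
  rw [← dir_dir h, ← dir_dir h, dir_comm h]

lemma inner3 (x y : E3) : ⟪x, y⟫ = x 0 * y 0 + x 1 * y 1 + x 2 * y 2 := by
  rw [PiLp.inner_apply, Fin.sum_univ_three]
  simp only [RCLike.inner_apply, conj_trivial]
  ring

lemma exists_normal {a b : E3} (ha : ⟪a, a⟫ = 1) (hb : ⟪b, b⟫ = 1) (hab : ⟪a, b⟫ = 0) :
    ∃ n : E3, ⟪n, n⟫ = 1 ∧ ∀ x : E3, ⟪x, a⟫ = 0 → ⟪x, b⟫ = 0 → x = ⟪x, n⟫ • n := by
  rw [inner3] at ha hb hab
  refine ⟨!₂[a 1 * b 2 - a 2 * b 1, a 2 * b 0 - a 0 * b 2, a 0 * b 1 - a 1 * b 0], ?_, ?_⟩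
  · rw [inner3]
    simp only [Matrix.cons_val_zero, Matrix.cons_val_one, Matrix.cons_val]
    linear_combination (b 0 * b 0 + b 1 * b 1 + b 2 * b 2) * ha + hb
      - (a 0 * b 0 + a 1 * b 1 + a 2 * b 2) * hab
  · intro x hxa hxb
    rw [inner3] at hxa hxb
    rw [inner3]
    ext i
    fin_cases i
    all_goals
      simp only [PiLp.smul_apply, smul_eq_mul, Fin.zero_eta, Fin.mk_one,
        Fin.reduceFinMk, Matrix.cons_val_zero, Matrix.cons_val_one, Matrix.cons_val]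
    · linear_combination (-x 0 * (b 0 * b 0 + b 1 * b 1 + b 2 * b 2)) * ha - x 0 * hb
        + x 0 * (a 0 * b 0 + a 1 * b 1 + a 2 * b 2) * hab
        + ((a 0 * b 1 - a 1 * b 0) * b 1 - (a 2 * b 0 - a 0 * b 2) * b 2) * hxa
        + ((a 2 * b 0 - a 0 * b 2) * a 2 - (a 0 * b 1 - a 1 * b 0) * a 1) * hxb
    · linear_combination (-x 1 * (b 0 * b 0 + b 1 * b 1 + b 2 * b 2)) * ha - x 1 * hb
        + x 1 * (a 0 * b 0 + a 1 * b 1 + a 2 * b 2) * hab
        + ((a 1 * b 2 - a 2 * b 1) * b 2 - (a 0 * b 1 - a 1 * b 0) * b 0) * hxa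
        + ((a 0 * b 1 - a 1 * b 0) * a 0 - (a 1 * b 2 - a 2 * b 1) * a 2) * hxb
    · linear_combination (-x 2 * (b 0 * b 0 + b 1 * b 1 + b 2 * b 2)) * ha - x 2 * hb
        + x 2 * (a 0 * b 0 + a 1 * b 1 + a 2 * b 2) * hab
        + ((a 2 * b 0 - a 0 * b 2) * b 0 - (a 1 * b 2 - a 2 * b 1) * b 1) * hxa
        + ((a 1 * b 2 - a 2 * b 1) * a 1 - (a 2 * b 0 - a 0 * b 2) * a 0) * hxb

namespace Iso

variable {r : V → E3} {U : Set V}

lemma da (h : Iso r U) {z : V} (hz : z ∈ U) (v : V) : DifferentiableAt ℝ (dir v r) z :=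
  (dir_an h.an v z hz).differentiableAt

lemma dda (h : Iso r U) {z : V} (hz : z ∈ U) (v w : V) :
    DifferentiableAt ℝ (dir w (dir v r)) z :=
  (dir_an (dir_an h.an v) w z hz).differentiableAt

/-- the second derivatives are normal -/
lemma normal (h : Iso r U) {z : V} (hz : z ∈ U) (u v w : V) :
    ⟪dir u (dir v r) z, dir w r z⟫ = 0 := by
  have key : ∀ u v w : V, ⟪dir u (dir v r) z, dir w r z⟫ + ⟪dir u (dir w r) z, dir v r z⟫ = 0 := by
    intro u v w
    have h1 : EqOn (fun q => ⟪dir v r q, dir w r q⟫) (fun _ => dot v w) U :=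
      fun q hq => h.iso q hq v w
    have h2 := dir_congr h.op h1 u hz
    rw [dir_inner (h.da hz v) (h.da hz w), dir_const] at h2
    rw [real_inner_comm (dir v r z) (dir u (dir w r) z)]
    exact h2
  have hs : ∀ u v w : V, ⟪dir u (dir v r) z, dir w r z⟫ = ⟪dir v (dir u r) z, dir w r z⟫ := by
    intro u v w
    rw [dir_comm (h.an z hz) u v]
  have e1 := key u v w
  have e2 := key w u v
  have e3 := key v w u
  have s1 := hs u w v
  have s2 := hs w v u
  have s3 := hs v u w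
  linarith

/-- Gauss equation in vector form -/
lemma gauss (h : Iso r U) {z : V} (hz : z ∈ U) (k u : V) :
    ⟪dir k (dir k r) z, dir u (dir u r) z⟫ = ⟪dir k (dir u r) z, dir k (dir u r) z⟫ := by
  have h1 : EqOn (fun q => ⟪dir k (dir k r) q, dir u r q⟫) (fun _ => (0 : ℝ)) U :=
    fun q hq => h.normal hq k k u
  have h2 : EqOn (fun q => ⟪dir u (dir k r) q, dir u r q⟫) (fun _ => (0 : ℝ)) U :=
    fun q hq => h.normal hq u k u
  have h3 := dir_congr h.op h1 u hz
  have h4 := dir_congr h.op h2 k hz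
  rw [dir_inner (h.dda hz k k) (h.da hz u), dir_const] at h3
  rw [dir_inner (h.dda hz k u) (h.da hz u), dir_const] at h4
  rw [dir_comm (dir_an h.an k z hz) u k] at h3
  rw [dir_comm (h.an z hz) u k] at h4
  linarith

/-- all second derivatives at a point are multiples of one unit vector -/
lemma exists_n (h : Iso r U) {z : V} (hz : z ∈ U) :
    ∃ n : E3, ⟪n, n⟫ = 1 ∧ ∀ u v : V, dir u (dir v r) z = ⟪dir u (dir v r) z, n⟫ • n := by
  obtain ⟨n, hn, hx⟩ := exists_normal (a := dir (1, 0) r z) (b := dir (0, 1) r z)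
    (by rw [h.iso z hz]; simp [dot]) (by rw [h.iso z hz]; simp [dot])
    (by rw [h.iso z hz]; simp [dot])
  exact ⟨n, hn, fun u v => hx _ (h.normal hz u v _) (h.normal hz u v _)⟩

lemma det_zero (h : Iso r U) (ν : E3) {z : V} (hz : z ∈ U) (k u : V) :
    dir k (dir k (fun q => ⟪r q, ν⟫)) z * dir u (dir u (fun q => ⟪r q, ν⟫)) z
      = dir k (dir u (fun q => ⟪r q, ν⟫)) z ^ 2 := by
  have h2 : ∀ v : V, EqOn (dir v (fun q => ⟪r q, ν⟫)) (fun q => ⟪dir v r q, ν⟫) U :=
    fun v q hq => dir_inner_const (h.an q hq).differentiableAt ν v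
  have h3 : ∀ v w : V, dir w (dir v (fun q => ⟪r q, ν⟫)) z = ⟪dir w (dir v r) z, ν⟫ := by
    intro v w
    rw [dir_congr h.op (h2 v) w hz, dir_inner_const (h.da hz v)]
  rw [h3, h3, h3]
  obtain ⟨n, hn, hall⟩ := h.exists_n hz
  have hg := h.gauss hz k u
  rw [hall k k, hall u u, hall k u] at hg ⊢
  simp only [inner_smul_left, inner_smul_right, hn, conj_trivial] at hg ⊢
  linear_combination (⟪n, ν⟫ ^ 2) * hg

/-- Kernel lemma. -/
lemma ker_line (h : Iso r U) {z0 k u : V} {I : Set ℝ} (hI : IsPreconnected I)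
    (h0I : (0 : ℝ) ∈ I) (hIU : ∀ t ∈ I, z0 + t • k ∈ U)
    (hk : D2 r z0 k u = 0) (hu : D2 r z0 u u ≠ 0) :
    ∀ t ∈ I, D2 r (z0 + t • k) k u = 0 ∧ D2 r (z0 + t • k) k k = 0 ∧
      D2 r (z0 + t • k) u u ≠ 0 := by
  have hz0U : z0 ∈ U := by simpa using hIU 0 h0I
  set ν : E3 := D2 r z0 u u with hν
  have h2 : ∀ v : V, EqOn (dir v (fun q => ⟪r q, ν⟫)) (fun q => ⟪dir v r q, ν⟫) U :=
    fun v q hq => dir_inner_const (h.an q hq).differentiableAt ν v
  have h3 : ∀ z ∈ U, ∀ v w : V, dir w (dir v (fun q => ⟪r q, ν⟫)) z = ⟪D2 r z w v, ν⟫ := by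
    intro z hz v w
    rw [dir_congr h.op (h2 v) w hz, dir_inner_const (h.da hz v), dir_dir (h.an z hz)]
  have hfan : AnalyticOnNhd ℝ (fun q => ⟪r q, ν⟫) U := fun q hq =>
    ((innerSL ℝ ν).analyticAt _).comp (h.an q hq) |>.congr
      (Eventually.of_forall fun x => by simp [real_inner_comm])
  intro t ht
  have hzt := hIU t ht
  have hl := hess_line h.op hfan k u (fun z hz => h.det_zero ν hz k u) hI h0I hIU
    (by rw [h3 _ hz0U, hk, inner_zero_left])
    (by rw [h3 _ hz0U]; exact fun h0 => hu (inner_self_eq_zero.1 h0)) t ht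
  rw [h3 _ hzt, h3 _ hzt] at hl
  obtain ⟨n, hn, hall⟩ := h.exists_n hzt
  have hg := h.gauss hzt k u
  simp only [dir_dir (h.an _ hzt)] at hall hg
  rw [hall k u, hall u u] at hl
  rw [hall k k, hall k u, hall u u] at hg
  simp only [inner_smul_left, inner_smul_right, hn, conj_trivial] at hl hg
  obtain ⟨hl1, hl2⟩ := hl
  have hnν : ⟪n, ν⟫ ≠ 0 := right_ne_zero_of_mul hl2
  have huu : ⟪D2 r (z0 + t • k) u u, n⟫ ≠ 0 := left_ne_zero_of_mul hl2
  have hku : ⟪D2 r (z0 + t • k) k u, n⟫ = 0 := (mul_eq_zero.1 hl1).resolve_right hnν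
  have hkk : ⟪D2 r (z0 + t • k) k k, n⟫ = 0 := by
    rw [hku] at hg
    simp only [mul_one, mul_zero] at hg
    exact (mul_eq_zero.1 hg).resolve_left huu
  refine ⟨?_, ?_, ?_⟩
  · rw [hall k u, hku, zero_smul]
  · rw [hall k k, hkk, zero_smul]
  · intro h0
    rw [h0, inner_zero_left] at huu
    exact huu rfl

end Iso

/-- decomposition in a basis -/
lemma basis_dec (k u a : V) (hD : k.1 * u.2 - k.2 * u.1 ≠ 0) :
    a = ((a.1 * u.2 - a.2 * u.1) / (k.1 * u.2 - k.2 * u.1)) • k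
      + ((k.1 * a.2 - k.2 * a.1) / (k.1 * u.2 - k.2 * u.1)) • u := by
  ext
  · simp only [Prod.fst_add, Prod.smul_fst, smul_eq_mul]
    rw [div_mul_eq_mul_div, div_mul_eq_mul_div, ← add_div, eq_div_iff hD]
    ring
  · simp only [Prod.snd_add, Prod.smul_snd, smul_eq_mul]
    rw [div_mul_eq_mul_div, div_mul_eq_mul_div, ← add_div, eq_div_iff hD]
    ring

lemma D2_zero_of_two' {r : V → E3} {z : V} {k u : V}
    (hD : k.1 * u.2 - k.2 * u.1 ≠ 0) (hk : D2 r z k = 0) (hu : D2 r z u = 0) :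
    D2 r z = 0 := by
  refine ContinuousLinearMap.ext fun a => ContinuousLinearMap.ext fun b => ?_
  have : D2 r z a = ((a.1 * u.2 - a.2 * u.1) / (k.1 * u.2 - k.2 * u.1)) • D2 r z k
      + ((k.1 * a.2 - k.2 * a.1) / (k.1 * u.2 - k.2 * u.1)) • D2 r z u := by
    conv_lhs => rw [basis_dec k u a hD]
    rw [map_add, map_smul, map_smul]
  rw [this, hk, hu]
  simp

lemma D2_zero_of {r : V → E3} {z : V} (h : AnalyticAt ℝ r z) {k u : V}
    (hD : k.1 * u.2 - k.2 * u.1 ≠ 0) (hk : D2 r z k = 0) (hu : D2 r z u u = 0) :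
    D2 r z = 0 := by
  have huk : D2 r z u k = 0 := by rw [D2_symm h, hk]; rfl
  have hu' : D2 r z u = 0 := by
    refine ContinuousLinearMap.ext fun b => ?_
    rw [basis_dec k u b hD, map_add, map_smul, map_smul, huk, hu]
    simp
  exact D2_zero_of_two' hD hk hu'

lemma D2_zero_of_two {r : V → E3} {z : V} {k u : V}
    (hD : k.1 * u.2 - k.2 * u.1 ≠ 0) (hk : D2 r z k = 0) (hu : D2 r z u = 0) :
    D2 r z = 0 := by
  exact D2_zero_of_two' hD hk hu

lemma D2_k_zero {r : V → E3} {z : V} {k u : V}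
    (hD : k.1 * u.2 - k.2 * u.1 ≠ 0) (hk : D2 r z k k = 0) (hu : D2 r z k u = 0) :
    D2 r z k = 0 := by
  refine ContinuousLinearMap.ext fun a => ?_
  rw [basis_dec k u a hD, map_add, map_smul, map_smul, hk, hu]
  simp

/-- Along a chord in a kernel direction the kernel is kept and the map is affine. -/
lemma Iso.chord {r : V → E3} {U : Set V} (h : Iso r U) {z k : V} (hk : D2 r z k = 0)
    (hc : D2 r z ≠ 0) (hseg : ∀ t ∈ Icc (0 : ℝ) 1, z + t • k ∈ U) :
    D2 r (z + k) k = 0 ∧ D2 r (z + k) ≠ 0 ∧ r (z + k) = r z + fderiv ℝ r z k := by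
  by_cases hk0 : k = 0
  · subst hk0
    simpa using hc
  have h0I : (0 : ℝ) ∈ Icc (0 : ℝ) 1 := ⟨le_rfl, zero_le_one⟩
  have hzU : z ∈ U := by simpa using hseg 0 h0I
  set u : V := (-k.2, k.1) with hu
  have hD : k.1 * u.2 - k.2 * u.1 ≠ 0 := by
    have : 0 < k.1 ^ 2 + k.2 ^ 2 := by
      rcases lt_or_ge 0 (k.1 ^ 2 + k.2 ^ 2) with h | h
      · exact h
      · exfalso
        apply hk0
        have h1 : k.1 = 0 := by nlinarith [sq_nonneg k.1, sq_nonneg k.2]
        have h2 : k.2 = 0 := by nlinarith [sq_nonneg k.1, sq_nonneg k.2]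
        exact Prod.ext h1 h2
    simp only [hu]
    nlinarith
  have huu : D2 r z u u ≠ 0 := fun h0 => hc (D2_zero_of (h.an z hzU) hD hk h0)
  have hline := h.ker_line isPreconnected_Icc h0I hseg (by rw [hk]; rfl) huu
  have hker : ∀ t ∈ Icc (0 : ℝ) 1, D2 r (z + t • k) k = 0 :=
    fun t ht => D2_k_zero hD (hline t ht).2.1 (hline t ht).1
  have h1I : (1 : ℝ) ∈ Icc (0 : ℝ) 1 := ⟨zero_le_one, le_rfl⟩
  have e1 : z + (1 : ℝ) • k = z + k := by rw [one_smul]
  refine ⟨?_, ?_, ?_⟩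
  · have := hker 1 h1I
    rwa [e1] at this
  · have := (hline 1 h1I).2.2
    rw [e1] at this
    intro h0
    rw [h0] at this
    exact this rfl
  · have hd1 : ∀ t ∈ Icc (0 : ℝ) 1,
        HasDerivAt (fun s : ℝ => dir k r (z + s • k)) 0 t := by
      intro t ht
      have := hasDerivAt_line (k := k) (z := z) (t := t) (h.da (hseg t ht) k)
      rw [dir_dir (h.an _ (hseg t ht)), hker t ht] at this
      exact this
    have hc1 : ∀ t ∈ Icc (0 : ℝ) 1, dir k r (z + t • k) = dir k r z := by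
      intro t ht
      have := constant_of_has_deriv_right_zero (f := fun s : ℝ => dir k r (z + s • k))
        (a := 0) (b := 1) (fun t ht => (hd1 t ht).continuousAt.continuousWithinAt)
        (fun t ht => (hd1 t ⟨ht.1, ht.2.le⟩).hasDerivWithinAt) t ht
      simpa using this
    have hd2 : ∀ t ∈ Icc (0 : ℝ) 1,
        HasDerivAt (fun s : ℝ => r (z + s • k) - s • dir k r z) 0 t := by
      intro t ht
      have h5 := hasDerivAt_line (k := k) (z := z) (t := t) (h.an _ (hseg t ht)).differentiableAt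
      rw [hc1 t ht] at h5
      refine HasDerivAt.congr_deriv (h5.sub ((hasDerivAt_id t).smul_const (dir k r z))) ?_
      simp
    have := constant_of_has_deriv_right_zero
      (f := fun s : ℝ => r (z + s • k) - s • dir k r z)
      (a := 0) (b := 1) (fun t ht => (hd2 t ht).continuousAt.continuousWithinAt)
      (fun t ht => (hd2 t ⟨ht.1, ht.2.le⟩).hasDerivWithinAt) 1 h1I
    simp only [one_smul, zero_smul, add_zero, sub_zero] at this
    rw [← this]
    simp [dir]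

/-- Chords in kernel directions do not cross. -/
lemma Iso.noncross {r : V → E3} {U : Set V} (h : Iso r U) {z k z' k' : V} (hk : D2 r z k = 0)
    (hc : D2 r z ≠ 0) (hseg : ∀ t ∈ Icc (0 : ℝ) 1, z + t • k ∈ U)
    (hk' : D2 r z' k' = 0) (hc' : D2 r z' ≠ 0) (hseg' : ∀ t ∈ Icc (0 : ℝ) 1, z' + t • k' ∈ U)
    (hmeet : z + k = z' + k') : k.1 * k'.2 - k.2 * k'.1 = 0 := by
  by_contra hD
  obtain ⟨h1, h2, -⟩ := h.chord hk hc hseg
  obtain ⟨h1', -, -⟩ := h.chord hk' hc' hseg'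
  rw [← hmeet] at h1'
  exact h2 (D2_zero_of_two hD h1 h1')

end Pool.Agent.Helper962.Flat
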