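import Mathlib
import Pool.Agent.Helper962.F2

set_option autoImplicit false

namespace Pool.Agent.Helper962.Flat

open Set Filter Topology
open scoped RealInnerProductSpace

/-- local division -/
lemma div_local {f g : ℝ → ℝ} {s : ℝ} (hf : AnalyticAt ℝ f s) (hg : AnalyticAt ℝ g s)
    {C : ℝ} (hC : ∀ᶠ t in 𝓝 s, |f t| ≤ C * |g t|) (hg0 : ¬ ∀ᶠ t in 𝓝 s, g t = 0) :
    ∃ h : ℝ → ℝ, AnalyticAt ℝ h s ∧ ∀ᶠ t in 𝓝 s, f t = h t * g t := by
  obtain ⟨n, g1, hg1, hg1s, hgeq⟩ := hg.exists_eventuallyEq_pow_smul_nonzero_iff.2 hg0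
  by_cases hf0 : ∀ᶠ t in 𝓝 s, f t = 0
  · exact ⟨fun _ => 0, analyticAt_const, by filter_upwards [hf0] with t ht; simp [ht]⟩
  obtain ⟨m, f1, hf1, hf1s, hfeq⟩ := hf.exists_eventuallyEq_pow_smul_nonzero_iff.2 hf0
  have hnm : n ≤ m := by
    by_contra hlt
    push Not at hlt
    -- |f1| ≤ C |t-s|^(n-m) |g1| off s, hence f1 s = 0
    have h1 : ∀ᶠ t in 𝓝[≠] s, |f1 t| ≤ C * (|t - s| ^ (n - m) * |g1 t|) := by
      have := (hC.and (hgeq.and hfeq)).filter_mono (nhdsWithin_le_nhds (s := {s}ᶜ))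
      filter_upwards [this, self_mem_nhdsWithin] with t ht hts
      obtain ⟨h1, h2, h3⟩ := ht
      have hpos : 0 < |t - s| := abs_pos.2 (sub_ne_zero.2 hts)
      rw [h2, h3, smul_eq_mul, smul_eq_mul, abs_mul, abs_mul, abs_pow, abs_pow] at h1
      have h4 : |t - s| ^ n = |t - s| ^ m * |t - s| ^ (n - m) := by
        rw [← pow_add]; congr 1; omega
      rw [h4] at h1
      have h5 : 0 < |t - s| ^ m := pow_pos hpos m
      refine le_of_mul_le_mul_left ?_ h5
      linarith [h1]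
    have h2 : Tendsto (fun t => |f1 t|) (𝓝[≠] s) (𝓝 |f1 s|) :=
      hf1.continuousAt.abs.tendsto.mono_left nhdsWithin_le_nhds
    have h3 : Tendsto (fun t => C * (|t - s| ^ (n - m) * |g1 t|)) (𝓝[≠] s)
        (𝓝 (C * (|s - s| ^ (n - m) * |g1 s|))) := by
      refine Tendsto.mono_left ?_ nhdsWithin_le_nhds
      have : ContinuousAt (fun t => C * (|t - s| ^ (n - m) * |g1 t|)) s :=
        continuousAt_const.mul
          (((continuousAt_id.sub continuousAt_const).abs.pow _).mul hg1.continuousAt.abs)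
      exact this
    have h4 := le_of_tendsto_of_tendsto h2 h3 h1
    rw [sub_self, abs_zero, zero_pow (by omega)] at h4
    simp only [zero_mul, mul_zero] at h4
    exact hf1s (abs_eq_zero.1 (le_antisymm h4 (abs_nonneg _)))
  refine ⟨fun t => (t - s) ^ (m - n) * (f1 t / g1 t), ?_, ?_⟩
  · exact ((analyticAt_id.sub analyticAt_const).pow _).mul (hf1.div hg1 hg1s)
  · filter_upwards [hgeq, hfeq, hg1.continuousAt.eventually_ne hg1s] with t h1 h2 h3
    rw [h1, h2, smul_eq_mul, smul_eq_mul]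
    have h4 : (t - s) ^ m = (t - s) ^ (m - n) * (t - s) ^ n := by
      rw [← pow_add]; congr 1; omega
    rw [h4]
    field_simp

/-- division of analytic functions on an interval -/
lemma div_an {f g : ℝ → ℝ} {J : Set ℝ} (hJ : IsPreconnected J) (hJo : IsOpen J)
    (hf : AnalyticOnNhd ℝ f J) (hg : AnalyticOnNhd ℝ g J)
    {C : ℝ} (hC : ∀ t ∈ J, |f t| ≤ C * |g t|) {s0 : ℝ} (hs0 : s0 ∈ J) (hgs : g s0 ≠ 0) :
    (∀ s ∈ J, ∀ᶠ t in 𝓝[≠] s, g t ≠ 0) ∧
    ∃ h : ℝ → ℝ, AnalyticOnNhd ℝ h J ∧ ∀ t ∈ J, f t = h t * g t := by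
  have hne : ∀ s ∈ J, ¬ ∀ᶠ t in 𝓝 s, g t = 0 := by
    intro s hs h0
    exact hgs (hg.eqOn_zero_of_preconnected_of_eventuallyEq_zero hJ hs h0 hs0)
  have hne' : ∀ s ∈ J, ∀ᶠ t in 𝓝[≠] s, g t ≠ 0 := fun s hs =>
    ((hg s hs).eventually_eq_zero_or_eventually_ne_zero).resolve_left (hne s hs)
  refine ⟨hne', ?_⟩
  have hloc : ∀ s ∈ J, ∃ h : ℝ → ℝ, AnalyticAt ℝ h s ∧ ∀ᶠ t in 𝓝 s, f t = h t * g t := by
    intro s hs
    exact div_local (hf s hs) (hg s hs)
      (by filter_upwards [hJo.mem_nhds hs] with t ht using hC t ht) (hne s hs)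
  choose! H hHan hHeq using hloc
  refine ⟨fun t => H t t, fun s hs => ?_, fun t ht => (hHeq t ht).self_of_nhds⟩
  refine (hHan s hs).congr ?_
  have h1 : ∀ᶠ t in 𝓝[≠] s, H s t = H t t := by
    have h2 := (hHeq s hs).filter_mono (nhdsWithin_le_nhds (s := {s}ᶜ))
    have h3 : ∀ᶠ t in 𝓝[≠] s, t ∈ J := nhdsWithin_le_nhds (hJo.mem_nhds hs)
    filter_upwards [h2, h3, hne' s hs] with t h4 h5 h6
    have h7 := (hHeq t h5).self_of_nhds
    rw [h4] at h7
    exact mul_right_cancel₀ h6 h7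
  rw [eventually_nhdsWithin_iff] at h1
  filter_upwards [h1] with t ht
  by_cases hts : t = s
  · rw [hts]
  · exact ht hts

lemma Iso.D2_an {r : V → E3} {U : Set V} (h : Iso r U) : AnalyticOnNhd ℝ (D2 r) U :=
  h.an.fderiv.fderiv

/-- Slope functions along a transversal line. -/
lemma Iso.slope {r : V → E3} {U : Set V} (h : Iso r U) {p u w : V}
    (hD : w.1 * u.2 - w.2 * u.1 ≠ 0) {J : Set ℝ} (hJo : IsOpen J) (hJ : IsPreconnected J)
    (hJU : ∀ s ∈ J, p + s • u ∈ U) {C : ℝ}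
    (hC : ∀ s ∈ J, D2 r (p + s • u) ≠ 0 → ∃ m : ℝ, |m| ≤ C ∧ D2 r (p + s • u) (w + m • u) = 0)
    {s0 : ℝ} (hs0 : s0 ∈ J) (hne : D2 r (p + s0 • u) ≠ 0) :
    ∃ m : ℝ → ℝ, AnalyticOnNhd ℝ m J ∧ (∀ s ∈ J, D2 r (p + s • u) (w + m s • u) = 0) ∧
      (∀ s ∈ J, ∀ᶠ t in 𝓝[≠] s, D2 r (p + t • u) ≠ 0) ∧ (∀ s ∈ J, |m s| ≤ C) := by
  have hDm : ∀ m : ℝ, (w + m • u).1 * u.2 - (w + m • u).2 * u.1 ≠ 0 := by
    intro m
    simp only [Prod.fst_add, Prod.snd_add, Prod.smul_fst, Prod.smul_snd, smul_eq_mul]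
    convert hD using 1
    ring
  -- where curved, D2 u u ≠ 0
  have huu : ∀ s ∈ J, D2 r (p + s • u) ≠ 0 → D2 r (p + s • u) u u ≠ 0 := by
    intro s hs h1 h0
    obtain ⟨m, -, hm⟩ := hC s hs h1
    exact h1 (D2_zero_of (h.an _ (hJU s hs)) (hDm m) hm h0)
  set ν : E3 := D2 r (p + s0 • u) u u with hν
  have hlin : ∀ a b : V, AnalyticOnNhd ℝ (fun s : ℝ => ⟪ν, D2 r (p + s • u) a b⟫) J := by
    intro a b s hs
    have h1 : AnalyticAt ℝ (fun z : V => ⟪ν, D2 r z a b⟫) (p + s • u) := by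
      have h2 := h.D2_an _ (hJU s hs)
      exact ((innerSL ℝ ν).analyticAt _).fun_comp
        (((ContinuousLinearMap.apply ℝ E3 b).analyticAt _).fun_comp
          (((ContinuousLinearMap.apply ℝ (V →L[ℝ] E3) a).analyticAt _).fun_comp h2))
    exact line_an h1
  have hgs0 : ⟪ν, D2 r (p + s0 • u) u u⟫ ≠ 0 := fun h0 => huu s0 hs0 hne (inner_self_eq_zero.1 h0)
  have hbound : ∀ s ∈ J, |⟪ν, D2 r (p + s • u) w u⟫| ≤ C * |⟪ν, D2 r (p + s • u) u u⟫| := by
    intro s hs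
    by_cases h0 : D2 r (p + s • u) = 0
    · rw [h0]; simp
    · obtain ⟨m, hmC, hm⟩ := hC s hs h0
      have h1 : D2 r (p + s • u) w u = -(m • D2 r (p + s • u) u u) := by
        have : D2 r (p + s • u) (w + m • u) u = 0 := by rw [hm]; rfl
        rw [map_add, map_smul] at this
        exact eq_neg_of_add_eq_zero_left this
      rw [h1, inner_neg_right, inner_smul_right, abs_neg, abs_mul]
      exact mul_le_mul_of_nonneg_right hmC (abs_nonneg _)
  obtain ⟨hgne, q, hqan, hq⟩ := div_an hJ hJo (hlin w u) (hlin u u) hbound hs0 hgs0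
  have hcne : ∀ s ∈ J, ∀ᶠ t in 𝓝[≠] s, D2 r (p + t • u) ≠ 0 := by
    intro s hs
    filter_upwards [hgne s hs] with t ht h0
    rw [h0] at ht
    simp at ht
  have hpunct : ∀ s ∈ J, ∀ᶠ t in 𝓝[≠] s, D2 r (p + t • u) (w + (-q t) • u) = 0 ∧ |-q t| ≤ C := by
    intro s hs
    have h3 : ∀ᶠ t in 𝓝[≠] s, t ∈ J := nhdsWithin_le_nhds (hJo.mem_nhds hs)
    filter_upwards [hgne s hs, hcne s hs, h3] with t ht hct htJ
    obtain ⟨m, hmC, hm⟩ := hC t htJ hct
    have h1 : D2 r (p + t • u) w u = -(m • D2 r (p + t • u) u u) := by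
      have : D2 r (p + t • u) (w + m • u) u = 0 := by rw [hm]; rfl
      rw [map_add, map_smul] at this
      exact eq_neg_of_add_eq_zero_left this
    have h2 := hq t htJ
    rw [h1, inner_neg_right, inner_smul_right, ← neg_mul] at h2
    have h4 : -m = q t := mul_right_cancel₀ ht h2
    rw [← h4, neg_neg]
    exact ⟨hm, hmC⟩
  have hcont : ∀ s ∈ J, ContinuousAt (fun t : ℝ => D2 r (p + t • u) (w + (-q t) • u)) s := by
    intro s hs
    have h1 : ContinuousAt (fun t : ℝ => D2 r (p + t • u)) s :=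
      (line_an (h.D2_an _ (hJU s hs))).continuousAt
    have h2 : ContinuousAt (fun t : ℝ => w + (-q t) • u) s :=
      continuousAt_const.add ((hqan s hs).continuousAt.neg.smul continuousAt_const)
    exact h1.clm_apply h2
  refine ⟨fun t => -q t, fun s hs => (hqan s hs).neg, fun s hs => ?_, hcne, fun s hs => ?_⟩
  · have h1 : Tendsto (fun t : ℝ => D2 r (p + t • u) (w + (-q t) • u)) (𝓝[≠] s)
        (𝓝 (D2 r (p + s • u) (w + (-q s) • u))) := (hcont s hs).tendsto.mono_left nhdsWithin_le_nhds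
    have h2 : Tendsto (fun t : ℝ => D2 r (p + t • u) (w + (-q t) • u)) (𝓝[≠] s) (𝓝 0) :=
      tendsto_const_nhds.congr' (by filter_upwards [hpunct s hs] with t ht using ht.1.symm)
    exact tendsto_nhds_unique h1 h2
  · have h1 : Tendsto (fun t : ℝ => |-q t|) (𝓝[≠] s) (𝓝 |-q s|) :=
      ((hqan s hs).continuousAt.neg.abs).tendsto.mono_left nhdsWithin_le_nhds
    exact le_of_tendsto h1 (by filter_upwards [hpunct s hs] with t ht using ht.2)

lemma D2_smul_zero {r : V → E3} {z k : V} (h : D2 r z k = 0) (τ : ℝ) :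
    D2 r z (τ • k) = 0 := by
  refine ContinuousLinearMap.ext fun b => ?_
  rw [map_smul, h]
  simp

/-- Affine transport along chords, also at flat points. -/
lemma Iso.transport {r : V → E3} {U : Set V} (h : Iso r U) {p u w : V} {m : ℝ → ℝ} {s : ℝ}
    (hm : ContinuousAt m s)
    (hker : ∀ᶠ t in 𝓝[≠] s, D2 r (p + t • u) (w + m t • u) = 0 ∧ D2 r (p + t • u) ≠ 0) {τ : ℝ}
    (hseg : ∀ θ ∈ Icc (0 : ℝ) 1, p + s • u + θ • (τ • (w + m s • u)) ∈ U) :
    r (p + s • u + τ • (w + m s • u))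
      = r (p + s • u) + fderiv ℝ r (p + s • u) (τ • (w + m s • u)) := by
  have hγ : ContinuousAt (fun t : ℝ => p + t • u) s := by fun_prop
  have hδ : ContinuousAt (fun t : ℝ => τ • (w + m t • u)) s := by fun_prop
  have htube : ∀ᶠ t in 𝓝 s, ∀ θ ∈ Icc (0 : ℝ) 1,
      p + t • u + θ • (τ • (w + m t • u)) ∈ U := by
    refine isCompact_Icc.eventually_forall_of_forall_eventually (P := fun t θ =>
      p + t • u + θ • (τ • (w + m t • u)) ∈ U) fun θ hθ => ?_
    have hc : ContinuousAt (fun q : ℝ × ℝ => p + q.1 • u + q.2 • (τ • (w + m q.1 • u))) (s, θ) := by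
      have h1 : ContinuousAt (fun q : ℝ × ℝ => p + q.1 • u) (s, θ) := by fun_prop
      have h2 : ContinuousAt (fun q : ℝ × ℝ => τ • (w + m q.1 • u)) (s, θ) :=
        ContinuousAt.comp (f := fun q : ℝ × ℝ => q.1) (x := (s, θ)) hδ continuousAt_fst
      exact h1.add (continuousAt_snd.smul h2)
    exact hc.eventually_mem (h.op.mem_nhds (hseg θ hθ))
  have h0I : (0 : ℝ) ∈ Icc (0 : ℝ) 1 := ⟨le_rfl, zero_le_one⟩
  have h1I : (1 : ℝ) ∈ Icc (0 : ℝ) 1 := ⟨zero_le_one, le_rfl⟩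
  have hsU : p + s • u ∈ U := by simpa using hseg 0 h0I
  have heU : p + s • u + τ • (w + m s • u) ∈ U := by
    have := hseg 1 h1I
    rwa [one_smul] at this
  have hpt : ∀ᶠ t in 𝓝[≠] s, r (p + t • u + τ • (w + m t • u))
      = r (p + t • u) + fderiv ℝ r (p + t • u) (τ • (w + m t • u)) := by
    filter_upwards [hker, htube.filter_mono nhdsWithin_le_nhds] with t h1 h2
    refine (h.chord ?_ h1.2 h2).2.2
    exact D2_smul_zero h1.1 τ
  have hL : ContinuousAt (fun t : ℝ => r (p + t • u + τ • (w + m t • u))) s :=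
    ContinuousAt.comp (f := fun t : ℝ => p + t • u + τ • (w + m t • u)) (x := s)
      (h.an _ heU).continuousAt (hγ.add hδ)
  have hR : ContinuousAt (fun t : ℝ => r (p + t • u)
      + fderiv ℝ r (p + t • u) (τ • (w + m t • u))) s := by
    have h1 : ContinuousAt (fun t : ℝ => r (p + t • u)) s :=
      ContinuousAt.comp (f := fun t : ℝ => p + t • u) (x := s) (h.an _ hsU).continuousAt hγ
    have h2 : ContinuousAt (fun t : ℝ => fderiv ℝ r (p + t • u)) s :=
      ContinuousAt.comp (f := fun t : ℝ => p + t • u) (x := s) (h.an _ hsU).fderiv.continuousAt hγ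
    exact h1.add (h2.clm_apply hδ)
  have hL' := hL.tendsto.mono_left (nhdsWithin_le_nhds (s := {s}ᶜ))
  have hR' := hR.tendsto.mono_left (nhdsWithin_le_nhds (s := {s}ᶜ))
  exact tendsto_nhds_unique (hL'.congr' hpt) hR'

end Pool.Agent.Helper962.Flat
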