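import Mathlib
import Pool.Agent.Helper962.F3

set_option autoImplicit false

namespace Pool.Agent.Helper962.Flat

open Set Filter Topology
open scoped RealInnerProductSpace

variable {r : V → E3} {U : Set V}

lemma Iso.exists_ker (h : Iso r U) {z : V} (hz : z ∈ U) : ∃ k : V, k ≠ 0 ∧ D2 r z k = 0 := by
  obtain ⟨n, hn, hall⟩ := h.exists_n hz
  have hg := h.gauss hz (1, 0) (0, 1)
  simp only [dir_dir (h.an _ hz)] at hall hg
  rw [hall (1, 0) (1, 0), hall (0, 1) (0, 1), hall (1, 0) (0, 1)] at hg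
  simp only [inner_smul_left, inner_smul_right, hn, conj_trivial] at hg
  set a := ⟪D2 r z (1, 0) (1, 0), n⟫ with ha
  set b := ⟪D2 r z (1, 0) (0, 1), n⟫ with hb
  set c := ⟪D2 r z (0, 1) (0, 1), n⟫ with hc
  have h11 : D2 r z (1, 0) (1, 0) = a • n := hall _ _
  have h12 : D2 r z (1, 0) (0, 1) = b • n := hall _ _
  have h22 : D2 r z (0, 1) (0, 1) = c • n := hall _ _
  have h21 : D2 r z (0, 1) (1, 0) = b • n := by rw [D2_symm (h.an _ hz), h12]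
  have hD : ((1 : ℝ), (0 : ℝ)).1 * ((0 : ℝ), (1 : ℝ)).2 - ((1 : ℝ), (0 : ℝ)).2 * ((0 : ℝ), (1 : ℝ)).1 ≠ 0 := by
    norm_num
  by_cases h0 : a = 0 ∧ b = 0
  · refine ⟨(1, 0), by simp, ?_⟩
    exact D2_k_zero hD (by rw [h11, h0.1, zero_smul]) (by rw [h12, h0.2, zero_smul])
  · refine ⟨(-b, a), fun h1 => h0 ?_, ?_⟩
    · have h2 := congrArg Prod.fst h1
      have h3 := congrArg Prod.snd h1
      simp only [Prod.fst_zero, Prod.snd_zero, neg_eq_zero] at h2 h3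
      exact ⟨h3, h2⟩
    · have hk : ∀ v : V, D2 r z (-b, a) v = (-b) • D2 r z (1, 0) v + a • D2 r z (0, 1) v := by
        intro v
        have e : ((-b, a) : V) = (-b) • ((1, 0) : V) + a • ((0, 1) : V) := by
          ext <;> simp
        rw [e, map_add, map_smul, map_smul]
        rfl
      refine ContinuousLinearMap.ext fun v => ?_
      have ev : v = v.1 • ((1, 0) : V) + v.2 • ((0, 1) : V) := by ext <;> simp
      rw [ev, map_add, map_smul, map_smul, hk, hk, h11, h12, h21, h22]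
      simp only [smul_smul, ← add_smul]
      have e1 : -b * a + a * b = 0 := by ring
      have e2 : -b * b + a * c = 0 := by linarith
      rw [e1, e2]
      simp

lemma uniqH {z : V} {m m' : ℝ} (h1 : D2 r z (m, 1) = 0) (h2 : D2 r z (m', 1) = 0)
    (hc : D2 r z ≠ 0) : m = m' := by
  by_contra hne
  refine hc (D2_zero_of_two (k := (m, 1)) (u := (m', 1)) ?_ h1 h2)
  simpa [sub_eq_zero] using hne

lemma uniqV {z : V} {m m' : ℝ} (h1 : D2 r z (1, m) = 0) (h2 : D2 r z (1, m') = 0)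
    (hc : D2 r z ≠ 0) : m = m' := by
  by_contra hne
  refine hc (D2_zero_of_two (k := (1, m)) (u := (1, m')) ?_ h1 h2)
  simp only [one_mul, mul_one]
  intro h
  exact hne (by linarith)

lemma eqH (x y τ m : ℝ) : ((x + τ * m, y + τ) : V) = (x, y) + τ • (m, 1) := by
  ext <;> simp

lemma eqV (x y τ m : ℝ) : ((x + τ, y + τ * m) : V) = (x, y) + τ • (1, m) := by
  ext <;> simp

lemma D2_of_smul {z k : V} {τ : ℝ} (hτ : τ ≠ 0) (h : D2 r z (τ • k) = 0) : D2 r z k = 0 := by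
  have := D2_smul_zero h τ⁻¹
  rwa [smul_smul, inv_mul_cancel₀ hτ, one_smul] at this

lemma Iso.chord_dir (h : Iso r U) {z k : V} (hk : D2 r z k = 0) (hc : D2 r z ≠ 0) (τ : ℝ)
    (hseg : ∀ θ ∈ Icc (0 : ℝ) 1, z + θ • (τ • k) ∈ U) :
    D2 r (z + τ • k) k = 0 ∧ D2 r (z + τ • k) ≠ 0 ∧
      r (z + τ • k) = r z + fderiv ℝ r z (τ • k) := by
  obtain ⟨h1, h2, h3⟩ := h.chord (D2_smul_zero hk τ) hc hseg
  refine ⟨?_, h2, h3⟩
  by_cases hτ : τ = 0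
  · subst hτ
    simpa using hk
  · exact D2_of_smul hτ h1

lemma Iso.chordH (h : Iso r U) {x y m : ℝ} (hk : D2 r (x, y) (m, 1) = 0)
    (hc : D2 r (x, y) ≠ 0) (τ : ℝ)
    (hseg : ∀ θ ∈ Icc (0 : ℝ) 1, (x + θ * τ * m, y + θ * τ) ∈ U) :
    D2 r (x + τ * m, y + τ) (m, 1) = 0 ∧ D2 r (x + τ * m, y + τ) ≠ 0 ∧
      r (x + τ * m, y + τ) = r (x, y) + fderiv ℝ r (x, y) (τ • (m, 1)) := by
  rw [eqH x y τ m]
  refine h.chord_dir hk hc τ fun θ hθ => ?_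
  have := hseg θ hθ
  rwa [eqH x y (θ * τ) m, ← smul_smul] at this

lemma Iso.chordV (h : Iso r U) {x y m : ℝ} (hk : D2 r (x, y) (1, m) = 0)
    (hc : D2 r (x, y) ≠ 0) (τ : ℝ)
    (hseg : ∀ θ ∈ Icc (0 : ℝ) 1, (x + θ * τ, y + θ * τ * m) ∈ U) :
    D2 r (x + τ, y + τ * m) (1, m) = 0 ∧ D2 r (x + τ, y + τ * m) ≠ 0 ∧
      r (x + τ, y + τ * m) = r (x, y) + fderiv ℝ r (x, y) (τ • (1, m)) := by
  rw [eqV x y τ m]
  refine h.chord_dir hk hc τ fun θ hθ => ?_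
  have := hseg θ hθ
  rwa [eqV x y (θ * τ) m, ← smul_smul] at this

lemma ptH (c s : ℝ) : ((0, c) : V) + s • ((1, 0) : V) = (s, c) := by ext <;> simp
lemma ptV (c s : ℝ) : ((c, 0) : V) + s • ((0, 1) : V) = (c, s) := by ext <;> simp
lemma dirH (m : ℝ) : ((0, 1) : V) + m • ((1, 0) : V) = (m, 1) := by ext <;> simp
lemma dirV (m : ℝ) : ((1, 0) : V) + m • ((0, 1) : V) = (1, m) := by ext <;> simp

lemma Iso.slopeH (h : Iso r U) {c a b C : ℝ} (hU : ∀ s ∈ Ioo a b, (s, c) ∈ U)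
    (hC : ∀ s ∈ Ioo a b, D2 r (s, c) ≠ 0 → ∃ m : ℝ, |m| ≤ C ∧ D2 r (s, c) (m, 1) = 0)
    {s0 : ℝ} (hs0 : s0 ∈ Ioo a b) (hne : D2 r (s0, c) ≠ 0) :
    ∃ m : ℝ → ℝ, AnalyticOnNhd ℝ m (Ioo a b) ∧ (∀ s ∈ Ioo a b, D2 r (s, c) (m s, 1) = 0) ∧
      (∀ s ∈ Ioo a b, ∀ᶠ t in 𝓝[≠] s, D2 r (t, c) ≠ 0) ∧ (∀ s ∈ Ioo a b, |m s| ≤ C) := by
  have := h.slope (p := (0, c)) (u := (1, 0)) (w := (0, 1)) (C := C) (by norm_num) isOpen_Ioo
    isPreconnected_Ioo (J := Ioo a b) (by simpa only [ptH] using hU)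
    (by simpa only [ptH, dirH] using hC) (s0 := s0) hs0 (by rwa [ptH])
  simpa only [ptH, dirH] using this

lemma Iso.slopeV (h : Iso r U) {c a b C : ℝ} (hU : ∀ s ∈ Ioo a b, (c, s) ∈ U)
    (hC : ∀ s ∈ Ioo a b, D2 r (c, s) ≠ 0 → ∃ m : ℝ, |m| ≤ C ∧ D2 r (c, s) (1, m) = 0)
    {s0 : ℝ} (hs0 : s0 ∈ Ioo a b) (hne : D2 r (c, s0) ≠ 0) :
    ∃ m : ℝ → ℝ, AnalyticOnNhd ℝ m (Ioo a b) ∧ (∀ s ∈ Ioo a b, D2 r (c, s) (1, m s) = 0) ∧
      (∀ s ∈ Ioo a b, ∀ᶠ t in 𝓝[≠] s, D2 r (c, t) ≠ 0) ∧ (∀ s ∈ Ioo a b, |m s| ≤ C) := by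
  have := h.slope (p := (c, 0)) (u := (0, 1)) (w := (1, 0)) (C := C) (by norm_num) isOpen_Ioo
    isPreconnected_Ioo (J := Ioo a b) (by simpa only [ptV] using hU)
    (by simpa only [ptV, dirV] using hC) (s0 := s0) hs0 (by rwa [ptV])
  simpa only [ptV, dirV] using this

lemma Iso.transportH (h : Iso r U) {m : ℝ → ℝ} {c s : ℝ} (hm : ContinuousAt m s)
    (hker : ∀ᶠ t in 𝓝[≠] s, D2 r (t, c) (m t, 1) = 0 ∧ D2 r (t, c) ≠ 0) {τ : ℝ}
    (hseg : ∀ θ ∈ Icc (0 : ℝ) 1, (s + θ * τ * m s, c + θ * τ) ∈ U) :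
    r (s + τ * m s, c + τ) = r (s, c) + fderiv ℝ r (s, c) (τ • (m s, 1)) := by
  have := h.transport (p := (0, c)) (u := (1, 0)) (w := (0, 1)) (τ := τ) hm
    (by simpa only [ptH, dirH] using hker) (fun θ hθ => by
      have := hseg θ hθ
      rw [ptH, dirH, smul_smul, ← eqH]
      exact this)
  rw [ptH, dirH] at this
  rw [eqH]
  exact this

lemma Iso.transportV (h : Iso r U) {m : ℝ → ℝ} {c s : ℝ} (hm : ContinuousAt m s)
    (hker : ∀ᶠ t in 𝓝[≠] s, D2 r (c, t) (1, m t) = 0 ∧ D2 r (c, t) ≠ 0) {τ : ℝ}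
    (hseg : ∀ θ ∈ Icc (0 : ℝ) 1, (c + θ * τ, s + θ * τ * m s) ∈ U) :
    r (c + τ, s + τ * m s) = r (c, s) + fderiv ℝ r (c, s) (τ • (1, m s)) := by
  have := h.transport (p := (c, 0)) (u := (0, 1)) (w := (1, 0)) (τ := τ) hm
    (by simpa only [ptV, dirV] using hker) (fun θ hθ => by
      have := hseg θ hθ
      rw [ptV, dirV, smul_smul, ← eqV]
      exact this)
  rw [ptV, dirV] at this
  rw [eqV]
  exact this

lemma D2_congr {r r' : V → E3} {W : Set V} (hW : IsOpen W) (h : EqOn r r' W) :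
    ∀ z ∈ W, fderiv ℝ r z = fderiv ℝ r' z ∧ D2 r z = D2 r' z := by
  have h1 : ∀ z ∈ W, fderiv ℝ r z = fderiv ℝ r' z := fun z hz =>
    (h.eventuallyEq_of_mem (hW.mem_nhds hz)).fderiv_eq
  intro z hz
  refine ⟨h1 z hz, ?_⟩
  unfold D2
  exact (EqOn.eventuallyEq_of_mem h1 (hW.mem_nhds hz)).fderiv_eq

end Pool.Agent.Helper962.Flat
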