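import Mathlib
import Pool.Agent.Helper962.F4

set_option autoImplicit false

namespace Pool.Agent.Helper962.Flat

open Set Filter Topology
open scoped RealInnerProductSpace

/-- the common top strip -/
def T : Set V := {z | -12 < z.1 ∧ z.1 < 12 ∧ 0 < z.2 ∧ z.2 < 1}

/-- the bottom strip -/
def B : Set V := {z | -12 < z.1 ∧ z.1 < 12 ∧ -1 < z.2 ∧ z.2 < -(1 / 4000)}

/-- a sheet: top strip, neck over `(a, b)`, bottom strip -/
def S (a b : ℝ) : Set V := {z | -12 < z.1 ∧ z.1 < 12 ∧ -1 < z.2 ∧ z.2 < 1 ∧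
  (0 < z.2 ∨ z.2 < -(1 / 4000) ∨ (a < z.1 ∧ z.1 < b))}

lemma isOpen_T : IsOpen T := by
  have : T = Ioo (-12 : ℝ) 12 ×ˢ Ioo (0 : ℝ) 1 := by
    ext z
    simp only [T, mem_ofPred_eq, mem_prod, mem_Ioo]
    tauto
  rw [this]
  exact isOpen_Ioo.prod isOpen_Ioo

lemma T_sub (a b : ℝ) : T ⊆ S a b := by
  rintro z ⟨h1, h2, h3, h4⟩
  exact ⟨h1, h2, by linarith, h4, Or.inl h3⟩

lemma B_sub (a b : ℝ) : B ⊆ S a b := by
  rintro z ⟨h1, h2, h3, h4⟩
  exact ⟨h1, h2, h3, by linarith, Or.inr (Or.inl h4)⟩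

lemma conv_lt {a x y θ : ℝ} (hx : a < x) (hy : a < y) (hθ : θ ∈ Icc (0 : ℝ) 1) :
    a < (1 - θ) * x + θ * y := by
  have h1 : 0 ≤ (1 - θ) * (x - a) := mul_nonneg (by linarith [hθ.2]) (by linarith)
  have h2 : 0 ≤ θ * (y - a) := mul_nonneg hθ.1 (by linarith)
  have h3 : 0 < (1 - θ) * (x - a) + θ * (y - a) := by
    rcases eq_or_lt_of_le hθ.1 with h | h
    · rw [← h]; linarith
    · have := mul_pos h (sub_pos.2 hy)
      linarith
  nlinarith

lemma conv_gt {a x y θ : ℝ} (hx : x < a) (hy : y < a) (hθ : θ ∈ Icc (0 : ℝ) 1) :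
    (1 - θ) * x + θ * y < a := by
  have := conv_lt (a := -a) (x := -x) (y := -y) (by linarith) (by linarith) hθ
  linarith

lemma comp_pair {F : Type*} [NormedAddCommGroup F] [NormedSpace ℝ F] {f : V → F}
    {g k : ℝ → ℝ} {x : ℝ} (hf : AnalyticAt ℝ f (g x, k x)) (hg : AnalyticAt ℝ g x)
    (hk : AnalyticAt ℝ k x) : AnalyticAt ℝ (fun t : ℝ => f (g t, k t)) x :=
  AnalyticAt.comp (g := f) (f := fun t : ℝ => ((g t, k t) : V)) hf (hg.prod hk)

lemma an_smul_pair {τ : ℝ} {g k : ℝ → ℝ} {x : ℝ} (hg : AnalyticAt ℝ g x)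
    (hk : AnalyticAt ℝ k x) : AnalyticAt ℝ (fun t : ℝ => τ • ((g t, k t) : V)) x :=
  AnalyticAt.fun_smul analyticAt_const (hg.prod hk)

lemma an_clm_apply {f : ℝ → V →L[ℝ] E3} {g : ℝ → V} {x : ℝ} (hf : AnalyticAt ℝ f x)
    (hg : AnalyticAt ℝ g x) : AnalyticAt ℝ (fun t : ℝ => f t (g t)) x :=
  AnalyticAt.comp (g := fun q : (V →L[ℝ] E3) × V => q.1 q.2) (f := fun t : ℝ => (f t, g t))
    ((ContinuousLinearMap.id ℝ (V →L[ℝ] E3)).analyticAt_bilinear _) (hf.prod hg)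

/-- bound for the kernel slopes on a horizontal level -/
lemma level_bound {r : V → E3} {a b : ℝ} (h : Iso r (S a b)) {c x' μ : ℝ}
    (hreg : ∀ x y : ℝ, -12 < x → x < 12 → |y - c| ≤ 1 / 2000 → ((x, y) : V) ∈ S a b)
    (hx' : |x'| < 1) (hμ : |μ| ≤ 900) (hc' : D2 r (x', c) ≠ 0)
    (hk' : D2 r (x', c) (μ, 1) = 0) {x : ℝ} (hx1 : -12 < x) (hx2 : x < 12)
    (hcx : D2 r (x, c) ≠ 0) : ∃ m : ℝ, |m| ≤ 60000 ∧ D2 r (x, c) (m, 1) = 0 := by
  obtain ⟨hxl, hxr⟩ := abs_lt.1 hx'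
  obtain ⟨k, hk0, hk⟩ := h.exists_ker (hreg x c hx1 hx2 (by norm_num))
  by_cases hk2 : k.2 = 0
  · exfalso
    have hk1 : k.1 ≠ 0 := fun h1 => hk0 (Prod.ext h1 hk2)
    have e : k = k.1 • ((1, 0) : V) := by ext <;> simp [hk2]
    have he : D2 r (x, c) (1, 0) = 0 := D2_of_smul hk1 (by rw [← e]; exact hk)
    have e2 : ((x, c) : V) + (x' - x) • ((1, 0) : V) = (x', c) := by ext <;> simp
    have := (h.chord_dir he hcx (x' - x) (fun θ hθ => by
      have e3 : ((x, c) : V) + θ • ((x' - x) • ((1, 0) : V)) = ((1 - θ) * x + θ * x', c) := by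
        ext
        · simp; ring
        · simp
      rw [e3]
      exact hreg _ _ (conv_lt hx1 (by linarith) hθ) (conv_gt hx2 (by linarith) hθ)
        (by norm_num))).1
    rw [e2] at this
    exact hc' (D2_zero_of_two (k := (μ, 1)) (u := (1, 0)) (by norm_num) hk' this)
  · have e : k = k.2 • ((k.1 / k.2, 1) : V) := by
      ext
      · simp only [Prod.smul_fst, smul_eq_mul]
        field_simp
      · simp
    have hm : D2 r (x, c) (k.1 / k.2, 1) = 0 := D2_of_smul hk2 (by rw [← e]; exact hk)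
    generalize k.1 / k.2 = m at hm
    refine ⟨m, ?_, hm⟩
    by_contra hbig
    push Not at hbig
    have hmμ : 59100 < |m - μ| := by
      have := abs_sub_abs_le_abs_sub m μ
      linarith
    have hmμ0 : m - μ ≠ 0 := by
      intro h0
      rw [h0, abs_zero] at hmμ
      linarith
    set τ := (x' - x) / (m - μ) with hτ
    have hτm : τ * (m - μ) = x' - x := div_mul_cancel₀ _ hmμ0
    have hτabs : |τ| ≤ 1 / 2000 := by
      have h1 : |τ| * |m - μ| = |x' - x| := by rw [← abs_mul, hτm]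
      have h2 : |x' - x| < 13 := by rw [abs_lt]; constructor <;> linarith
      by_contra h3
      push Not at h3
      nlinarith [abs_nonneg τ]
    have hτμ : |τ * μ| ≤ 45 / 100 := by
      rw [abs_mul]
      have := mul_le_mul hτabs hμ (abs_nonneg _) (by norm_num)
      linarith
    obtain ⟨hτμ1, hτμ2⟩ := abs_le.1 hτμ
    have hmeet : x + τ * m = x' + τ * μ := by linarith
    have hy : ∀ θ ∈ Icc (0 : ℝ) 1, |c + θ * τ - c| ≤ 1 / 2000 := by
      intro θ hθ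
      rw [add_sub_cancel_left, abs_mul, abs_of_nonneg hθ.1]
      nlinarith [hθ.2, abs_nonneg τ]
    have h1 := h.chordH hm hcx τ (fun θ hθ => by
      have e3 : x + θ * τ * m = (1 - θ) * x + θ * (x' + τ * μ) := by
        rw [← hmeet]; ring
      rw [e3]
      exact hreg _ _ (conv_lt hx1 (by linarith) hθ) (conv_gt hx2 (by linarith) hθ) (hy θ hθ))
    have h2 := h.chordH hk' hc' τ (fun θ hθ => by
      have e3 : x' + θ * τ * μ = (1 - θ) * x' + θ * (x' + τ * μ) := by ring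
      rw [e3]
      exact hreg _ _ (conv_lt (by linarith) (by linarith) hθ)
        (conv_gt (by linarith) (by linarith) hθ) (hy θ hθ))
    rw [hmeet] at h1
    exact hmμ0 (sub_eq_zero.2 (uniqH h1.1 h2.1 h1.2.1))

lemma memN {x y : ℝ} (hx : |x| < 1) (hy : |y| < 1) : ((x, y) : V) ∈ S (-1) 1 := by
  obtain ⟨h1, h2⟩ := abs_lt.1 hx
  obtain ⟨h3, h4⟩ := abs_lt.1 hy
  exact ⟨by simp only; linarith, by simp only; linarith, h3, h4, Or.inr (Or.inr ⟨h1, h2⟩)⟩

lemma hreg_top (a b : ℝ) (x y : ℝ) (h1 : -12 < x) (h2 : x < 12)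
    (h3 : |y - 1 / 1000| ≤ 1 / 2000) : ((x, y) : V) ∈ S a b := by
  obtain ⟨h4, h5⟩ := abs_le.1 h3
  exact ⟨h1, h2, by simp only; linarith, by simp only; linarith, Or.inl (by simp only; linarith)⟩

lemma hreg_bot (a b : ℝ) (x y : ℝ) (h1 : -12 < x) (h2 : x < 12)
    (h3 : |y - (-(1 / 1000))| ≤ 1 / 2000) : ((x, y) : V) ∈ S a b := by
  obtain ⟨h4, h5⟩ := abs_le.1 h3
  exact ⟨h1, h2, by simp only; linarith, by simp only; linarith,
    Or.inr (Or.inl (by simp only; linarith))⟩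

end Pool.Agent.Helper962.Flat
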