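import Mathlib
import Pool.Agent.Helper962.F5

set_option autoImplicit false

namespace Pool.Agent.Helper962.Flat

open Set Filter Topology
open scoped RealInnerProductSpace

/-- no kernel line of the middle sheet passes steeply through its neck -/
theorem no_steep {r0 rL : V → E3} (h0 : Iso r0 (S (-1) 1)) (hL : Iso rL (S (-12) (-2)))
    (hT : EqOn r0 rL T) (hB : ∀ z ∈ B, r0 z ≠ rL z) {x0 y0 μ : ℝ} (hx0 : |x0| ≤ 1 / 10)
    (hy0 : |y0| < 1) (hμ : |μ| * (|y0| + 1 / 1000) < 9 / 10) (hc : D2 r0 (x0, y0) ≠ 0)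
    (hk : D2 r0 (x0, y0) (μ, 1) = 0) : False := by
  obtain ⟨hx01, hx02⟩ := abs_le.1 hx0
  obtain ⟨hy01, hy02⟩ := abs_lt.1 hy0
  have hμ900 : |μ| ≤ 900 := by
    have : |μ| * (1 / 1000) ≤ |μ| * (|y0| + 1 / 1000) :=
      mul_le_mul_of_nonneg_left (by linarith [abs_nonneg y0]) (abs_nonneg _)
    linarith
  -- the kernel line in the neck
  have hline : ∀ Y : ℝ, |Y| ≤ 1 / 1000 → D2 r0 (x0 + (Y - y0) * μ, Y) (μ, 1) = 0 ∧
      D2 r0 (x0 + (Y - y0) * μ, Y) ≠ 0 ∧ |x0 + (Y - y0) * μ| < 1 := by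
    intro Y hY
    obtain ⟨hY1, hY2⟩ := abs_le.1 hY
    have hd : |Y - y0| ≤ |y0| + 1 / 1000 := by
      have := abs_sub Y y0
      linarith
    have hb : |(Y - y0) * μ| < 9 / 10 := by
      rw [abs_mul]
      have := mul_le_mul_of_nonneg_right hd (abs_nonneg μ)
      linarith
    have h1 := h0.chordH hk hc (Y - y0) (fun θ hθ => by
      refine memN ?_ ?_
      · have e : θ * (Y - y0) * μ = θ * ((Y - y0) * μ) := by ring
        have h2 : |θ * (Y - y0) * μ| ≤ |(Y - y0) * μ| := by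
          rw [e, abs_mul, abs_of_nonneg hθ.1]
          nlinarith [hθ.2, abs_nonneg ((Y - y0) * μ)]
        have := abs_add_le x0 (θ * (Y - y0) * μ)
        linarith
      · rw [abs_lt]
        constructor
        · have := conv_lt (a := -1) (x := y0) (y := Y) (by linarith) (by linarith) hθ
          nlinarith
        · have := conv_gt (a := 1) (x := y0) (y := Y) (by linarith) (by linarith) hθ
          nlinarith)
    rw [add_sub_cancel] at h1
    refine ⟨h1.1, h1.2.1, ?_⟩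
    have := abs_add_le x0 ((Y - y0) * μ)
    linarith
  obtain ⟨hkT, hcT, hxT⟩ := hline (1 / 1000) (by rw [abs_of_nonneg] <;> norm_num)
  obtain ⟨hkB, hcB, hxB⟩ := hline (-(1 / 1000)) (by rw [abs_neg, abs_of_nonneg] <;> norm_num)
  set xT := x0 + (1 / 1000 - y0) * μ with hxTdef
  set xB := x0 + (-(1 / 1000) - y0) * μ with hxBdef
  have hxBT : xB = xT + -(1 / 500) * μ := by rw [hxTdef, hxBdef]; ring
  obtain ⟨hxT1, hxT2⟩ := abs_lt.1 hxT
  obtain ⟨hxB1, hxB2⟩ := abs_lt.1 hxB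
  -- slope functions
  obtain ⟨mT, hmTan, hmTker, hmTne, -⟩ := h0.slopeH (c := 1 / 1000) (a := -12) (b := 12)
    (C := 60000) (fun s hs => hreg_top _ _ s _ hs.1 hs.2 (by norm_num))
    (fun s hs hcs => level_bound h0 (hreg_top _ _) hxT hμ900 hcT hkT hs.1 hs.2 hcs)
    (s0 := xT) ⟨by linarith, by linarith⟩ hcT
  obtain ⟨mB, hmBan, hmBker, -, -⟩ := h0.slopeH (c := -(1 / 1000)) (a := -12) (b := 12)
    (C := 60000) (fun s hs => hreg_bot _ _ s _ hs.1 hs.2 (by norm_num))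
    (fun s hs hcs => level_bound h0 (hreg_bot _ _) hxB hμ900 hcB hkB hs.1 hs.2 hcs)
    (s0 := xB) ⟨by linarith, by linarith⟩ hcB
  have hxTI : xT ∈ Ioo (-12 : ℝ) 12 := ⟨by linarith, by linarith⟩
  have hxBI : xB ∈ Ioo (-12 : ℝ) 12 := ⟨by linarith, by linarith⟩
  have hmTx : mT xT = μ := uniqH (hmTker xT hxTI) hkT hcT
  set G : ℝ → ℝ := fun x => x + -(1 / 500) * mT x with hG
  have hGxT : G xT = xB := by rw [hG, hxBT]; simp only [hmTx]
  have hGan : AnalyticOnNhd ℝ G (Ioo (-12) 12) := fun x hx =>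
    analyticAt_id.add (analyticAt_const.mul (hmTan x hx))
  have hGc : ∀ x ∈ Ioo (-12 : ℝ) 12, ContinuousAt G x := fun x hx => (hGan x hx).continuousAt
  have hlev : (1 / 1000 + -(1 / 500) : ℝ) = -(1 / 1000) := by norm_num
  -- curved near xT
  have hcurv : ∀ᶠ x in 𝓝 xT, D2 r0 (x, 1 / 1000) ≠ 0 := by
    have h1 : ContinuousAt (fun x : ℝ => D2 r0 (x, 1 / 1000)) xT := by
      have h2 := (h0.D2_an (xT, 1 / 1000)
        (hreg_top _ _ _ _ hxTI.1 hxTI.2 (by norm_num))).continuousAt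
      exact ContinuousAt.comp (f := fun x : ℝ => ((x, 1 / 1000) : V)) h2 (by fun_prop)
    exact h1.eventually_ne hcT
  have hnear : ∀ᶠ x in 𝓝 xT, |x| < 1 ∧ |G x| < 1 ∧ D2 r0 (x, 1 / 1000) ≠ 0 := by
    have h1 : ∀ᶠ x in 𝓝 xT, |x| < 1 := continuousAt_id.abs.eventually_lt continuousAt_const hxT
    have h2 : ∀ᶠ x in 𝓝 xT, |G x| < 1 :=
      (hGc xT hxTI).abs.eventually_lt continuousAt_const (by rw [hGxT]; exact hxB)
    filter_upwards [h1, h2, hcurv] with x h1 h2 h3 using ⟨h1, h2, h3⟩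
  -- subchords near xT
  have hpart : ∀ x : ℝ, |x| < 1 → |G x| < 1 → D2 r0 (x, 1 / 1000) ≠ 0 → ∀ θ0 ∈ Icc (0 : ℝ) 1,
      D2 r0 (x + θ0 * -(1 / 500) * mT x, 1 / 1000 + θ0 * -(1 / 500)) (mT x, 1) = 0 ∧
      D2 r0 (x + θ0 * -(1 / 500) * mT x, 1 / 1000 + θ0 * -(1 / 500)) ≠ 0 ∧
      r0 (x + θ0 * -(1 / 500) * mT x, 1 / 1000 + θ0 * -(1 / 500)) =
        r0 (x, 1 / 1000) + fderiv ℝ r0 (x, 1 / 1000) ((θ0 * -(1 / 500)) • (mT x, 1)) := by
    intro x hx hGx hcx θ0 hθ0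
    obtain ⟨hx1, hx2⟩ := abs_lt.1 hx
    obtain ⟨hG1, hG2⟩ := abs_lt.1 hGx
    refine h0.chordH (hmTker x ⟨by linarith, by linarith⟩) hcx (θ0 * -(1 / 500)) fun θ hθ => ?_
    have hθθ : θ * θ0 ∈ Icc (0 : ℝ) 1 :=
      ⟨mul_nonneg hθ.1 hθ0.1, mul_le_one₀ hθ.2 hθ0.1 hθ0.2⟩
    refine memN ?_ ?_
    · have e : x + θ * (θ0 * -(1 / 500)) * mT x = (1 - θ * θ0) * x + (θ * θ0) * G x := by
        rw [hG]; ring
      rw [e, abs_lt]
      exact ⟨conv_lt hx1 hG1 hθθ, conv_gt hx2 hG2 hθθ⟩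
    · rw [abs_lt]
      constructor <;> nlinarith [hθθ.1, hθθ.2]
  -- kernel identity near xT
  have hidm : ∀ᶠ x in 𝓝 xT, mB (G x) = mT x := by
    filter_upwards [hnear] with x hx
    obtain ⟨h1, h2, h3⟩ := hpart x hx.1 hx.2.1 hx.2.2 1 ⟨zero_le_one, le_rfl⟩
    rw [one_mul, hlev] at h1 h2
    obtain ⟨hG1, hG2⟩ := abs_lt.1 hx.2.1
    exact uniqH (hmBker (G x) ⟨by linarith, by linarith⟩) h1 h2
  have hidr : ∀ᶠ x in 𝓝 xT, r0 (G x, -(1 / 1000)) =
      r0 (x, 1 / 1000) + fderiv ℝ r0 (x, 1 / 1000) ((-(1 / 500) : ℝ) • (mT x, 1)) := by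
    filter_upwards [hnear] with x hx
    obtain ⟨-, -, h3⟩ := hpart x hx.1 hx.2.1 hx.2.2 1 ⟨zero_le_one, le_rfl⟩
    rw [one_mul, hlev] at h3
    exact h3
  -- monotonicity near xT
  have hmono : ∀ᶠ x in 𝓝 xT, x < xT → G x < xB := by
    filter_upwards [hnear] with x hx hlt
    by_contra hge
    push Not at hge
    have hpos : 0 < (xT - x) + (G x - xB) := by linarith
    set θ0 := (xT - x) / ((xT - x) + (G x - xB)) with hθ0
    have hθ0I : θ0 ∈ Icc (0 : ℝ) 1 :=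
      ⟨div_nonneg (by linarith) hpos.le, (div_le_one hpos).2 (by linarith)⟩
    have hθmul : θ0 * ((xT - x) + (G x - xB)) = xT - x := div_mul_cancel₀ _ hpos.ne'
    have hmeet : x + θ0 * -(1 / 500) * mT x = xT + θ0 * -(1 / 500) * mT xT := by
      have e1 : G x = x + -(1 / 500) * mT x := rfl
      have e2 : xB = xT + -(1 / 500) * mT xT := by rw [hmTx]; exact hxBT
      rw [e1, e2] at hθmul
      linarith
    obtain ⟨h1, h2, -⟩ := hpart x hx.1 hx.2.1 hx.2.2 θ0 hθ0I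
    obtain ⟨h3, -, -⟩ := hpart xT hxT (by rw [hGxT]; exact hxB) hcT θ0 hθ0I
    rw [← hmeet] at h3
    have h4 := uniqH h1 h3 h2
    rw [h4] at hmeet
    linarith
  -- the compact set of stopping points
  have hGcon : ContinuousOn G (Icc (-(23 / 2)) xT) := fun x hx =>
    (hGc x ⟨by linarith [hx.1], by linarith [hx.2]⟩).continuousWithinAt
  have hIc : IsCompact (Icc (-(23 / 2) : ℝ) xT) := isCompact_Icc
  have hK1 : IsCompact {x ∈ Icc (-(23 / 2) : ℝ) xT | x + G x ≤ -10} :=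
    hIc.of_isClosed_subset (isClosed_Icc.isClosed_le (continuousOn_id.add hGcon)
      continuousOn_const) (fun x hx => hx.1)
  have hK2 : IsCompact {x ∈ Icc (-(23 / 2) : ℝ) xT | 12 ≤ G x} :=
    hIc.of_isClosed_subset (isClosed_Icc.isClosed_le continuousOn_const hGcon)
      (fun x hx => hx.1)
  have hK : IsCompact ({x ∈ Icc (-(23 / 2) : ℝ) xT | x + G x ≤ -10} ∪
      {x ∈ Icc (-(23 / 2) : ℝ) xT | 12 ≤ G x} ∪ {(-(23 / 2) : ℝ)}) :=
    (hK1.union hK2).union isCompact_singleton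
  obtain ⟨x1, hx1K, hx1max⟩ := hK.exists_isGreatest ⟨_, Or.inr rfl⟩
  have hx1I : x1 ∈ Icc (-(23 / 2) : ℝ) xT := by
    rcases hx1K with (h | h) | h
    · exact h.1
    · exact h.1
    · rw [mem_singleton_iff] at h
      rw [h]
      exact ⟨le_rfl, by linarith⟩
  have hx1T : x1 < xT := by
    refine lt_of_le_of_ne hx1I.2 fun h => ?_
    rw [h] at hx1K
    rcases hx1K with (h | h) | h
    · have := h.2
      rw [hGxT] at this
      linarith
    · have := h.2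
      rw [hGxT] at this
      linarith
    · rw [mem_singleton_iff] at h
      linarith
  have hafter : ∀ x ∈ Ioc x1 xT, -10 < x + G x ∧ G x < 12 := by
    intro x hx
    have hxI : x ∈ Icc (-(23 / 2) : ℝ) xT := ⟨by linarith [hx1I.1, hx.1], hx.2⟩
    constructor
    · by_contra hle
      push Not at hle
      have := hx1max (Or.inl (Or.inl ⟨hxI, hle⟩))
      linarith [hx.1]
    · by_contra hle
      push Not at hle
      have := hx1max (Or.inl (Or.inr ⟨hxI, hle⟩))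
      linarith [hx.1]
  have hGI : ∀ x ∈ Ioc x1 xT, G x ∈ Ioo (-12 : ℝ) 12 := by
    intro x hx
    obtain ⟨h1, h2⟩ := hafter x hx
    exact ⟨by linarith [hx.2], h2⟩
  have hxI' : ∀ x ∈ Ioc x1 xT, x ∈ Ioo (-12 : ℝ) 12 := fun x hx =>
    ⟨by linarith [hx1I.1, hx.1], by linarith [hx.2]⟩
  have hTIoc : xT ∈ Ioc x1 xT := ⟨hx1T, le_rfl⟩
  -- the kernel identity on the whole interval
  have hidm' : EqOn (fun x => mB (G x)) mT (Ioc x1 xT) :=
    AnalyticOnNhd.eqOn_of_preconnected_of_eventuallyEq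
      (fun x hx => (hmBan (G x) (hGI x hx)).fun_comp (hGan x (hxI' x hx)))
      (fun x hx => hmTan x (hxI' x hx)) isPreconnected_Ioc hTIoc hidm
  have hGne : ∀ x ∈ Ioc x1 xT, x ≠ xT → G x ≠ xB := by
    intro x hx hne heq
    have h1 := hidm' hx
    have h2 := hidm' hTIoc
    simp only at h1 h2
    rw [heq] at h1
    rw [hGxT] at h2
    have h3 : mT x = mT xT := by rw [← h1, ← h2]
    have h4 : G x = x + -(1 / 500) * mT x := rfl
    have h5 : G xT = xT + -(1 / 500) * mT xT := rfl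
    rw [heq, h3] at h4
    rw [hGxT] at h5
    apply hne
    linarith
  have hGlt : ∀ x ∈ Ioo x1 xT, G x < xB := by
    intro x hx
    by_contra hge
    push Not at hge
    have hgt : xB < G x := lt_of_le_of_ne hge (fun h => hGne x ⟨hx.1, hx.2.le⟩ hx.2.ne h.symm)
    have h1 : ∀ᶠ x' in 𝓝[<] xT, G x' < xB ∧ x < x' ∧ x' < xT := by
      filter_upwards [hmono.filter_mono nhdsWithin_le_nhds, self_mem_nhdsWithin,
        nhdsWithin_le_nhds (Ioi_mem_nhds hx.2)] with x' h1 h2 h3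
      exact ⟨h1 h2, h3, h2⟩
    obtain ⟨x', h2, h3, h4⟩ := h1.exists
    have hcon : ContinuousOn G (Icc x x') := fun t ht =>
      (hGc t ⟨by linarith [hx1I.1, hx.1, ht.1], by linarith [ht.2]⟩).continuousWithinAt
    obtain ⟨t, ht, hGt⟩ := intermediate_value_Icc' h3.le hcon ⟨h2.le, hgt.le⟩
    exact hGne t ⟨by linarith [hx.1, ht.1], by linarith [ht.2]⟩ (by linarith [ht.2]) hGt
  have hx1J : x1 ∈ Ioo (-12 : ℝ) 12 := ⟨by linarith [hx1I.1], by linarith⟩
  have hIoo : ∀ᶠ x in 𝓝[>] x1, x ∈ Ioo x1 xT := Ioo_mem_nhdsGT hx1T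
  have hGx1 : G x1 ≤ xB := by
    have h1 : Tendsto G (𝓝[>] x1) (𝓝 (G x1)) := (hGc x1 hx1J).tendsto.mono_left nhdsWithin_le_nhds
    exact le_of_tendsto h1 (by filter_upwards [hIoo] with x hx using (hGlt x hx).le)
  have hsum1 : -10 ≤ x1 + G x1 := by
    have h1 : Tendsto (fun x => x + G x) (𝓝[>] x1) (𝓝 (x1 + G x1)) :=
      (continuousAt_id.add (hGc x1 hx1J)).tendsto.mono_left nhdsWithin_le_nhds
    exact ge_of_tendsto h1
      (by filter_upwards [hIoo] with x hx using (hafter x ⟨hx.1, hx.2.le⟩).1.le)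
  have hsum2 : x1 + G x1 ≤ -10 := by
    rcases hx1K with (h | h) | h
    · exact h.2
    · have := h.2
      linarith
    · rw [mem_singleton_iff] at h
      rw [h] at hGx1 ⊢
      linarith
  have hsum : x1 + G x1 = -10 := le_antisymm hsum2 hsum1
  have hGx1I : G x1 ∈ Ioo (-12 : ℝ) 12 := ⟨by linarith, by linarith⟩
  -- the immersion identity up to x1
  have hIccI : ∀ x ∈ Icc x1 xT, x ∈ Ioo (-12 : ℝ) 12 ∧ G x ∈ Ioo (-12 : ℝ) 12 := by
    intro x hx
    rcases eq_or_lt_of_le hx.1 with h | h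
    · rw [← h]; exact ⟨hx1J, hGx1I⟩
    · exact ⟨hxI' x ⟨h, hx.2⟩, hGI x ⟨h, hx.2⟩⟩
  have han1 : AnalyticOnNhd ℝ (fun x : ℝ => r0 (G x, -(1 / 1000))) (Icc x1 xT) := by
    intro x hx
    obtain ⟨h1, h2⟩ := hIccI x hx
    exact comp_pair (h0.an (G x, -(1 / 1000)) (hreg_bot _ _ _ _ h2.1 h2.2 (by norm_num)))
      (hGan x h1) analyticAt_const
  have han2 : AnalyticOnNhd ℝ (fun x : ℝ => r0 (x, 1 / 1000)
      + fderiv ℝ r0 (x, 1 / 1000) ((-(1 / 500) : ℝ) • (mT x, 1))) (Icc x1 xT) := by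
    intro x hx
    obtain ⟨h1, h2⟩ := hIccI x hx
    have hmem := hreg_top (-1) 1 x (1 / 1000) h1.1 h1.2 (by norm_num)
    have h4 : AnalyticAt ℝ (fun x : ℝ => r0 (x, 1 / 1000)) x :=
      comp_pair (h0.an (x, 1 / 1000) hmem) analyticAt_id analyticAt_const
    have h5 : AnalyticAt ℝ (fun x : ℝ => fderiv ℝ r0 (x, 1 / 1000)) x :=
      comp_pair (h0.an (x, 1 / 1000) hmem).fderiv analyticAt_id analyticAt_const
    have h6 : AnalyticAt ℝ (fun x : ℝ => (-(1 / 500) : ℝ) • ((mT x, 1) : V)) x :=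
      an_smul_pair (hmTan x h1) analyticAt_const
    exact h4.add (an_clm_apply h5 h6)
  have hidr' := AnalyticOnNhd.eqOn_of_preconnected_of_eventuallyEq han1 han2 isPreconnected_Icc
    (right_mem_Icc.2 hx1T.le) hidr (left_mem_Icc.2 hx1T.le)
  simp only at hidr'
  -- the same identity for rL
  have hcongr := D2_congr isOpen_T hT
  have hmemT : ∀ x ∈ Ioo (-12 : ℝ) 12, ((x, 1 / 1000) : V) ∈ T := fun x hx =>
    ⟨hx.1, hx.2, by norm_num, by norm_num⟩
  have hLid : rL (x1 + -(1 / 500) * mT x1, 1 / 1000 + -(1 / 500)) =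
      rL (x1, 1 / 1000) + fderiv ℝ rL (x1, 1 / 1000) ((-(1 / 500) : ℝ) • (mT x1, 1)) := by
    refine hL.transportH (hmTan x1 hx1J).continuousAt ?_ ?_
    · filter_upwards [hmTne x1 hx1J, nhdsWithin_le_nhds (isOpen_Ioo.mem_nhds hx1J)] with t h1 h2
      rw [← (hcongr _ (hmemT t h2)).2]
      exact ⟨hmTker t h2, h1⟩
    · intro θ hθ
      have hG1 : G x1 = x1 + -(1 / 500) * mT x1 := rfl
      have e : x1 + θ * -(1 / 500) * mT x1 = (1 - θ) * x1 + θ * G x1 := by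
        rw [hG1]; ring
      rw [e]
      refine ⟨conv_lt hx1J.1 hGx1I.1 hθ, conv_gt hx1J.2 hGx1I.2 hθ, ?_, ?_, ?_⟩
      · simp only; linarith [hθ.2]
      · simp only; linarith [hθ.1]
      · by_cases hθ1 : θ < 1 / 2
        · left; simp only; linarith
        · push Not at hθ1
          by_cases hθ2 : 5 / 8 < θ
          · right; left; simp only; linarith
          · push Not at hθ2
            right; right
            have hG2 : G x1 = -10 - x1 := by linarith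
            rw [hG2]
            simp only
            have hx1a : x1 < 1 := by linarith
            have hx1b : -11 < x1 := by linarith
            constructor <;> nlinarith
  rw [hlev] at hLid
  have hG1 : G x1 = x1 + -(1 / 500) * mT x1 := rfl
  rw [← hG1, ← hT (hmemT x1 hx1J), ← (hcongr _ (hmemT x1 hx1J)).1, ← hidr'] at hLid
  exact hB (G x1, -(1 / 1000)) ⟨hGx1I.1, hGx1I.2, by norm_num, by norm_num⟩ hLid.symm

end Pool.Agent.Helper962.Flat
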