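import Mathlib
import Pool.Agent.Helper962.F5

set_option autoImplicit false

namespace Pool.Agent.Helper962.Flat

open Set Filter Topology
open scoped RealInnerProductSpace

lemma T_chord {r : V → E3} {a b : ℝ} (h : Iso r (S a b)) {x0 y m : ℝ} (hx0 : |x0| ≤ 1 / 10)
    (hy : 0 < y) (hy1 : y < 1) (hF0 : 0 < y + (3 - x0) * m) (hF1 : y + (3 - x0) * m < 1)
    (hk : D2 r (x0, y) (1, m) = 0) (hc : D2 r (x0, y) ≠ 0) {θ0 : ℝ} (hθ0 : θ0 ∈ Icc (0 : ℝ) 1) :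
    D2 r (x0 + θ0 * (3 - x0), y + θ0 * (3 - x0) * m) (1, m) = 0 ∧
    D2 r (x0 + θ0 * (3 - x0), y + θ0 * (3 - x0) * m) ≠ 0 ∧
    r (x0 + θ0 * (3 - x0), y + θ0 * (3 - x0) * m)
      = r (x0, y) + fderiv ℝ r (x0, y) ((θ0 * (3 - x0)) • (1, m)) ∧
    ((x0 + θ0 * (3 - x0), y + θ0 * (3 - x0) * m) : V) ∈ T := by
  obtain ⟨h1, h2⟩ := abs_le.1 hx0
  have hT : ∀ θ ∈ Icc (0 : ℝ) 1, ((x0 + θ * (3 - x0), y + θ * (3 - x0) * m) : V) ∈ T := by
    intro θ hθ
    have e1 : x0 + θ * (3 - x0) = (1 - θ) * x0 + θ * 3 := by ring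
    have e2 : y + θ * (3 - x0) * m = (1 - θ) * y + θ * (y + (3 - x0) * m) := by ring
    rw [e1, e2]
    exact ⟨conv_lt (by linarith) (by norm_num) hθ, conv_gt (by linarith) (by norm_num) hθ,
      conv_lt hy hF0 hθ, conv_gt hy1 hF1 hθ⟩
  obtain ⟨h3, h4, h5⟩ := h.chordV hk hc (θ0 * (3 - x0)) (fun θ hθ => by
    have := hT (θ * θ0) ⟨mul_nonneg hθ.1 hθ0.1, mul_le_one₀ hθ.2 hθ0.1 hθ0.2⟩
    rw [← mul_assoc θ θ0 (3 - x0)]
    exact T_sub a b this)
  exact ⟨h3, h4, h5, hT θ0 hθ0⟩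

lemma memR {x y : ℝ} (hx1 : 2 < x) (hx2 : x < 12) (hy1 : -1 < y) (hy2 : y < 1) :
    ((x, y) : V) ∈ S 2 12 :=
  ⟨by simp only; linarith, hx2, hy1, hy2, Or.inr (Or.inr ⟨hx1, hx2⟩)⟩

/-- bound for the kernel slopes on the vertical line `x = 3` in the right neck -/
lemma vert_bound {r : V → E3} (h : Iso r (S 2 12)) {y' m0 : ℝ} (hy1 : 0 ≤ y') (hy2 : y' ≤ 9 / 20)
    (hm0 : |m0| ≤ 1 / 5) (hc' : D2 r (3, y') ≠ 0) (hk' : D2 r (3, y') (1, m0) = 0) {y : ℝ}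
    (hyl : -1 < y) (hyr : y < 1) (hcy : D2 r (3, y) ≠ 0) :
    ∃ m : ℝ, |m| ≤ 5 ∧ D2 r (3, y) (1, m) = 0 := by
  obtain ⟨hm1, hm2⟩ := abs_le.1 hm0
  obtain ⟨k, hk0, hk⟩ := h.exists_ker (memR (x := 3) (by norm_num) (by norm_num) hyl hyr)
  by_cases hk1 : k.1 = 0
  · exfalso
    have hk2 : k.2 ≠ 0 := fun h1 => hk0 (Prod.ext hk1 h1)
    have e : k = k.2 • ((0, 1) : V) := by ext <;> simp [hk1]
    have he : D2 r (3, y) (0, 1) = 0 := D2_of_smul hk2 (by rw [← e]; exact hk)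
    have e2 : ((3, y) : V) + (y' - y) • ((0, 1) : V) = (3, y') := by ext <;> simp
    have := (h.chord_dir he hcy (y' - y) (fun θ hθ => by
      have e3 : ((3, y) : V) + θ • ((y' - y) • ((0, 1) : V)) = (3, (1 - θ) * y + θ * y') := by
        ext
        · simp
        · simp; ring
      rw [e3]
      exact memR (by norm_num) (by norm_num) (conv_lt hyl (by linarith) hθ)
        (conv_gt hyr (by linarith) hθ))).1
    rw [e2] at this
    exact hc' (D2_zero_of_two (k := (1, m0)) (u := (0, 1)) (by norm_num) hk' this)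
  · have e : k = k.1 • ((1, k.2 / k.1) : V) := by
      ext
      · simp
      · simp only [Prod.smul_snd, smul_eq_mul]
        field_simp
    have hm : D2 r (3, y) (1, k.2 / k.1) = 0 := D2_of_smul hk1 (by rw [← e]; exact hk)
    generalize k.2 / k.1 = m at hm
    refine ⟨m, ?_, hm⟩
    by_contra hbig
    push Not at hbig
    have hmμ : 48 / 10 < |m - m0| := by
      have := abs_sub_abs_le_abs_sub m m0
      linarith
    have hmμ0 : m - m0 ≠ 0 := by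
      intro h0
      rw [h0, abs_zero] at hmμ
      linarith
    set τ := (y' - y) / (m - m0) with hτ
    have hτm : τ * (m - m0) = y' - y := div_mul_cancel₀ _ hmμ0
    have hτabs : |τ| ≤ 1 / 2 := by
      have h1 : |τ| * |m - m0| = |y' - y| := by rw [← abs_mul, hτm]
      have h2 : |y' - y| < 2 := by rw [abs_lt]; constructor <;> linarith
      by_contra h3
      push Not at h3
      nlinarith [abs_nonneg τ]
    obtain ⟨hτ1, hτ2⟩ := abs_le.1 hτabs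
    have hτμ : |τ * m0| ≤ 1 / 10 := by
      rw [abs_mul]
      have := mul_le_mul hτabs hm0 (abs_nonneg _) (by norm_num)
      linarith
    obtain ⟨hτμ1, hτμ2⟩ := abs_le.1 hτμ
    have hmeet : y + τ * m = y' + τ * m0 := by linarith
    have hx : ∀ θ ∈ Icc (0 : ℝ) 1, 2 < 3 + θ * τ ∧ 3 + θ * τ < 12 := by
      intro θ hθ
      constructor <;> nlinarith [hθ.1, hθ.2]
    have h1 := h.chordV hm hcy τ (fun θ hθ => by
      have e3 : y + θ * τ * m = (1 - θ) * y + θ * (y' + τ * m0) := by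
        rw [← hmeet]; ring
      rw [e3]
      exact memR (hx θ hθ).1 (hx θ hθ).2 (conv_lt hyl (by linarith) hθ)
        (conv_gt hyr (by linarith) hθ))
    have h2 := h.chordV hk' hc' τ (fun θ hθ => by
      have e3 : y' + θ * τ * m0 = (1 - θ) * y' + θ * (y' + τ * m0) := by ring
      rw [e3]
      exact memR (hx θ hθ).1 (hx θ hθ).2 (conv_lt (by linarith) (by linarith) hθ)
        (conv_gt (by linarith) (by linarith) hθ))
    rw [hmeet] at h1
    exact hmμ0 (sub_eq_zero.2 (uniqV h1.1 h2.1 h1.2.1))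

lemma memN' {x y : ℝ} (hx : |x| ≤ 1 / 10) (hy1 : -1 < y) (hy2 : y < 1) :
    ((x, y) : V) ∈ S (-1) 1 := by
  obtain ⟨h1, h2⟩ := abs_le.1 hx
  exact ⟨by simp only; linarith, by simp only; linarith, hy1, hy2,
    Or.inr (Or.inr ⟨by simp only; linarith, by simp only; linarith⟩)⟩

/-- the main step: no kernel line of nonnegative slope in the top strip over the middle neck -/
theorem step3 {r0 rR : V → E3} (h0 : Iso r0 (S (-1) 1)) (hR : Iso rR (S 2 12))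
    (hT : EqOn r0 rR T) (hB : ∀ z ∈ B, r0 z ≠ rR z)
    (hst : ∀ x0 y0 μ : ℝ, |x0| ≤ 1 / 10 → |y0| < 1 → D2 r0 (x0, y0) ≠ 0 →
      D2 r0 (x0, y0) (μ, 1) = 0 → 9 / 10 ≤ |μ| * (|y0| + 1 / 1000))
    {x0 c0 m0 : ℝ} (hx0 : |x0| ≤ 1 / 10) (hc01 : 1 / 20 < c0) (hc02 : c0 < 1 / 10)
    (hc : D2 r0 (x0, c0) ≠ 0) (hk : D2 r0 (x0, c0) (1, m0) = 0) (hm0 : 0 ≤ m0) : False := by
  obtain ⟨hx01, hx02⟩ := abs_le.1 hx0
  have hcongr := D2_congr isOpen_T hT
  -- slopes on the vertical line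
  have hsl : ∀ y ∈ Ioo (-1 : ℝ) 1, D2 r0 (x0, y) ≠ 0 →
      ∃ m : ℝ, |m| ≤ 10 / 9 * (|y| + 1 / 1000) ∧ D2 r0 (x0, y) (1, m) = 0 := by
    intro y hy hcy
    obtain ⟨k, hk0, hk⟩ := h0.exists_ker (memN' hx0 hy.1 hy.2)
    have hyabs : |y| < 1 := abs_lt.2 hy
    by_cases hk1 : k.1 = 0
    · exfalso
      have hk2 : k.2 ≠ 0 := fun h1 => hk0 (Prod.ext hk1 h1)
      have e : k = k.2 • ((0, 1) : V) := by ext <;> simp [hk1]
      have he : D2 r0 (x0, y) (0, 1) = 0 := D2_of_smul hk2 (by rw [← e]; exact hk)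
      have := hst x0 y 0 hx0 hyabs hcy he
      rw [abs_zero, zero_mul] at this
      linarith
    · have e : k = k.1 • ((1, k.2 / k.1) : V) := by
        ext
        · simp
        · simp only [Prod.smul_snd, smul_eq_mul]
          field_simp
      have hm : D2 r0 (x0, y) (1, k.2 / k.1) = 0 := D2_of_smul hk1 (by rw [← e]; exact hk)
      generalize k.2 / k.1 = m at hm
      refine ⟨m, ?_, hm⟩
      by_cases hmz : m = 0
      · rw [hmz, abs_zero]; positivity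
      · have e2 : ((1, m) : V) = m • ((m⁻¹, 1) : V) := by
          ext
          · simp only [Prod.smul_fst, smul_eq_mul]
            field_simp
          · simp
        rw [e2] at hm
        have h1 := hst x0 y m⁻¹ hx0 hyabs hcy (D2_of_smul hmz hm)
        have h2 : 0 < |m| := abs_pos.2 hmz
        rw [abs_inv, inv_mul_eq_div, le_div_iff₀ h2] at h1
        linarith
  obtain ⟨M, hMan, hMker, hMne, -⟩ := h0.slopeV (c := x0) (a := -1) (b := 1) (C := 2)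
    (fun s hs => memN' hx0 hs.1 hs.2)
    (fun s hs hcs => by
      obtain ⟨m, h1, h2⟩ := hsl s hs hcs
      have : |s| < 1 := abs_lt.2 hs
      exact ⟨m, by linarith, h2⟩)
    (s0 := c0) ⟨by linarith, by linarith⟩ hc
  have hMb : ∀ y ∈ Ioo (-1 : ℝ) 1, |M y| ≤ 10 / 9 * (|y| + 1 / 1000) := by
    intro y hy
    have h1 : Tendsto (fun t => |M t|) (𝓝[≠] y) (𝓝 |M y|) :=
      (hMan y hy).continuousAt.abs.tendsto.mono_left nhdsWithin_le_nhds
    have h2 : Tendsto (fun t : ℝ => 10 / 9 * (|t| + 1 / 1000)) (𝓝[≠] y)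
        (𝓝 (10 / 9 * (|y| + 1 / 1000))) := by
      have : ContinuousAt (fun t : ℝ => 10 / 9 * (|t| + 1 / 1000)) y := by fun_prop
      exact this.tendsto.mono_left nhdsWithin_le_nhds
    refine le_of_tendsto_of_tendsto h1 h2 ?_
    filter_upwards [hMne y hy, nhdsWithin_le_nhds (isOpen_Ioo.mem_nhds hy)] with t h3 h4
    obtain ⟨m, h5, h6⟩ := hsl t h4 h3
    rw [uniqV (hMker t h4) h6 h3]
    exact h5
  have hc0I : c0 ∈ Ioo (-1 : ℝ) 1 := ⟨by linarith, by linarith⟩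
  have hMc0 : M c0 = m0 := uniqV (hMker c0 hc0I) hk hc
  have hm0b : m0 ≤ 10 / 9 * (1 / 10 + 1 / 1000) := by
    have h1 := hMb c0 hc0I
    rw [hMc0, abs_of_nonneg hm0, abs_of_pos (by linarith : (0 : ℝ) < c0)] at h1
    linarith
  -- heights at x = 3 and x = 5/2
  set F : ℝ → ℝ := fun y => y + (3 - x0) * M y with hF
  set H : ℝ → ℝ := fun y => y + (5 / 2 - x0) * M y with hH
  have hJ : ∀ y ∈ Ioo (-(1 / 5) : ℝ) (1 / 5), y ∈ Ioo (-1 : ℝ) 1 := fun y hy =>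
    ⟨by linarith [hy.1], by linarith [hy.2]⟩
  have hMJ : ∀ y ∈ Ioo (-(1 / 5) : ℝ) (1 / 5), |M y| ≤ 10 / 9 * (1 / 5 + 1 / 1000) := by
    intro y hy
    have h1 := hMb y (hJ y hy)
    have h2 : |y| < 1 / 5 := abs_lt.2 hy
    linarith
  have hFJ : ∀ y ∈ Ioo (-(1 / 5) : ℝ) (1 / 5), F y ∈ Ioo (-1 : ℝ) 1 := by
    intro y hy
    obtain ⟨h1, h2⟩ := abs_le.1 (hMJ y hy)
    obtain ⟨h3, h4⟩ := hy
    constructor
    · show -1 < y + (3 - x0) * M y
      nlinarith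
    · show y + (3 - x0) * M y < 1
      nlinarith
  have hHJ : ∀ y ∈ Ioo (-(1 / 5) : ℝ) (1 / 5), H y ∈ Ioo (-1 : ℝ) 1 := by
    intro y hy
    obtain ⟨h1, h2⟩ := abs_le.1 (hMJ y hy)
    obtain ⟨h3, h4⟩ := hy
    constructor
    · show -1 < y + (5 / 2 - x0) * M y
      nlinarith
    · show y + (5 / 2 - x0) * M y < 1
      nlinarith
  have hFan : AnalyticOnNhd ℝ F (Ioo (-(1 / 5)) (1 / 5)) := fun y hy =>
    analyticAt_id.add (analyticAt_const.mul (hMan y (hJ y hy)))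
  have hHan : AnalyticOnNhd ℝ H (Ioo (-(1 / 5)) (1 / 5)) := fun y hy =>
    analyticAt_id.add (analyticAt_const.mul (hMan y (hJ y hy)))
  have hc0J : c0 ∈ Ioo (-(1 / 5) : ℝ) (1 / 5) := ⟨by linarith, by linarith⟩
  have hFc0 : F c0 = c0 + (3 - x0) * m0 := by rw [hF]; simp only [hMc0]
  have hFc1 : c0 ≤ F c0 := by
    rw [hFc0]
    nlinarith
  have hFc2 : F c0 ≤ 9 / 20 := by
    rw [hFc0]
    nlinarith
  -- near c0
  have hcurv : ∀ᶠ y in 𝓝 c0, D2 r0 (x0, y) ≠ 0 := by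
    have h1 : ContinuousAt (fun y : ℝ => D2 r0 (x0, y)) c0 := by
      have h2 := (h0.D2_an (x0, c0) (memN' hx0 hc0I.1 hc0I.2)).continuousAt
      exact ContinuousAt.comp (f := fun y : ℝ => ((x0, y) : V)) h2 (by fun_prop)
    exact h1.eventually_ne hc
  have hnear : ∀ᶠ y in 𝓝 c0, (0 < y ∧ y < 1 / 5) ∧ (0 < F y ∧ F y < 1) ∧ D2 r0 (x0, y) ≠ 0 := by
    have h1 : ∀ᶠ y in 𝓝 c0, y ∈ Ioo (0 : ℝ) (1 / 5) :=
      isOpen_Ioo.mem_nhds ⟨by linarith, by linarith⟩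
    have h2 : ∀ᶠ y in 𝓝 c0, F y ∈ Ioo (0 : ℝ) 1 :=
      (hFan c0 hc0J).continuousAt.eventually_mem
        (isOpen_Ioo.mem_nhds ⟨by linarith, by linarith⟩)
    filter_upwards [h1, h2, hcurv] with y h1 h2 h3 using ⟨h1, h2, h3⟩
  have hTmem : ∀ y : ℝ, 0 < y → y < 1 → ((x0, y) : V) ∈ T := fun y h1 h2 =>
    ⟨by simp only; linarith, by simp only; linarith, h1, h2⟩
  have hpart0 : ∀ y : ℝ, 0 < y → y < 1 / 5 → 0 < F y → F y < 1 → D2 r0 (x0, y) ≠ 0 →
      ∀ θ0 ∈ Icc (0 : ℝ) 1,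
      D2 r0 (x0 + θ0 * (3 - x0), y + θ0 * (3 - x0) * M y) (1, M y) = 0 ∧
      D2 r0 (x0 + θ0 * (3 - x0), y + θ0 * (3 - x0) * M y) ≠ 0 ∧
      r0 (x0 + θ0 * (3 - x0), y + θ0 * (3 - x0) * M y)
        = r0 (x0, y) + fderiv ℝ r0 (x0, y) ((θ0 * (3 - x0)) • (1, M y)) ∧
      ((x0 + θ0 * (3 - x0), y + θ0 * (3 - x0) * M y) : V) ∈ T := by
    intro y h1 h2 h3 h4 h5 θ0 hθ0
    exact T_chord h0 hx0 h1 (by linarith) h3 h4 (hMker y ⟨by linarith, by linarith⟩) h5 hθ0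
  have hpartR : ∀ y : ℝ, 0 < y → y < 1 / 5 → 0 < F y → F y < 1 → D2 r0 (x0, y) ≠ 0 →
      D2 rR (3, F y) (1, M y) = 0 ∧ D2 rR (3, F y) ≠ 0 := by
    intro y h1 h2 h3 h4 h5
    have e := (hcongr _ (hTmem y h1 (by linarith))).2
    have h6 := hMker y ⟨by linarith, by linarith⟩
    rw [e] at h5 h6
    obtain ⟨h7, h8, -, -⟩ := T_chord hR hx0 h1 (by linarith) h3 h4 h6 h5
      (θ0 := 1) ⟨zero_le_one, le_rfl⟩
    have e2 : x0 + 1 * (3 - x0) = 3 := by ring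
    have e3 : y + 1 * (3 - x0) * M y = F y := by rw [hF]; ring
    rw [e2, e3] at h7 h8
    exact ⟨h7, h8⟩
  have hF3 := hpartR c0 (by linarith) (by linarith) (by linarith) (by linarith) hc
  rw [hMc0] at hF3
  obtain ⟨MR, hMRan, hMRker, -, -⟩ := hR.slopeV (c := 3) (a := -1) (b := 1) (C := 5)
    (fun s hs => memR (by norm_num) (by norm_num) hs.1 hs.2)
    (fun s hs hcs => vert_bound hR (y' := F c0) (m0 := m0) (by linarith) (by linarith)
      (by rw [abs_of_nonneg hm0]; linarith) hF3.2 hF3.1 hs.1 hs.2 hcs)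
    (s0 := F c0) ⟨by linarith, by linarith⟩ hF3.2
  have hidm : ∀ᶠ y in 𝓝 c0, MR (F y) = M y := by
    filter_upwards [hnear] with y hy
    obtain ⟨⟨h1, h2⟩, ⟨h3, h4⟩, h5⟩ := hy
    obtain ⟨h6, h7⟩ := hpartR y h1 h2 h3 h4 h5
    exact uniqV (hMRker (F y) ⟨by linarith, h4⟩) h6 h7
  have hidm' : EqOn (fun y => MR (F y)) M (Ioo (-(1 / 5)) (1 / 5)) :=
    AnalyticOnNhd.eqOn_of_preconnected_of_eventuallyEq
      (fun y hy => (hMRan (F y) (hFJ y hy)).fun_comp (hFan y hy))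
      (fun y hy => hMan y (hJ y hy)) isPreconnected_Ioo hc0J hidm
  have hinj : InjOn F (Ioo (-(1 / 5)) (1 / 5)) := by
    intro y1 h1 y2 h2 heq
    have e1 := hidm' h1
    have e2 := hidm' h2
    simp only at e1 e2
    rw [heq, e2] at e1
    have e3 : F y1 = y1 + (3 - x0) * M y1 := rfl
    have e4 : F y2 = y2 + (3 - x0) * M y2 := rfl
    rw [heq, e4, e1] at e3
    linarith
  have hmono : ∀ᶠ y in 𝓝 c0, y < c0 → F y < F c0 := by
    filter_upwards [hnear] with y hy hlt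
    obtain ⟨⟨h1, h2⟩, ⟨h3, h4⟩, h5⟩ := hy
    by_contra hge
    push Not at hge
    have hpos : 0 < (c0 - y) + (F y - F c0) := by linarith
    set θ0 := (c0 - y) / ((c0 - y) + (F y - F c0)) with hθ0
    have hθ0I : θ0 ∈ Icc (0 : ℝ) 1 :=
      ⟨div_nonneg (by linarith) hpos.le, (div_le_one hpos).2 (by linarith)⟩
    have hθmul : θ0 * ((c0 - y) + (F y - F c0)) = c0 - y := div_mul_cancel₀ _ hpos.ne'
    have hmeet : y + θ0 * (3 - x0) * M y = c0 + θ0 * (3 - x0) * M c0 := by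
      have e1 : F y = y + (3 - x0) * M y := rfl
      have e2 : F c0 = c0 + (3 - x0) * M c0 := rfl
      rw [e1, e2] at hθmul
      linarith
    obtain ⟨h6, h7, -, -⟩ := hpart0 y h1 h2 h3 h4 h5 θ0 hθ0I
    obtain ⟨h8, -, -, -⟩ := hpart0 c0 (by linarith) (by linarith) (by linarith) (by linarith)
      hc θ0 hθ0I
    rw [← hmeet] at h8
    have h9 := uniqV h6 h8 h7
    rw [h9] at hmeet
    linarith
  have hFcon : ContinuousOn F (Icc (-c0) c0) := fun y hy =>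
    (hFan y ⟨by linarith [hy.1], by linarith [hy.2]⟩).continuousAt.continuousWithinAt
  have hinj' : InjOn F (Icc (-c0) c0) :=
    hinj.mono (Icc_subset_Ioo (by linarith) (by linarith))
  have hsm : StrictMonoOn F (Icc (-c0) c0) := by
    rcases hFcon.strictMonoOn_of_injOn_Icc' (by linarith) hinj' with h | h
    · exact h
    · exfalso
      have h1 : ∀ᶠ y in 𝓝[<] c0, F y < F c0 ∧ 0 < y ∧ y < c0 := by
        filter_upwards [hmono.filter_mono nhdsWithin_le_nhds, self_mem_nhdsWithin,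
          nhdsWithin_le_nhds (Ioi_mem_nhds (by linarith : (0 : ℝ) < c0))] with y h1 h2 h3
        exact ⟨h1 h2, h3, h2⟩
      obtain ⟨y, h2, h3, h4⟩ := h1.exists
      have h5 : F c0 < F y := h (show y ∈ Icc (-c0) c0 from ⟨by linarith, h4.le⟩)
        (show c0 ∈ Icc (-c0) c0 from ⟨by linarith, le_rfl⟩) h4
      linarith
  have hneg : F (-c0) < F 0 :=
    hsm (show -c0 ∈ Icc (-c0) c0 from ⟨le_rfl, by linarith⟩)
      (show (0 : ℝ) ∈ Icc (-c0) c0 from ⟨by linarith, by linarith⟩) (by linarith)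
  have hM0 := hMb 0 ⟨by norm_num, by norm_num⟩
  rw [abs_zero] at hM0
  obtain ⟨hM01, hM02⟩ := abs_le.1 hM0
  have hmc : -c0 ∈ Ioo (-(1 / 5) : ℝ) (1 / 5) := ⟨by linarith, by linarith⟩
  have hF0 : F 0 ≤ 35 / 10000 := by
    show 0 + (3 - x0) * M 0 ≤ 35 / 10000
    nlinarith
  have hFm : F (-c0) = -c0 + (3 - x0) * M (-c0) := rfl
  have hHm : H (-c0) = -c0 + (5 / 2 - x0) * M (-c0) := rfl
  have hHlow : H (-c0) < -(1 / 4000) := by
    rw [hHm]
    rw [hFm] at hneg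
    rcases le_or_gt (M (-c0)) 0 with h1 | h1
    · nlinarith
    · have h2 : (5 / 2 - x0) * M (-c0) ≤ 26 / 31 * ((3 - x0) * M (-c0)) := by nlinarith
      linarith
  have hHgt := (hHJ (-c0) hmc).1
  -- chord of r0 in the bottom strip
  have hchord : r0 (x0 + (5 / 2 - x0), -c0 + (5 / 2 - x0) * M (-c0)) =
      r0 (x0, -c0) + fderiv ℝ r0 (x0, -c0) ((5 / 2 - x0) • (1, M (-c0))) := by
    refine h0.transportV (hMan (-c0) (hJ _ hmc)).continuousAt ?_ ?_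
    · filter_upwards [hMne (-c0) (hJ _ hmc),
        nhdsWithin_le_nhds (isOpen_Ioo.mem_nhds (hJ _ hmc))] with t h1 h2
      exact ⟨hMker t h2, h1⟩
    · intro θ hθ
      have e1 : x0 + θ * (5 / 2 - x0) = (1 - θ) * x0 + θ * (5 / 2) := by ring
      have e2 : -c0 + θ * (5 / 2 - x0) * M (-c0) = (1 - θ) * (-c0) + θ * H (-c0) := by
        rw [hHm]; ring
      rw [e1, e2]
      exact B_sub _ _ ⟨conv_lt (by linarith) (by norm_num) hθ,
        conv_gt (by linarith) (by norm_num) hθ, conv_lt (by linarith) hHgt hθ,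
        conv_gt (by linarith) hHlow hθ⟩
  -- the identity at x = 5/2
  have hid : ∀ᶠ y in 𝓝 c0, rR (5 / 2, H y) =
      r0 (x0, y) + fderiv ℝ r0 (x0, y) ((5 / 2 - x0) • (1, M y)) := by
    filter_upwards [hnear] with y hy
    obtain ⟨⟨h1, h2⟩, ⟨h3, h4⟩, h5⟩ := hy
    have hpos : 0 < 3 - x0 := by linarith
    obtain ⟨-, -, h6, h7⟩ := hpart0 y h1 h2 h3 h4 h5 ((5 / 2 - x0) / (3 - x0))
      ⟨div_nonneg (by linarith) hpos.le, (div_le_one hpos).2 (by linarith)⟩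
    rw [div_mul_cancel₀ _ hpos.ne', add_sub_cancel] at h6 h7
    have e : y + (5 / 2 - x0) * M y = H y := rfl
    rw [e] at h6 h7
    rw [← hT h7, h6]
  have han1 : AnalyticOnNhd ℝ (fun y : ℝ => rR (5 / 2, H y)) (Ioo (-(1 / 5)) (1 / 5)) :=
    fun y hy => comp_pair (hR.an (5 / 2, H y) (memR (by norm_num) (by norm_num)
      (hHJ y hy).1 (hHJ y hy).2)) analyticAt_const (hHan y hy)
  have han2 : AnalyticOnNhd ℝ (fun y : ℝ => r0 (x0, y)
      + fderiv ℝ r0 (x0, y) ((5 / 2 - x0) • (1, M y))) (Ioo (-(1 / 5)) (1 / 5)) := by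
    intro y hy
    have hmem := memN' hx0 (hJ y hy).1 (hJ y hy).2
    have h4 : AnalyticAt ℝ (fun y : ℝ => r0 (x0, y)) y :=
      comp_pair (h0.an (x0, y) hmem) analyticAt_const analyticAt_id
    have h5 : AnalyticAt ℝ (fun y : ℝ => fderiv ℝ r0 (x0, y)) y :=
      comp_pair (h0.an (x0, y) hmem).fderiv analyticAt_const analyticAt_id
    have h6 : AnalyticAt ℝ (fun y : ℝ => (5 / 2 - x0) • ((1, M y) : V)) y :=
      an_smul_pair analyticAt_const (hMan y (hJ y hy))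
    exact h4.add (an_clm_apply h5 h6)
  have hid' := AnalyticOnNhd.eqOn_of_preconnected_of_eventuallyEq han1 han2 isPreconnected_Ioo
    hc0J hid hmc
  simp only at hid'
  rw [← hchord, add_sub_cancel, ← hHm] at hid'
  exact hB (5 / 2, H (-c0)) ⟨by norm_num, by norm_num, hHgt, hHlow⟩ hid'.symm

end Pool.Agent.Helper962.Flat
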