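import Mathlib
import Pool.Agent.Helper962.F6
import Pool.Agent.Helper962.F7

set_option autoImplicit false

namespace Pool.Agent.Helper962.Flat

open Set Filter Topology
open scoped RealInnerProductSpace

lemma S_preconnected {a b : ℝ} (ha : -12 ≤ a) (hab : a < b) (hb : b ≤ 12) :
    IsPreconnected (S a b) := by
  have hT : IsPreconnected (Ioo (-12 : ℝ) 12 ×ˢ Ioo (0 : ℝ) 1) :=
    isPreconnected_Ioo.prod isPreconnected_Ioo
  have hN : IsPreconnected (Ioo a b ×ˢ Ioo (-1 : ℝ) 1) :=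
    isPreconnected_Ioo.prod isPreconnected_Ioo
  have hB : IsPreconnected (Ioo (-12 : ℝ) 12 ×ˢ Ioo (-1 : ℝ) (-(1 / 4000))) :=
    isPreconnected_Ioo.prod isPreconnected_Ioo
  have e : S a b = (Ioo (-12 : ℝ) 12 ×ˢ Ioo (0 : ℝ) 1) ∪ (Ioo a b ×ˢ Ioo (-1 : ℝ) 1)
      ∪ (Ioo (-12 : ℝ) 12 ×ˢ Ioo (-1 : ℝ) (-(1 / 4000))) := by
    ext z
    simp only [S, mem_ofPred_eq, mem_union, mem_prod, mem_Ioo]
    constructor
    · rintro ⟨h1, h2, h3, h4, h5 | h5 | h5⟩
      · exact Or.inl (Or.inl ⟨⟨h1, h2⟩, h5, h4⟩)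
      · exact Or.inr ⟨⟨h1, h2⟩, h3, h5⟩
      · exact Or.inl (Or.inr ⟨h5, h3, h4⟩)
    · rintro ((⟨⟨h1, h2⟩, h3, h4⟩ | ⟨⟨h1, h2⟩, h3, h4⟩) | ⟨⟨h1, h2⟩, h3, h4⟩)
      · exact ⟨h1, h2, by linarith, h4, Or.inl h3⟩
      · exact ⟨by linarith, by linarith, h3, h4, Or.inr (Or.inr ⟨h1, h2⟩)⟩
      · exact ⟨h1, h2, h3, by linarith, Or.inr (Or.inl h4)⟩
  rw [e]
  refine IsPreconnected.union ((a + b) / 2, -(1 / 2)) ?_ ?_
    (IsPreconnected.union ((a + b) / 2, 1 / 2) ?_ ?_ hT hN) hB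
  · right
    exact ⟨⟨by simp only; linarith, by simp only; linarith⟩, by norm_num, by norm_num⟩
  · exact ⟨⟨by simp only; linarith, by simp only; linarith⟩, by norm_num, by norm_num⟩
  · exact ⟨⟨by simp only; linarith, by simp only; linarith⟩, by norm_num, by norm_num⟩
  · exact ⟨⟨by simp only; linarith, by simp only; linarith⟩, by norm_num, by norm_num⟩

/-- reflection in the second axis -/
def refl : V →L[ℝ] V :=
  (-(ContinuousLinearMap.fst ℝ ℝ ℝ)).prod (ContinuousLinearMap.snd ℝ ℝ ℝ)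

lemma refl_apply (x y : ℝ) : refl (x, y) = (-x, y) := rfl

lemma refl_refl (z : V) : refl (refl z) = z := by
  ext
  · show -(-z.1) = z.1
    ring
  · rfl

lemma fderiv_refl {r : V → E3} {z : V} (h : AnalyticAt ℝ r (refl z)) (v : V) :
    fderiv ℝ (fun q => r (refl q)) z v = fderiv ℝ r (refl z) (refl v) := by
  have h1 : HasFDerivAt (fun q : V => refl q) refl z := refl.hasFDerivAt
  have h2 := h.differentiableAt.hasFDerivAt.comp z h1
  exact congrArg (fun L : V →L[ℝ] E3 => L v) h2.fderiv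

lemma Iso.reflect {r : V → E3} {a b : ℝ} (h : Iso r (S a b)) :
    Iso (fun q => r (refl q)) (S (-b) (-a)) := by
  have hmem : ∀ z : V, z ∈ S (-b) (-a) → refl z ∈ S a b := by
    rintro z ⟨h1, h2, h3, h4, h5⟩
    refine ⟨?_, ?_, h3, h4, ?_⟩
    · show -12 < -z.1
      linarith
    · show -z.1 < 12
      linarith
    · rcases h5 with h5 | h5 | h5
      · exact Or.inl h5
      · exact Or.inr (Or.inl h5)
      · refine Or.inr (Or.inr ⟨?_, ?_⟩)
        · show a < -z.1
          linarith [h5.2]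
        · show -z.1 < b
          linarith [h5.1]
  have hmem' : ∀ z : V, refl z ∈ S a b → z ∈ S (-b) (-a) := by
    rintro z ⟨h1, h2, h3, h4, h5⟩
    have e1 : (refl z).1 = -z.1 := rfl
    have e2 : (refl z).2 = z.2 := rfl
    rw [e1] at h1 h2 h5
    rw [e2] at h3 h4 h5
    refine ⟨by linarith, by linarith, h3, h4, ?_⟩
    rcases h5 with h5 | h5 | h5
    · exact Or.inl h5
    · exact Or.inr (Or.inl h5)
    · exact Or.inr (Or.inr ⟨by linarith [h5.2], by linarith [h5.1]⟩)
  refine ⟨?_, ?_, ?_⟩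
  · have : S (-b) (-a) = refl ⁻¹' (S a b) := by
      ext z
      exact ⟨hmem z, hmem' z⟩
    rw [this]
    exact h.op.preimage refl.continuous
  · intro z hz
    exact AnalyticAt.comp (g := r) (f := fun q : V => refl q) (h.an _ (hmem z hz))
      (refl.analyticAt z)
  · intro z hz u v
    have h1 := h.iso (refl z) (hmem z hz) (refl u) (refl v)
    unfold dir at h1 ⊢
    rw [fderiv_refl (h.an _ (hmem z hz)), fderiv_refl (h.an _ (hmem z hz)), h1]
    unfold dot
    show -u.1 * -v.1 + u.2 * v.2 = _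
    ring

lemma D2_refl {r : V → E3} {z : V} (h : AnalyticAt ℝ r (refl z)) (u v : V) :
    D2 (fun q => r (refl q)) z u v = D2 r (refl z) (refl u) (refl v) := by
  have hc : ContinuousAt (fun q : V => refl q) z := refl.continuous.continuousAt
  have han : ∀ᶠ q in 𝓝 z, AnalyticAt ℝ r (refl q) := hc.eventually h.eventually_analyticAt
  have hr : AnalyticAt ℝ (fun q => r (refl q)) z :=
    AnalyticAt.comp (g := r) (f := fun q : V => refl q) h (refl.analyticAt z)
  have h0 : (fun q => dir v (fun q => r (refl q)) q) =ᶠ[𝓝 z]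
      fun q => dir (refl v) r (refl q) := by
    filter_upwards [han] with q hq
    exact fderiv_refl hq v
  rw [← dir_dir hr u v, ← dir_dir h (refl u) (refl v)]
  unfold dir at h0 ⊢
  rw [h0.fderiv_eq]
  exact fderiv_refl (dir_an_at h (refl v)) u

lemma D2_refl_ker {r : V → E3} {z k : V} (h : AnalyticAt ℝ r (refl z)) :
    D2 (fun q => r (refl q)) z k = 0 ↔ D2 r (refl z) (refl k) = 0 := by
  constructor
  · intro h1
    refine ContinuousLinearMap.ext fun v => ?_
    have := D2_refl h k (refl v)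
    rw [refl_refl, h1] at this
    exact this.symm
  · intro h1
    refine ContinuousLinearMap.ext fun v => ?_
    rw [D2_refl h k v, h1]
    rfl

lemma D2_refl_ne {r : V → E3} {z : V} (h : AnalyticAt ℝ r (refl z)) :
    D2 (fun q => r (refl q)) z ≠ 0 ↔ D2 r (refl z) ≠ 0 := by
  rw [not_iff_not]
  constructor
  · intro h1
    refine ContinuousLinearMap.ext fun v => ?_
    have := (D2_refl_ker h (k := refl v)).1 (by rw [h1]; rfl)
    rw [refl_refl] at this
    rw [this]
    rfl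
  · intro h1
    refine ContinuousLinearMap.ext fun v => ?_
    exact (D2_refl_ker h).2 (by rw [h1]; rfl)

/-- a map with vanishing second derivative on an open connected set is affine -/
lemma affine_of_D2 {r : V → E3} {W : Set V} (hW : IsOpen W) (hW' : IsPreconnected W)
    (hr : AnalyticOnNhd ℝ r W) (h : ∀ z ∈ W, D2 r z = 0) :
    ∃ (A : V →L[ℝ] E3) (b : E3), ∀ z ∈ W, r z = A z + b := by
  obtain ⟨A, hA⟩ := hW.exists_is_const_of_fderiv_eq_zero hW' (f := fderiv ℝ r)
    (fun z hz => (hr z hz).fderiv.differentiableAt.differentiableWithinAt) (fun z hz => h z hz)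
  obtain ⟨b, hb⟩ := hW.exists_is_const_of_fderiv_eq_zero hW' (f := fun z => r z - A z)
    (fun z hz => ((hr z hz).differentiableAt.sub A.differentiableAt).differentiableWithinAt)
    (fun z hz => by
      have h1 := (hr z hz).differentiableAt.hasFDerivAt.sub A.hasFDerivAt
      have h2 : fderiv ℝ (fun z => r z - A z) z = fderiv ℝ r z - A := h1.fderiv
      rw [h2, hA z hz, sub_self]
      rfl)
  refine ⟨A, b, fun z hz => ?_⟩
  rw [← hb z hz]
  abel

/-- The core: three analytic isometric immersions of the three sheets, equal on the common strip,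
cannot have disjoint bottom strips. -/
theorem core {rL r0 rR : V → E3} (hL : Iso rL (S (-12) (-2))) (h0 : Iso r0 (S (-1) 1))
    (hR : Iso rR (S 2 12)) (hTL : EqOn r0 rL T) (hTR : EqOn r0 rR T)
    (hBL : ∀ z ∈ B, r0 z ≠ rL z) (hBR : ∀ z ∈ B, r0 z ≠ rR z) : False := by
  have hst : ∀ x0 y0 μ : ℝ, |x0| ≤ 1 / 10 → |y0| < 1 → D2 r0 (x0, y0) ≠ 0 →
      D2 r0 (x0, y0) (μ, 1) = 0 → 9 / 10 ≤ |μ| * (|y0| + 1 / 1000) := by
    intro x0 y0 μ h1 h2 h3 h4
    by_contra h5
    push Not at h5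
    exact no_steep h0 hL hTL hBL h1 h2 h5 h3 h4
  -- a curved point
  have hex : ∃ z ∈ Ioo (-(1 / 10) : ℝ) (1 / 10) ×ˢ Ioo (1 / 20 : ℝ) (1 / 10), D2 r0 z ≠ 0 := by
    by_contra hno
    push Not at hno
    set W : Set V := Ioo (-(1 / 10) : ℝ) (1 / 10) ×ˢ Ioo (1 / 20 : ℝ) (1 / 10) with hW
    have hWT : W ⊆ T := by
      rintro z ⟨⟨h1, h2⟩, h3, h4⟩
      exact ⟨by linarith, by linarith, by linarith, by linarith⟩
    have hWo : IsOpen W := isOpen_Ioo.prod isOpen_Ioo
    obtain ⟨A, b, hAb⟩ := affine_of_D2 (r := r0) hWo (isPreconnected_Ioo.prod isPreconnected_Ioo)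
      (fun z hz => h0.an z (T_sub _ _ (hWT hz))) hno
    have hz : ((0, 3 / 40) : V) ∈ W := ⟨⟨by norm_num, by norm_num⟩, by norm_num, by norm_num⟩
    have hAan : ∀ s : Set V, AnalyticOnNhd ℝ (fun z : V => A z + b) s := fun s z _ =>
      (A.analyticAt z).add analyticAt_const
    have hev : r0 =ᶠ[𝓝 ((0, 3 / 40) : V)] fun z => A z + b := by
      filter_upwards [hWo.mem_nhds hz] with z hz using hAb z hz
    have hevL : rL =ᶠ[𝓝 ((0, 3 / 40) : V)] fun z => A z + b := by
      filter_upwards [hWo.mem_nhds hz] with z hz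
      rw [← hTL (hWT hz), hAb z hz]
    have h1 := AnalyticOnNhd.eqOn_of_preconnected_of_eventuallyEq h0.an (hAan _)
      (S_preconnected (by norm_num) (by norm_num) (by norm_num)) (T_sub _ _ (hWT hz)) hev
    have h2 := AnalyticOnNhd.eqOn_of_preconnected_of_eventuallyEq hL.an (hAan _)
      (S_preconnected (by norm_num) (by norm_num) (by norm_num)) (T_sub _ _ (hWT hz)) hevL
    have hzB : ((0, -(1 / 2)) : V) ∈ B := ⟨by norm_num, by norm_num, by norm_num, by norm_num⟩
    exact hBL _ hzB ((h1 (B_sub _ _ hzB)).trans (h2 (B_sub _ _ hzB)).symm)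
  obtain ⟨⟨x0, c0⟩, ⟨⟨hx1, hx2⟩, hc1, hc2⟩, hc⟩ := hex
  simp only at hx1 hx2 hc1 hc2
  have hx0 : |x0| ≤ 1 / 10 := abs_le.2 ⟨hx1.le, hx2.le⟩
  have hmem : ((x0, c0) : V) ∈ S (-1) 1 := memN' hx0 (by linarith) (by linarith)
  obtain ⟨k, hk0, hk⟩ := h0.exists_ker hmem
  have hc0abs : |c0| < 1 := by rw [abs_lt]; constructor <;> linarith
  have hk1 : k.1 ≠ 0 := by
    intro hk1
    have hk2 : k.2 ≠ 0 := fun h1 => hk0 (Prod.ext hk1 h1)
    have e : k = k.2 • ((0, 1) : V) := by ext <;> simp [hk1]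
    have he : D2 r0 (x0, c0) (0, 1) = 0 := D2_of_smul hk2 (by rw [← e]; exact hk)
    have := hst x0 c0 0 hx0 hc0abs hc he
    rw [abs_zero, zero_mul] at this
    linarith
  have e : k = k.1 • ((1, k.2 / k.1) : V) := by
    ext
    · simp
    · simp only [Prod.smul_snd, smul_eq_mul]
      field_simp
  have hm : D2 r0 (x0, c0) (1, k.2 / k.1) = 0 := D2_of_smul hk1 (by rw [← e]; exact hk)
  generalize k.2 / k.1 = m at hm
  rcases le_or_gt 0 m with hm0 | hm0
  · exact step3 h0 hR hTR hBR hst hx0 hc1 hc2 hc hm hm0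
  · have h0' := h0.reflect
    have hL' := hL.reflect
    rw [neg_neg] at h0'
    rw [neg_neg, neg_neg] at hL'
    have hreflT : ∀ z ∈ T, refl z ∈ T := by
      rintro z ⟨h1, h2, h3, h4⟩
      exact ⟨show -12 < -z.1 by linarith, show -z.1 < 12 by linarith, h3, h4⟩
    have hreflB : ∀ z ∈ B, refl z ∈ B := by
      rintro z ⟨h1, h2, h3, h4⟩
      exact ⟨show -12 < -z.1 by linarith, show -z.1 < 12 by linarith, h3, h4⟩
    have hrx : refl (-x0, c0) = (x0, c0) := by rw [refl_apply, neg_neg]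
    refine step3 (r0 := fun q => r0 (refl q)) (rR := fun q => rL (refl q)) h0' hL'
      (fun z hz => hTL (hreflT z hz)) (fun z hz => hBL _ (hreflB z hz)) ?_
      (x0 := -x0) (c0 := c0) (m0 := -m) (by rwa [abs_neg]) hc1 hc2 ?_ ?_ (by linarith)
    · intro x y μ h1 h2 h3 h4
      have hmem' : refl (x, y) ∈ S (-1) 1 := by
        rw [refl_apply]
        obtain ⟨h5, h6⟩ := abs_lt.1 h2
        exact memN' (by rwa [abs_neg]) h5 h6
      have han := h0.an _ hmem'
      have h5 := (D2_refl_ne han).1 h3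
      have h6 := (D2_refl_ker han).1 h4
      rw [refl_apply] at h5
      rw [refl_apply, refl_apply] at h6
      have := hst (-x) y (-μ) (by rwa [abs_neg]) h2 h5 h6
      rwa [abs_neg] at this
    · have han : AnalyticAt ℝ r0 (refl (-x0, c0)) := by rw [hrx]; exact h0.an _ hmem
      exact (D2_refl_ne han).2 (by rw [hrx]; exact hc)
    · have han : AnalyticAt ℝ r0 (refl (-x0, c0)) := by rw [hrx]; exact h0.an _ hmem
      refine (D2_refl_ker han).2 ?_
      rw [hrx, refl_apply]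
      have e2 : ((-1, -m) : V) = (-1 : ℝ) • ((1, m) : V) := by ext <;> simp
      rw [e2]
      exact D2_smul_zero hm _

end Pool.Agent.Helper962.Flat
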