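import Mathlib
import Pool.Agent.Helper962.F8

set_option autoImplicit false

namespace Pool.Agent.Helper962.Comb

open Set Filter Topology Pool.Agent.Helper962.Flat
open scoped RealInnerProductSpace ContDiff

abbrev Plane := EuclideanSpace ℝ (Fin 2)

/-- centre function: locally constant on the three teeth -/
noncomputable def cc (x : ℝ) : ℝ :=
  7 * (Real.smoothTransition (2 * x - 5 / 2) - Real.smoothTransition (-(2 * x) - 5 / 2))

/-- stretching function -/
noncomputable def rr (y : ℝ) : ℝ := 12 * Real.smoothTransition (-(4000 * y))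

lemma cc_contDiff : ContDiff ℝ ∞ cc := by
  unfold cc
  have h := Real.smoothTransition.contDiff (n := (⊤ : ℕ∞))
  exact contDiff_const.mul ((h.comp (by fun_prop)).sub (h.comp (by fun_prop)))

lemma rr_contDiff : ContDiff ℝ ∞ rr := by
  unfold rr
  have h := Real.smoothTransition.contDiff (n := (⊤ : ℕ∞))
  exact contDiff_const.mul (h.comp (by fun_prop))

lemma cc_mid {x : ℝ} (h1 : -(5 / 4) ≤ x) (h2 : x ≤ 5 / 4) : cc x = 0 := by
  unfold cc
  rw [Real.smoothTransition.zero_of_nonpos (by linarith),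
    Real.smoothTransition.zero_of_nonpos (by linarith)]
  ring

lemma cc_right {x : ℝ} (h1 : 7 / 4 ≤ x) : cc x = 7 := by
  unfold cc
  rw [Real.smoothTransition.one_of_one_le (by linarith),
    Real.smoothTransition.zero_of_nonpos (by linarith)]
  ring

lemma cc_left {x : ℝ} (h1 : x ≤ -(7 / 4)) : cc x = -7 := by
  unfold cc
  rw [Real.smoothTransition.zero_of_nonpos (by linarith),
    Real.smoothTransition.one_of_one_le (by linarith)]
  ring

lemma rr_nonneg (y : ℝ) : 0 ≤ rr y := mul_nonneg (by norm_num) (Real.smoothTransition.nonneg _)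

lemma rr_top {y : ℝ} (h : 0 ≤ y) : rr y = 0 := by
  unfold rr
  rw [Real.smoothTransition.zero_of_nonpos (by linarith)]
  ring

lemma rr_bot {y : ℝ} (h : y ≤ -(1 / 4000)) : rr y = 12 := by
  unfold rr
  rw [Real.smoothTransition.one_of_one_le (by linarith)]
  ring

/-- first coordinate of the developing map -/
noncomputable def Φ1 (p : V) : ℝ := cc p.1 + (p.1 - cc p.1) * (1 + rr p.2)

lemma Φ1_contDiff : ContDiff ℝ ∞ Φ1 := by
  have hc := cc_contDiff.comp (contDiff_fst (𝕜 := ℝ) (E := ℝ) (F := ℝ))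
  have hr := rr_contDiff.comp (contDiff_snd (𝕜 := ℝ) (E := ℝ) (F := ℝ))
  exact hc.add ((contDiff_fst.sub hc).mul (contDiff_const.add hr))

/-- the developing map -/
noncomputable def Φ (p : V) : Plane := !₂[Φ1 p, p.2]

lemma Φ_contDiff : ContDiff ℝ ∞ Φ := by
  unfold Φ
  rw [contDiff_euclidean]
  intro i
  fin_cases i
  · simpa using Φ1_contDiff
  · simpa using contDiff_snd

lemma Φ_deriv (p v : V) : fderiv ℝ Φ p v 0 = fderiv ℝ Φ1 p v ∧ fderiv ℝ Φ p v 1 = v.2 := by
  have hd : HasFDerivAt Φ (fderiv ℝ Φ p) p := (Φ_contDiff.differentiable (by simp) p).hasFDerivAt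
  constructor
  · have h := ((EuclideanSpace.proj (0 : Fin 2) : Plane →L[ℝ] ℝ).hasFDerivAt).comp p hd
    have e : (fun q => (EuclideanSpace.proj (0 : Fin 2) : Plane →L[ℝ] ℝ) (Φ q)) = Φ1 := by
      funext q
      simp [Φ]
    have h' : HasFDerivAt Φ1 ((EuclideanSpace.proj (0 : Fin 2) : Plane →L[ℝ] ℝ).comp
        (fderiv ℝ Φ p)) p := by
      rw [← e]; exact h
    rw [h'.fderiv]
    rfl
  · have h := ((EuclideanSpace.proj (1 : Fin 2) : Plane →L[ℝ] ℝ).hasFDerivAt).comp p hd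
    have e : (fun q => (EuclideanSpace.proj (1 : Fin 2) : Plane →L[ℝ] ℝ) (Φ q)) =
        fun q : V => q.2 := by
      funext q
      simp [Φ]
    have h' : HasFDerivAt (fun q : V => q.2) ((EuclideanSpace.proj (1 : Fin 2) : Plane →L[ℝ] ℝ).comp
        (fderiv ℝ Φ p)) p := by
      rw [← e]; exact h
    have h'' : HasFDerivAt (fun q : V => q.2) (ContinuousLinearMap.snd ℝ ℝ ℝ) p := hasFDerivAt_snd
    exact congrArg (fun L : V →L[ℝ] ℝ => L v) (h'.unique h'')

lemma inner2 (x y : Plane) : ⟪x, y⟫ = x 0 * y 0 + x 1 * y 1 := by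
  rw [PiLp.inner_apply, Fin.sum_univ_two]
  simp only [RCLike.inner_apply, conj_trivial]
  ring

/-- the comb domain -/
def D : Set V := {p | -12 < p.1 ∧ p.1 < 12 ∧ -1 < p.2 ∧ p.2 < 1 ∧
  (0 < p.2 ∨ p.1 < -2 ∨ (-1 < p.1 ∧ p.1 < 1) ∨ 2 < p.1)}

/-- coefficients of the pull-back of the Euclidean metric by the developing map -/
noncomputable def gc (u v p : V) : ℝ := ⟪fderiv ℝ Φ p u, fderiv ℝ Φ p v⟫

lemma gc_contDiff (u v : V) : ContDiff ℝ ∞ (gc u v) := by
  have h1 : ContDiff ℝ ∞ (fderiv ℝ Φ) := Φ_contDiff.fderiv_right (m := ∞) (by simp)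
  exact (h1.clm_apply contDiff_const).inner ℝ (h1.clm_apply contDiff_const)

/-- section over a sheet -/
noncomputable def sig (c : ℝ) (z : V) : V := (c + (z.1 - c) / (1 + rr z.2), z.2)

lemma sig_contDiff (c : ℝ) : ContDiff ℝ ∞ (sig c) := by
  unfold sig
  have hr : ContDiff ℝ ∞ (fun z : V => 1 + rr z.2) :=
    contDiff_const.add (rr_contDiff.comp contDiff_snd)
  have h1 : ContDiff ℝ ∞ (fun z : V => c + (z.1 - c) / (1 + rr z.2)) :=
    contDiff_const.add ((contDiff_fst.sub contDiff_const).div hr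
      (fun z => by have := rr_nonneg z.2; positivity))
  exact h1.prodMk contDiff_snd

/-- what is needed of a tooth `(a, b)` with centre `c` -/
structure Tooth (a b c : ℝ) : Prop where
  ha : -12 ≤ a
  hb : b ≤ 12
  h13 : ∀ x : ℝ, -12 < x → x < 12 → a < c + (x - c) / 13 ∧ c + (x - c) / 13 < b
  hk : ∀ x k : ℝ, a < x → x < b → 1 ≤ k → a < c + (x - c) / k ∧ c + (x - c) / k < b
  hc : ∀ x : ℝ, a < x → x < b → cc x = c
  hD : ∀ x : ℝ, a < x → x < b → x < -2 ∨ (-1 < x ∧ x < 1) ∨ 2 < x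

lemma tooth_k {a b c x k : ℝ} (hcc : c = (a + b) / 2) (h1 : a < x) (h2 : x < b) (hk : 1 ≤ k) :
    a < c + (x - c) / k ∧ c + (x - c) / k < b := by
  have hk0 : 0 < k := by linarith
  have h3 : |(x - c) / k| < (b - a) / 2 := by
    rw [abs_div, abs_of_pos hk0, div_lt_iff₀ hk0]
    have h4 : |x - c| < (b - a) / 2 := by
      rw [abs_lt]
      constructor <;> linarith
    nlinarith
  obtain ⟨h5, h6⟩ := abs_lt.1 h3
  constructor <;> linarith

lemma tooth_left : Tooth (-12) (-2) (-7) where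
  ha := le_rfl
  hb := by norm_num
  h13 x h1 h2 := ⟨by linarith, by linarith⟩
  hk x k h1 h2 hk := tooth_k (by norm_num) h1 h2 hk
  hc x h1 h2 := cc_left (by linarith)
  hD x h1 h2 := Or.inl h2

lemma tooth_mid : Tooth (-1) 1 0 where
  ha := by norm_num
  hb := by norm_num
  h13 x h1 h2 := ⟨by linarith, by linarith⟩
  hk x k h1 h2 hk := tooth_k (by norm_num) h1 h2 hk
  hc x h1 h2 := cc_mid (by linarith) (by linarith)
  hD x h1 h2 := Or.inr (Or.inl ⟨h1, h2⟩)

lemma tooth_right : Tooth 2 12 7 where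
  ha := by norm_num
  hb := le_rfl
  h13 x h1 h2 := ⟨by linarith, by linarith⟩
  hk x k h1 h2 hk := tooth_k (by norm_num) h1 h2 hk
  hc x h1 h2 := cc_right (by linarith)
  hD x h1 h2 := Or.inr (Or.inr h1)

lemma Tooth.key {a b c : ℝ} (h : Tooth a b c) {z : V} (hz : z ∈ S a b) :
    sig c z ∈ D ∧ Φ1 (sig c z) = z.1 := by
  obtain ⟨h1, h2, h3, h4, h5⟩ := hz
  unfold Φ1
  have e0 : (sig c z).1 = c + (z.1 - c) / (1 + rr z.2) := rfl
  have e1 : (sig c z).2 = z.2 := rfl
  show (-12 < (sig c z).1 ∧ (sig c z).1 < 12 ∧ -1 < (sig c z).2 ∧ (sig c z).2 < 1 ∧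
    (0 < (sig c z).2 ∨ (sig c z).1 < -2 ∨ (-1 < (sig c z).1 ∧ (sig c z).1 < 1) ∨
      2 < (sig c z).1)) ∧ _
  rw [e0, e1]
  by_cases hpos : 0 < z.2
  · rw [rr_top hpos.le]
    have e : c + (z.1 - c) / (1 + 0) = z.1 := by ring
    rw [e]
    exact ⟨⟨h1, h2, h3, h4, Or.inl hpos⟩, by ring⟩
  · have hin : a < c + (z.1 - c) / (1 + rr z.2) ∧ c + (z.1 - c) / (1 + rr z.2) < b := by
      rcases h5 with h5 | h5 | h5
      · exact absurd h5 hpos
      · rw [rr_bot h5.le]
        have := h.h13 z.1 h1 h2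
        norm_num
        exact this
      · exact h.hk z.1 _ h5.1 h5.2 (by linarith [rr_nonneg z.2])
    refine ⟨⟨by linarith [hin.1, h.ha], by linarith [hin.2, h.hb], h3, h4,
      Or.inr (h.hD _ hin.1 hin.2)⟩, ?_⟩
    rw [h.hc _ hin.1 hin.2]
    have : 1 + rr z.2 ≠ 0 := by linarith [rr_nonneg z.2]
    field_simp
    ring

lemma isOpen_D : IsOpen D := by
  have h0 : Continuous fun p : V => p.1 := by fun_prop
  have h1 : Continuous fun p : V => p.2 := by fun_prop
  have : D = ({p : V | -12 < p.1} ∩ {p | p.1 < 12} ∩ {p | -1 < p.2} ∩ {p | p.2 < 1}) ∩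
      ({p | 0 < p.2} ∪ ({p | p.1 < -2} ∪ (({p | -1 < p.1} ∩ {p | p.1 < 1}) ∪ {p | 2 < p.1}))) := by
    ext p
    simp only [D, mem_ofPred_eq, mem_inter_iff, mem_union]
    tauto
  rw [this]
  refine IsOpen.inter (IsOpen.inter (IsOpen.inter (IsOpen.inter ?_ ?_) ?_) ?_)
    (IsOpen.union ?_ (IsOpen.union ?_ (IsOpen.union (IsOpen.inter ?_ ?_) ?_)))
  · exact isOpen_lt continuous_const h0
  · exact isOpen_lt h0 continuous_const
  · exact isOpen_lt continuous_const h1
  · exact isOpen_lt h1 continuous_const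
  · exact isOpen_lt continuous_const h1
  · exact isOpen_lt h0 continuous_const
  · exact isOpen_lt continuous_const h0
  · exact isOpen_lt h0 continuous_const
  · exact isOpen_lt continuous_const h0

lemma isOpen_S (a b : ℝ) : IsOpen (S a b) := by
  have h0 : Continuous fun p : V => p.1 := by fun_prop
  have h1 : Continuous fun p : V => p.2 := by fun_prop
  have : S a b = ({p : V | -12 < p.1} ∩ {p | p.1 < 12} ∩ {p | -1 < p.2} ∩ {p | p.2 < 1}) ∩
      ({p | 0 < p.2} ∪ ({p | p.2 < -(1 / 4000)} ∪ ({p | a < p.1} ∩ {p | p.1 < b}))) := by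
    ext p
    simp only [S, mem_ofPred_eq, mem_inter_iff, mem_union]
    tauto
  rw [this]
  refine IsOpen.inter (IsOpen.inter (IsOpen.inter (IsOpen.inter ?_ ?_) ?_) ?_)
    (IsOpen.union ?_ (IsOpen.union ?_ (IsOpen.inter ?_ ?_)))
  · exact isOpen_lt continuous_const h0
  · exact isOpen_lt h0 continuous_const
  · exact isOpen_lt continuous_const h1
  · exact isOpen_lt h1 continuous_const
  · exact isOpen_lt continuous_const h1
  · exact isOpen_lt h1 continuous_const
  · exact isOpen_lt continuous_const h0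
  · exact isOpen_lt h0 continuous_const

lemma deriv_cc {x : ℝ} (h : x < -(7 / 4) ∨ (-(5 / 4) < x ∧ x < 5 / 4) ∨ 7 / 4 < x) :
    deriv cc x = 0 := by
  have key : ∀ (c : ℝ) (W : Set ℝ), IsOpen W → x ∈ W → (∀ y ∈ W, cc y = c) → deriv cc x = 0 := by
    intro c W hW hx hc
    have : cc =ᶠ[𝓝 x] fun _ => c := by
      filter_upwards [hW.mem_nhds hx] with y hy using hc y hy
    rw [this.deriv_eq, deriv_const]
  rcases h with h | h | h
  · exact key (-7) (Iio (-(7 / 4))) isOpen_Iio h (fun y hy => cc_left (le_of_lt hy))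
  · exact key 0 (Ioo (-(5 / 4)) (5 / 4)) isOpen_Ioo h (fun y hy => cc_mid hy.1.le hy.2.le)
  · exact key 7 (Ioi (7 / 4)) isOpen_Ioi h (fun y hy => cc_right (le_of_lt hy))

lemma closure_D {p : V} (hp : p ∈ closure D) :
    0 ≤ p.2 ∨ p.1 ≤ -2 ∨ (-1 ≤ p.1 ∧ p.1 ≤ 1) ∨ 2 ≤ p.1 := by
  have h0 : Continuous fun p : V => p.1 := by fun_prop
  have h1 : Continuous fun p : V => p.2 := by fun_prop
  have hcl : IsClosed ({p : V | 0 ≤ p.2} ∪ ({p | p.1 ≤ -2} ∪
      (({p | -1 ≤ p.1} ∩ {p | p.1 ≤ 1}) ∪ {p | 2 ≤ p.1}))) :=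
    (isClosed_le continuous_const h1).union ((isClosed_le h0 continuous_const).union
      (((isClosed_le continuous_const h0).inter (isClosed_le h0 continuous_const)).union
        (isClosed_le continuous_const h0)))
  have hsub : D ⊆ ({p : V | 0 ≤ p.2} ∪ ({p | p.1 ≤ -2} ∪
      (({p | -1 ≤ p.1} ∩ {p | p.1 ≤ 1}) ∪ {p | 2 ≤ p.1}))) := by
    rintro q ⟨-, -, -, -, h | h | h | h⟩
    · exact Or.inl h.le
    · exact Or.inr (Or.inl h.le)
    · exact Or.inr (Or.inr (Or.inl ⟨h.1.le, h.2.le⟩))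
    · exact Or.inr (Or.inr (Or.inr h.le))
  exact closure_minimal hsub hcl hp

/-- the derivative of `Φ1` in the first variable is at least one on the closure -/
lemma Φ1_deriv {p : V} (hp : p ∈ closure D) : 1 ≤ fderiv ℝ Φ1 p (1, 0) := by
  have h9 : fderiv ℝ Φ1 p (1, 0) = 1 + rr p.2 * (1 - deriv cc p.1) := by
    have hd : DifferentiableAt ℝ Φ1 p := (Φ1_contDiff.differentiable (by simp)) p
    have h1 : HasDerivAt (fun t : ℝ => ((t, p.2) : V)) (1, 0) p.1 :=
      (hasDerivAt_id p.1).prodMk (hasDerivAt_const p.1 p.2)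
    have h2 : HasDerivAt (fun t : ℝ => Φ1 (t, p.2)) (fderiv ℝ Φ1 p (1, 0)) p.1 :=
      HasFDerivAt.comp_hasDerivAt (l := Φ1) (f := fun t : ℝ => ((t, p.2) : V)) p.1
        hd.hasFDerivAt h1
    have hc : HasDerivAt cc (deriv cc p.1) p.1 :=
      ((cc_contDiff.differentiable (by simp)) p.1).hasDerivAt
    have h8 := hc.add (((hasDerivAt_id p.1).sub hc).mul_const (1 + rr p.2))
    rw [h2.unique h8]
    ring
  rw [h9]
  have hr := rr_nonneg p.2
  rcases closure_D hp with h | h | h | h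
  · rw [rr_top h]; linarith
  · rw [deriv_cc (Or.inl (by linarith))]; linarith
  · rw [deriv_cc (Or.inr (Or.inl ⟨by linarith [h.1], by linarith [h.2]⟩))]; linarith
  · rw [deriv_cc (Or.inr (Or.inr (by linarith)))]; linarith

lemma g_pos {p : V} (hp : p ∈ closure D) : 0 < gc (1, 0) (1, 0) p ∧
    0 < gc (1, 0) (1, 0) p * gc (0, 1) (0, 1) p - gc (1, 0) (0, 1) p ^ 2 := by
  unfold gc
  rw [inner2, inner2, inner2, (Φ_deriv p (1, 0)).1, (Φ_deriv p (1, 0)).2, (Φ_deriv p (0, 1)).1,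
    (Φ_deriv p (0, 1)).2]
  have h := Φ1_deriv hp
  set s := fderiv ℝ Φ1 p (1, 0) with hs
  set t := fderiv ℝ Φ1 p (0, 1) with ht
  constructor
  · nlinarith
  · have : (s * s + 0 * 0) * (t * t + 1 * 1) - (s * t + 0 * 1) ^ 2 = s * s := by ring
    simp only at this ⊢
    rw [this]
    nlinarith

/-- the metric is locally Euclidean -/
lemma g_flat {p : V} (hp : p ∈ D) : ∃ U : Set V, IsOpen U ∧ p ∈ U ∧ U ⊆ D ∧
    ContDiffOn ℝ ∞ Φ U ∧ InjOn Φ U ∧ IsOpen (Φ '' U) := by
  have hinj : Function.Injective (fderiv ℝ Φ p : V →ₗ[ℝ] Plane) := by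
    rw [← LinearMap.ker_eq_bot, LinearMap.ker_eq_bot']
    intro v hv
    have h2 : fderiv ℝ Φ p v = 0 := hv
    have h3 : v.2 = 0 := by
      rw [← (Φ_deriv p v).2, h2]; rfl
    have h4 : fderiv ℝ Φ1 p v = 0 := by
      rw [← (Φ_deriv p v).1, h2]; rfl
    have h5 : v = v.1 • ((1, 0) : V) := by
      ext
      · simp
      · simp [h3]
    rw [h5, map_smul, smul_eq_mul] at h4
    have h6 := Φ1_deriv (subset_closure hp)
    have h7 : v.1 = 0 := (mul_eq_zero.1 h4).resolve_right (by linarith)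
    exact Prod.ext h7 h3
  have hdim : Module.finrank ℝ V = Module.finrank ℝ Plane := by simp
  let L := ((fderiv ℝ Φ p : V →ₗ[ℝ] Plane).linearEquivOfInjective hinj hdim).toContinuousLinearEquiv
  have hL : HasFDerivAt Φ (L : V →L[ℝ] Plane) p := by
    have h1 : (L : V →L[ℝ] Plane) = fderiv ℝ Φ p := by
      refine ContinuousLinearMap.ext fun v => ?_
      rfl
    rw [h1]
    exact (Φ_contDiff.differentiable (by simp) p).hasFDerivAt
  let e := Φ_contDiff.contDiffAt.toOpenPartialHomeomorph Φ hL (by simp)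
  have hpe : p ∈ e.source := Φ_contDiff.contDiffAt.mem_toOpenPartialHomeomorph_source hL (by simp)
  exact ⟨e.source ∩ D, e.open_source.inter isOpen_D, ⟨hpe, hp⟩, inter_subset_right,
    Φ_contDiff.contDiffOn, e.injOn.mono inter_subset_left,
    e.isOpen_image_of_subset_source (e.open_source.inter isOpen_D) inter_subset_left⟩

end Pool.Agent.Helper962.Comb
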