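import Mathlib

set_option autoImplicit false

namespace Pool.Agent.Helper962.DPS

open Set Filter Topology Finset
open scoped ENNReal NNReal

abbrev Idx := ℕ × ℕ

/-- terms of a double power series -/
noncomputable def term (c : Idx → ℂ) (z : ℝ × ℝ) (p : Idx) : ℂ :=
  c p * (z.1 : ℂ) ^ p.1 * (z.2 : ℂ) ^ p.2

/-- sum of a double power series -/
noncomputable def S (c : Idx → ℂ) (z : ℝ × ℝ) : ℂ := ∑' p, term c z p

def Bd (c : Idx → ℂ) (M ρ : ℝ) : Prop := ∀ p, ‖c p‖ ≤ M * ρ ^ (p.1 + p.2)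

lemma geo_summable {q : ℝ} (h0 : 0 ≤ q) (h1 : q < 1) :
    Summable (fun p : Idx => q ^ p.1 * q ^ p.2) :=
  (summable_geometric_of_lt_one h0 h1).mul_of_nonneg (summable_geometric_of_lt_one h0 h1)
    (fun n => pow_nonneg h0 n) (fun n => pow_nonneg h0 n)

lemma term_norm_le {c : Idx → ℂ} {M ρ : ℝ} (hc : Bd c M ρ) (hM : 0 ≤ M) (hρ : 0 ≤ ρ)
    {z : ℝ × ℝ} {t : ℝ} (h1 : |z.1| ≤ t) (h2 : |z.2| ≤ t) (p : Idx) :
    ‖term c z p‖ ≤ M * ((ρ * t) ^ p.1 * (ρ * t) ^ p.2) := by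
  unfold term
  rw [norm_mul, norm_mul, norm_pow, norm_pow, Complex.norm_real, Complex.norm_real,
    Real.norm_eq_abs, Real.norm_eq_abs]
  have e : M * ((ρ * t) ^ p.1 * (ρ * t) ^ p.2) = M * ρ ^ (p.1 + p.2) * t ^ p.1 * t ^ p.2 := by
    rw [mul_pow, mul_pow, pow_add]; ring
  rw [e]
  have ht : 0 ≤ t := (abs_nonneg _).trans h1
  gcongr
  exact hc p

lemma summable_term {c : Idx → ℂ} {M ρ : ℝ} (hc : Bd c M ρ) (hM : 0 ≤ M) (hρ : 0 ≤ ρ)
    {z : ℝ × ℝ} {t : ℝ} (h1 : |z.1| ≤ t) (h2 : |z.2| ≤ t) (ht : ρ * t < 1) :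
    Summable (fun p => ‖term c z p‖) := by
  have ht0 : 0 ≤ t := (abs_nonneg _).trans h1
  exact Summable.of_nonneg_of_le (fun p => norm_nonneg _) (term_norm_le hc hM hρ h1 h2)
    ((geo_summable (mul_nonneg hρ ht0) ht).mul_left M)

lemma hasSum_antidiag {F : ℕ × ℕ → ℂ} {a : ℂ} (h : HasSum F a) :
    HasSum (fun n => ∑ q ∈ antidiagonal n, F q) a := by
  have h1 := (Finset.HasAntidiagonal.sigmaAntidiagonalEquivProd (A := ℕ)).hasSum_iff.2 h
  exact h1.sigma (fun n => Finset.hasSum (antidiagonal n) F)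

/-- the monomial forms -/
noncomputable def Mon (n i : ℕ) : ContinuousMultilinearMap ℝ (fun _ : Fin n => ℝ × ℝ) ℂ :=
  (ContinuousMultilinearMap.mkPiAlgebra ℝ (Fin n) ℂ).compContinuousLinearMap
    (fun k => if (k : ℕ) < i then Complex.ofRealCLM.comp (ContinuousLinearMap.fst ℝ ℝ ℝ)
      else Complex.ofRealCLM.comp (ContinuousLinearMap.snd ℝ ℝ ℝ))

lemma prod_ite_lt (x y : ℂ) (n i : ℕ) (hi : i ≤ n) :
    ∏ k : Fin n, (if (k : ℕ) < i then x else y) = x ^ i * y ^ (n - i) := by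
  rw [Fin.prod_univ_eq_prod_range (fun k : ℕ => if k < i then x else y) n, Finset.prod_ite,
    Finset.prod_const, Finset.prod_const]
  have e1 : (Finset.range n).filter (fun k => k < i) = Finset.range i := by
    ext k; simp; omega
  have e2 : ((Finset.range n).filter (fun k => ¬ k < i)).card = n - i := by
    have := Finset.card_filter_add_card_filter_not (s := Finset.range n) (fun k => k < i)
    rw [e1, Finset.card_range, Finset.card_range] at this
    omega
  rw [e1, e2, Finset.card_range]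

lemma Mon_apply (n i : ℕ) (hi : i ≤ n) (z : ℝ × ℝ) :
    Mon n i (fun _ => z) = (z.1 : ℂ) ^ i * (z.2 : ℂ) ^ (n - i) := by
  rw [← prod_ite_lt _ _ n i hi]
  simp only [Mon, ContinuousMultilinearMap.compContinuousLinearMap_apply,
    ContinuousMultilinearMap.mkPiAlgebra_apply]
  refine Finset.prod_congr rfl fun k _ => ?_
  split_ifs <;> simp

lemma Mon_norm (n i : ℕ) : ‖Mon n i‖ ≤ 1 := by
  refine (ContinuousMultilinearMap.norm_compContinuousLinearMap_le _ _).trans ?_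
  rw [ContinuousMultilinearMap.norm_mkPiAlgebra, one_mul]
  refine Finset.prod_le_one (fun k _ => norm_nonneg _) fun k _ => ?_
  split_ifs
  · refine (ContinuousLinearMap.opNorm_comp_le _ _).trans ?_
    rw [Complex.ofRealCLM_norm, one_mul]
    exact ContinuousLinearMap.norm_fst_le ℝ ℝ ℝ
  · refine (ContinuousLinearMap.opNorm_comp_le _ _).trans ?_
    rw [Complex.ofRealCLM_norm, one_mul]
    exact ContinuousLinearMap.norm_snd_le ℝ ℝ ℝ

noncomputable def ser (c : Idx → ℂ) : FormalMultilinearSeries ℝ (ℝ × ℝ) ℂ :=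
  fun n => ∑ q ∈ antidiagonal n, c q • Mon n q.1

lemma ser_apply (c : Idx → ℂ) (n : ℕ) (z : ℝ × ℝ) :
    ser c n (fun _ => z) = ∑ q ∈ antidiagonal n, term c z q := by
  unfold ser
  rw [_root_.sum_apply]
  refine Finset.sum_congr rfl fun q hq => ?_
  have h := mem_antidiagonal.1 hq
  rw [_root_.smul_apply, Mon_apply n q.1 (by omega), smul_eq_mul]
  have e : n - q.1 = q.2 := by omega
  rw [e]
  unfold term
  ring

lemma ser_norm {c : Idx → ℂ} {M ρ : ℝ} (hc : Bd c M ρ) (hM : 0 ≤ M) (hρ : 0 ≤ ρ) (n : ℕ) :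
    ‖ser c n‖ ≤ (n + 1) * (M * ρ ^ n) := by
  unfold ser
  refine (norm_sum_le _ _).trans ?_
  have h : ∀ q ∈ antidiagonal n, ‖c q • Mon n q.1‖ ≤ M * ρ ^ n := by
    intro q hq
    have h := mem_antidiagonal.1 hq
    rw [norm_smul]
    have h1 := hc q
    rw [h] at h1
    calc ‖c q‖ * ‖Mon n q.1‖ ≤ (M * ρ ^ n) * 1 :=
          mul_le_mul h1 (Mon_norm n q.1) (norm_nonneg _) (by positivity)
      _ = M * ρ ^ n := mul_one _
  refine (Finset.sum_le_sum h).trans ?_
  rw [Finset.sum_const, Nat.card_antidiagonal, nsmul_eq_mul]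
  push_cast
  exact le_rfl

theorem hasFPS {c : Idx → ℂ} {M ρ : ℝ} (hc : Bd c M ρ) (hM : 0 ≤ M) (hρ : 0 < ρ) :
    HasFPowerSeriesOnBall (S c) (ser c) 0 (ENNReal.ofReal (1 / (4 * ρ))) where
  r_le := by
    have ht : 0 ≤ 1 / (4 * ρ) := by positivity
    refine (ser c).le_radius_of_bound (r := (1 / (4 * ρ)).toNNReal) M fun n => ?_
    rw [Real.coe_toNNReal _ ht]
    have h1 := ser_norm hc hM hρ.le n
    have h2 : ((n : ℝ) + 1) ≤ 4 ^ n := by
      have h3 : n + 1 ≤ 2 ^ n := Nat.lt_two_pow_self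
      have h4 : (2 : ℕ) ^ n ≤ 4 ^ n := Nat.pow_le_pow_left (by norm_num) n
      exact_mod_cast h3.trans h4
    calc ‖ser c n‖ * (1 / (4 * ρ)) ^ n ≤ ((n + 1) * (M * ρ ^ n)) * (1 / (4 * ρ)) ^ n := by
          gcongr
      _ = ((n : ℝ) + 1) / 4 ^ n * M := by
          rw [div_pow, one_pow, mul_pow]
          field_simp
      _ ≤ 1 * M := by
          gcongr
          rw [div_le_one (by positivity)]
          exact h2
      _ = M := one_mul M
  r_pos := by
    rw [ENNReal.ofReal_pos]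
    positivity
  hasSum := by
    intro y hy
    rw [zero_add]
    have hy' : ‖y‖ < 1 / (4 * ρ) := by
      have := hy
      rw [Metric.mem_eball, edist_zero_right, ← ofReal_norm] at this
      exact (ENNReal.ofReal_lt_ofReal_iff (by positivity)).1 this
    have h1 : |y.1| ≤ 1 / (4 * ρ) := (norm_fst_le y).trans hy'.le
    have h2 : |y.2| ≤ 1 / (4 * ρ) := (norm_snd_le y).trans hy'.le
    have hs := summable_term hc hM hρ.le h1 h2 (by field_simp; norm_num)
    have h3 := hasSum_antidiag hs.of_norm.hasSum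
    simp only [ser_apply]
    exact h3

theorem analyticAt_S {c : Idx → ℂ} {M ρ : ℝ} (hc : Bd c M ρ) (hM : 0 ≤ M) (hρ : 0 < ρ) :
    AnalyticAt ℝ (S c) 0 := (hasFPS hc hM hρ).analyticAt

end Pool.Agent.Helper962.DPS
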