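import Mathlib
import Pool.Agent.Helper962.K1

set_option autoImplicit false

namespace Pool.Agent.Helper962.DPS

open Set Filter Topology Finset
open scoped ENNReal NNReal

/-- coefficients of an analytic function -/
noncomputable def coef (p : FormalMultilinearSeries ℝ (ℝ × ℝ) ℂ) (n i : ℕ) : ℂ :=
  ∑ s ∈ (Finset.univ : Finset (Finset (Fin n))).filter (fun s => s.card = i),
    p n (s.piecewise (fun _ => ((1, 0) : ℝ × ℝ)) (fun _ => ((0, 1) : ℝ × ℝ)))

lemma coef_norm (p : FormalMultilinearSeries ℝ (ℝ × ℝ) ℂ) (n i : ℕ) :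
    ‖coef p n i‖ ≤ 2 ^ n * ‖p n‖ := by
  unfold coef
  refine (norm_sum_le _ _).trans ?_
  have h : ∀ s : Finset (Fin n), ‖p n (s.piecewise (fun _ => ((1, 0) : ℝ × ℝ))
      (fun _ => ((0, 1) : ℝ × ℝ)))‖ ≤ ‖p n‖ := by
    intro s
    refine ((p n).le_opNorm _).trans ?_
    have : ∏ k, ‖s.piecewise (fun _ => ((1, 0) : ℝ × ℝ)) (fun _ => ((0, 1) : ℝ × ℝ)) k‖ ≤ 1 := by
      refine Finset.prod_le_one (fun k _ => norm_nonneg _) fun k _ => ?_
      by_cases hk : k ∈ s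
      · rw [Finset.piecewise_eq_of_mem _ _ _ hk]; simp
      · rw [Finset.piecewise_eq_of_notMem _ _ _ hk]; simp
    calc ‖p n‖ * _ ≤ ‖p n‖ * 1 := mul_le_mul_of_nonneg_left this (norm_nonneg _)
      _ = ‖p n‖ := mul_one _
  refine (Finset.sum_le_sum fun s _ => h s).trans ?_
  rw [Finset.sum_const, nsmul_eq_mul]
  have hcard : ((Finset.univ : Finset (Finset (Fin n))).filter (fun s => s.card = i)).card
      ≤ 2 ^ n := by
    refine (Finset.card_filter_le _ _).trans ?_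
    rw [Finset.card_univ, Fintype.card_finset, Fintype.card_fin]
  have : (((Finset.univ : Finset (Finset (Fin n))).filter (fun s => s.card = i)).card : ℝ)
      ≤ 2 ^ n := by exact_mod_cast hcard
  gcongr

lemma coef_sum (p : FormalMultilinearSeries ℝ (ℝ × ℝ) ℂ) (n : ℕ) (z : ℝ × ℝ) :
    p n (fun _ => z) = ∑ i ∈ Finset.range (n + 1),
      coef p n i * (z.1 : ℂ) ^ i * (z.2 : ℂ) ^ (n - i) := by
  have hz : (fun _ : Fin n => z) = (fun _ => z.1 • ((1, 0) : ℝ × ℝ)) +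
      (fun _ => z.2 • ((0, 1) : ℝ × ℝ)) := by
    funext k
    ext <;> simp
  rw [hz, ContinuousMultilinearMap.map_add_univ]
  have h1 : ∀ s : Finset (Fin n), p n (s.piecewise (fun _ => z.1 • ((1, 0) : ℝ × ℝ))
      (fun _ => z.2 • ((0, 1) : ℝ × ℝ))) = ((z.1 : ℂ) ^ s.card * (z.2 : ℂ) ^ (n - s.card)) *
      p n (s.piecewise (fun _ => ((1, 0) : ℝ × ℝ)) (fun _ => ((0, 1) : ℝ × ℝ))) := by
    intro s
    have e : s.piecewise (fun _ => z.1 • ((1, 0) : ℝ × ℝ)) (fun _ => z.2 • ((0, 1) : ℝ × ℝ)) =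
        fun k => (s.piecewise (fun _ => z.1) (fun _ => z.2) k) •
          (s.piecewise (fun _ => ((1, 0) : ℝ × ℝ)) (fun _ => ((0, 1) : ℝ × ℝ)) k) := by
      funext k
      by_cases hk : k ∈ s
      · simp [Finset.piecewise_eq_of_mem _ _ _ hk]
      · simp [Finset.piecewise_eq_of_notMem _ _ _ hk]
    rw [e, ContinuousMultilinearMap.map_smul_univ]
    have e2 : ∏ k, s.piecewise (fun _ => z.1) (fun _ => z.2) k = z.1 ^ s.card * z.2 ^ (n - s.card) := by
      rw [Finset.prod_piecewise, Finset.prod_const, Finset.prod_const, Finset.univ_inter,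
        Finset.card_sdiff_of_subset (Finset.subset_univ _), Finset.card_univ, Fintype.card_fin]
    rw [e2, Complex.real_smul]
    push_cast
    ring
  rw [Finset.sum_congr rfl fun s _ => h1 s]
  rw [← Finset.sum_fiberwise_of_maps_to (s := Finset.univ) (t := Finset.range (n + 1))
    (g := fun s : Finset (Fin n) => s.card) (fun s _ => by
      rw [Finset.mem_range]
      have := Finset.card_le_univ s
      rw [Fintype.card_fin] at this
      omega)]
  refine Finset.sum_congr rfl fun i _ => ?_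
  unfold coef
  rw [Finset.sum_mul, Finset.sum_mul]
  refine Finset.sum_congr rfl fun s hs => ?_
  rw [(Finset.mem_filter.1 hs).2]
  ring

theorem exists_coeff {f : ℝ × ℝ → ℂ} (hf : AnalyticAt ℝ f 0) :
    ∃ (c : Idx → ℂ) (M ρ : ℝ), 1 ≤ M ∧ 1 ≤ ρ ∧ Bd c M ρ ∧ ∀ᶠ z in 𝓝 (0 : ℝ × ℝ), f z = S c z := by
  obtain ⟨p, hp⟩ := hf
  obtain ⟨r, hr⟩ := hp
  obtain ⟨C, a, hC, ha, hCa⟩ := p.le_mul_pow_of_radius_pos (hr.r_pos.trans_le hr.r_le)
  set M := max C 1 with hM
  set ρ := max (2 * a) 1 with hρ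
  have hM1 : 1 ≤ M := le_max_right _ _
  have hρ1 : 1 ≤ ρ := le_max_right _ _
  have hbd : Bd (fun q => coef p (q.1 + q.2) q.1) M ρ := by
    intro q
    refine (coef_norm p _ _).trans ?_
    calc 2 ^ (q.1 + q.2) * ‖p (q.1 + q.2)‖ ≤ 2 ^ (q.1 + q.2) * (C * a ^ (q.1 + q.2)) := by
          gcongr
          exact hCa _
      _ = C * (2 * a) ^ (q.1 + q.2) := by rw [mul_pow]; ring
      _ ≤ M * ρ ^ (q.1 + q.2) := by
          gcongr
          · exact le_max_left _ _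
          · exact le_max_left _ _
  refine ⟨_, M, ρ, hM1, hρ1, hbd, ?_⟩
  have h1 : ∀ᶠ z in 𝓝 (0 : ℝ × ℝ), z ∈ Metric.eball (0 : ℝ × ℝ) r :=
    Metric.eball_mem_nhds 0 hr.r_pos
  have h2 : ∀ᶠ z in 𝓝 (0 : ℝ × ℝ), z ∈ Metric.ball (0 : ℝ × ℝ) (1 / (2 * ρ)) :=
    Metric.ball_mem_nhds 0 (by positivity)
  filter_upwards [h1, h2] with z hz1 hz2
  have h3 := hr.hasSum hz1
  rw [zero_add] at h3
  rw [mem_ball_zero_iff] at hz2
  have h4 : |z.1| ≤ 1 / (2 * ρ) := (norm_fst_le z).trans hz2.le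
  have h5 : |z.2| ≤ 1 / (2 * ρ) := (norm_snd_le z).trans hz2.le
  have hs := summable_term hbd (by linarith) (by linarith) h4 h5 (by
    field_simp
    norm_num)
  have h6 := hasSum_antidiag hs.of_norm.hasSum
  have h7 : (fun n => ∑ q ∈ antidiagonal n, term (fun q => coef p (q.1 + q.2) q.1) z q) =
      fun n => p n (fun _ => z) := by
    funext n
    rw [coef_sum, Finset.Nat.sum_antidiagonal_eq_sum_range_succ_mk]
    refine Finset.sum_congr rfl fun i hi => ?_
    unfold term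
    have e : i + (n - i) = n := by
      have := Finset.mem_range.1 hi
      omega
    simp only [e]
  rw [h7] at h6
  exact h3.unique h6

/-- the coefficients of the derivative in the second variable -/
def dy (c : Idx → ℂ) : Idx → ℂ := fun p => ((p.2 : ℂ) + 1) * c (p.1, p.2 + 1)

/-- the coefficients of the derivative in the first variable -/
def dx (c : Idx → ℂ) : Idx → ℂ := fun p => ((p.1 : ℂ) + 1) * c (p.1 + 1, p.2)

lemma Bd_dy {c : Idx → ℂ} {M ρ : ℝ} (hc : Bd c M ρ) (hM : 0 ≤ M) (hρ : 0 ≤ ρ) :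
    Bd (dy c) (M * ρ) (2 * ρ) := by
  intro p
  unfold dy
  rw [norm_mul]
  have h1 : ‖(p.2 : ℂ) + 1‖ ≤ 2 ^ (p.1 + p.2) := by
    have h2 : ‖(p.2 : ℂ) + 1‖ = (p.2 : ℝ) + 1 := by
      have : ((p.2 : ℂ) + 1) = (((p.2 : ℝ) + 1 : ℝ) : ℂ) := by push_cast; rfl
      rw [this, Complex.norm_real, Real.norm_eq_abs, abs_of_nonneg (by positivity)]
    rw [h2]
    have h3 : p.2 + 1 ≤ 2 ^ p.2 := Nat.lt_two_pow_self
    have h4 : (2 : ℕ) ^ p.2 ≤ 2 ^ (p.1 + p.2) := Nat.pow_le_pow_right (by norm_num) (by omega)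
    exact_mod_cast h3.trans h4
  calc ‖(p.2 : ℂ) + 1‖ * ‖c (p.1, p.2 + 1)‖ ≤ 2 ^ (p.1 + p.2) * (M * ρ ^ (p.1 + (p.2 + 1))) := by
        gcongr
        exact hc _
    _ = M * ρ * (2 * ρ) ^ (p.1 + p.2) := by rw [← add_assoc, pow_succ, mul_pow]; ring

lemma summable_deriv {q : ℝ} (h0 : 0 ≤ q) (h1 : q < 1) :
    Summable (fun p : Idx => q ^ p.1 * ((p.2 : ℝ) * q ^ p.2)) := by
  have h2 : Summable (fun n : ℕ => (n : ℝ) * q ^ n) := by
    have := summable_pow_mul_geometric_of_norm_lt_one 1 (r := q)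
      (by rwa [Real.norm_eq_abs, abs_of_nonneg h0])
    simpa using this
  exact (summable_geometric_of_lt_one h0 h1).mul_of_nonneg h2
    (fun n => pow_nonneg h0 n) (fun n => by positivity)

theorem hasDeriv_y {c : Idx → ℂ} {M ρ : ℝ} (hc : Bd c M ρ) (hM : 0 ≤ M) (hρ : 0 < ρ)
    {x y τ : ℝ} (hτ : 0 < τ) (hρτ : ρ * τ < 1) (hx : |x| < τ) (hy : |y| < τ) :
    HasDerivAt (fun t : ℝ => S c (x, t)) (S (dy c) (x, y)) y := by
  have hyI : y ∈ Ioo (-τ) τ := abs_lt.1 hy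
  have h := hasDerivAt_tsum_of_isPreconnected
    (u := fun p : Idx => M / τ * ((ρ * τ) ^ p.1 * ((p.2 : ℝ) * (ρ * τ) ^ p.2)))
    (g := fun (p : Idx) (t : ℝ) => term c (x, t) p)
    (g' := fun (p : Idx) (t : ℝ) => c p * (x : ℂ) ^ p.1 * ((p.2 : ℂ) * (t : ℂ) ^ (p.2 - 1)))
    (t := Ioo (-τ) τ) (y₀ := 0) (y := y)
    ((summable_deriv (by positivity) hρτ).mul_left _) isOpen_Ioo isPreconnected_Ioo
    (fun p t _ => by
      unfold term
      simp only
      have h1 : HasDerivAt (fun t : ℝ => (t : ℂ) ^ p.2) ((p.2 : ℂ) * (t : ℂ) ^ (p.2 - 1)) t := by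
        have h2 := (hasDerivAt_pow p.2 (t : ℂ)).comp_ofReal
        exact h2
      exact h1.const_mul _)
    (fun p t ht => by
      have htabs : |t| ≤ τ := (abs_lt.2 ht).le
      rw [norm_mul, norm_mul, norm_mul, norm_pow, norm_pow, Complex.norm_real, Complex.norm_real,
        Complex.norm_natCast, Real.norm_eq_abs, Real.norm_eq_abs]
      have hcp := hc p
      rcases Nat.eq_zero_or_pos p.2 with h0 | h0
      · rw [h0]; simp
      · have e : M / τ * ((ρ * τ) ^ p.1 * ((p.2 : ℝ) * (ρ * τ) ^ p.2)) =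
            (M * ρ ^ (p.1 + p.2)) * τ ^ p.1 * ((p.2 : ℝ) * τ ^ (p.2 - 1)) := by
          obtain ⟨k, hk⟩ : ∃ k, p.2 = k + 1 := ⟨p.2 - 1, by omega⟩
          rw [hk, Nat.add_sub_cancel, mul_pow, mul_pow, pow_add ρ p.1 (k + 1), pow_succ τ k]
          field_simp
        rw [e]
        gcongr)
    ⟨by linarith, hτ⟩
    (by
      have := summable_term hc hM hρ.le (z := (x, 0)) hx.le (by simpa using hτ.le) hρτ
      exact this.of_norm)
    hyI
  have e : (∑' p : Idx, c p * (x : ℂ) ^ p.1 * ((p.2 : ℂ) * (y : ℂ) ^ (p.2 - 1))) =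
      S (dy c) (x, y) := by
    unfold S
    have hinj : Function.Injective (fun p : Idx => ((p.1, p.2 + 1) : Idx)) := by
      intro p q hpq
      simp only [Prod.mk.injEq, Nat.add_right_cancel_iff] at hpq
      exact Prod.ext hpq.1 hpq.2
    rw [← hinj.tsum_eq (f := fun p : Idx => c p * (x : ℂ) ^ p.1 * ((p.2 : ℂ) * (y : ℂ) ^ (p.2 - 1)))]
    · refine tsum_congr fun p => ?_
      unfold term dy
      simp only [Nat.add_sub_cancel]
      push_cast
      ring
    · intro p hp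
      rw [Function.mem_support] at hp
      have h0 : p.2 ≠ 0 := by
        intro h0
        apply hp
        rw [h0]
        simp
      exact ⟨(p.1, p.2 - 1), Prod.ext rfl (Nat.sub_add_cancel (Nat.one_le_iff_ne_zero.2 h0))⟩
  rw [e] at h
  exact h

end Pool.Agent.Helper962.DPS
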