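import Mathlib
import Pool.Agent.Helper962.K2

set_option autoImplicit false

namespace Pool.Agent.Helper962.DPS

open Set Filter Topology Finset
open scoped ENNReal NNReal

lemma S_swap (c : Idx → ℂ) (x y : ℝ) : S c (x, y) = S (fun p => c p.swap) (y, x) := by
  unfold S
  rw [← (Equiv.prodComm ℕ ℕ).tsum_eq (fun p => term c (x, y) p)]
  refine tsum_congr fun p => ?_
  unfold term
  simp only [Equiv.prodComm_apply, Prod.fst_swap, Prod.snd_swap]
  ring

lemma Bd_swap {c : Idx → ℂ} {M ρ : ℝ} (hc : Bd c M ρ) : Bd (fun p => c p.swap) M ρ := by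
  intro p
  have := hc p.swap
  rw [Prod.fst_swap, Prod.snd_swap, add_comm] at this
  exact this

lemma Bd_dx {c : Idx → ℂ} {M ρ : ℝ} (hc : Bd c M ρ) (hM : 0 ≤ M) (hρ : 0 ≤ ρ) :
    Bd (dx c) (M * ρ) (2 * ρ) := by
  have h := Bd_swap (Bd_dy (Bd_swap hc) hM hρ)
  exact h

theorem hasDeriv_x {c : Idx → ℂ} {M ρ : ℝ} (hc : Bd c M ρ) (hM : 0 ≤ M) (hρ : 0 < ρ)
    {x y τ : ℝ} (hτ : 0 < τ) (hρτ : ρ * τ < 1) (hx : |x| < τ) (hy : |y| < τ) :
    HasDerivAt (fun t : ℝ => S c (t, y)) (S (dx c) (x, y)) x := by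
  have h := hasDeriv_y (Bd_swap hc) hM hρ hτ hρτ hy hx
  have e1 : (fun t : ℝ => S c (t, y)) = fun t : ℝ => S (fun p => c p.swap) (y, t) := by
    funext t
    exact S_swap c t y
  rw [e1, S_swap (dx c) x y]
  exact h

/-- regrouping of pairs -/
def pairEmb : (ℕ × ℕ) × (ℕ × ℕ) ↪ (ℕ × ℕ) × (ℕ × ℕ) :=
  ⟨fun q => ((q.1.1, q.2.1), (q.1.2, q.2.2)), by
    rintro ⟨⟨a, b⟩, ⟨c, d⟩⟩ ⟨⟨a', b'⟩, ⟨c', d'⟩⟩ h
    simp only [Prod.mk.injEq] at h ⊢
    tauto⟩

lemma pairEmb_apply (q : (ℕ × ℕ) × (ℕ × ℕ)) : pairEmb q = ((q.1.1, q.2.1), (q.1.2, q.2.2)) := rfl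

/-- antidiagonal of pairs -/
instance : Finset.HasAntidiagonal (ℕ × ℕ) where
  antidiagonal n := ((antidiagonal n.1) ×ˢ (antidiagonal n.2)).map pairEmb
  mem_antidiagonal := by
    rintro ⟨n, m⟩ ⟨⟨a, b⟩, ⟨c, d⟩⟩
    rw [Finset.mem_map]
    constructor
    · rintro ⟨⟨⟨a1, b1⟩, ⟨c1, d1⟩⟩, h, h'⟩
      rw [Finset.mem_product, HasAntidiagonal.mem_antidiagonal,
        HasAntidiagonal.mem_antidiagonal] at h
      rw [pairEmb_apply] at h'
      simp only [Prod.mk.injEq] at h' h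
      simp only [Prod.mk_add_mk, Prod.mk.injEq]
      omega
    · intro h
      simp only [Prod.mk_add_mk, Prod.mk.injEq] at h
      refine ⟨((a, c), (b, d)), ?_, rfl⟩
      rw [Finset.mem_product, HasAntidiagonal.mem_antidiagonal,
        HasAntidiagonal.mem_antidiagonal]
      exact h

/-- product of coefficient families -/
def conv (a b : Idx → ℂ) : Idx → ℂ := fun n =>
  ∑ s ∈ antidiagonal n.2, ∑ t ∈ antidiagonal n.1, a (t.1, s.1) * b (t.2, s.2)

lemma sum_antidiag_pair (n : ℕ × ℕ) (F : (ℕ × ℕ) × (ℕ × ℕ) → ℂ) :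
    ∑ q ∈ antidiagonal n, F q =
      ∑ s ∈ antidiagonal n.2, ∑ t ∈ antidiagonal n.1, F ((t.1, s.1), (t.2, s.2)) := by
  show ∑ q ∈ ((antidiagonal n.1) ×ˢ (antidiagonal n.2)).map pairEmb, F q = _
  rw [Finset.sum_map, Finset.sum_product_right]
  rfl

theorem S_mul {a b : Idx → ℂ} {M ρ M' ρ' : ℝ} (ha : Bd a M ρ) (hM : 0 ≤ M) (hρ : 0 ≤ ρ)
    (hb : Bd b M' ρ') (hM' : 0 ≤ M') (hρ' : 0 ≤ ρ') {z : ℝ × ℝ} {t : ℝ} (h1 : |z.1| ≤ t)
    (h2 : |z.2| ≤ t) (ht : ρ * t < 1) (ht' : ρ' * t < 1) :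
    S a z * S b z = S (conv a b) z := by
  unfold S
  have hsa := summable_term ha hM hρ h1 h2 ht
  have hsb := summable_term hb hM' hρ' h1 h2 ht'
  rw [Summable.tsum_mul_tsum_eq_tsum_sum_antidiagonal hsa.of_norm hsb.of_norm
    (summable_mul_of_summable_norm hsa hsb)]
  refine tsum_congr fun n => ?_
  rw [sum_antidiag_pair]
  unfold term conv
  rw [Finset.sum_mul, Finset.sum_mul]
  refine Finset.sum_congr rfl fun s hs => ?_
  rw [Finset.sum_mul, Finset.sum_mul]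
  refine Finset.sum_congr rfl fun u hu => ?_
  have e1 := mem_antidiagonal.1 hs
  have e2 := mem_antidiagonal.1 hu
  rw [← e1, ← e2, pow_add, pow_add]
  ring

/-- coefficients of the solution of the Cauchy problem `w_y = κ w_x`, `w(x, 0) = x` -/
noncomputable def W (κ : Idx → ℂ) : ℕ → ℕ → ℂ
  | 0, i => if i = 1 then 1 else 0
  | j + 1, i => (1 / ((j : ℂ) + 1)) * ∑ s : (antidiagonal j : Finset (ℕ × ℕ)),
      ∑ t ∈ antidiagonal i, κ (t.1, s.1.1) * (((t.2 : ℂ) + 1) * W κ s.1.2 (t.2 + 1))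
termination_by j _ => j
decreasing_by
  have := mem_antidiagonal.1 s.2
  omega

lemma W_zero (κ : Idx → ℂ) (i : ℕ) : W κ 0 i = if i = 1 then 1 else 0 := by
  rw [W]

lemma W_succ (κ : Idx → ℂ) (j i : ℕ) : ((j : ℂ) + 1) * W κ (j + 1) i =
    ∑ s ∈ antidiagonal j, ∑ t ∈ antidiagonal i,
      κ (t.1, s.1) * (((t.2 : ℂ) + 1) * W κ s.2 (t.2 + 1)) := by
  rw [W, ← mul_assoc, mul_one_div_cancel (Nat.cast_add_one_ne_zero j), one_mul]
  exact Finset.sum_coe_sort (antidiagonal j) (fun s => ∑ t ∈ antidiagonal i,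
    κ (t.1, s.1) * (((t.2 : ℂ) + 1) * W κ s.2 (t.2 + 1)))

/-- `(a + b + 1) binom (a + b, a)` is monotone -/
lemma c_mono {a b i j : ℕ} (ha : a ≤ i) (hb : b ≤ j) :
    (a + b + 1) * (a + b).choose a ≤ (i + j + 1) * (i + j).choose i := by
  refine Nat.mul_le_mul (by omega) ?_
  have h1 : (a + b).choose a ≤ (a + j).choose a := Nat.choose_le_choose _ (by omega)
  have h2 : (a + j).choose a ≤ (i + j).choose i := by
    have e1 : (a + j).choose a = (a + j).choose j := by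
      rw [← Nat.choose_symm_add]
    have e2 : (i + j).choose i = (i + j).choose j := by
      rw [← Nat.choose_symm_add]
    rw [e1, e2]
    exact Nat.choose_le_choose _ (by omega)
  exact h1.trans h2

lemma c_left (a b : ℕ) : (a + 1) * (a + 1 + b).choose (a + 1) = (a + b + 1) * (a + b).choose a := by
  have h := Nat.add_one_mul_choose_eq (a + b) a
  have e : a + 1 + b = a + b + 1 := by omega
  rw [e, h]
  ring

lemma c_right (i j : ℕ) : (j + 1) * (i + (j + 1)).choose i = (i + j + 1) * (i + j).choose i := by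
  have h := c_left j i
  have e1 : j + 1 + i = i + (j + 1) := by omega
  have e2 : (i + (j + 1)).choose (j + 1) = (i + (j + 1)).choose i := by
    rw [← Nat.choose_symm_add]
  have e3 : (j + i).choose j = (i + j).choose i := by
    rw [Nat.add_comm j i, ← Nat.choose_symm_add]
  rw [e1, e2, e3] at h
  rw [h]
  ring

end Pool.Agent.Helper962.DPS
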