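import Mathlib
import Pool.Agent.Helper962.K3

set_option autoImplicit false

namespace Pool.Agent.Helper962.DPS

open Set Filter Topology Finset
open scoped ENNReal NNReal

lemma antidiag_geo {ρ A : ℝ} (hρ : 0 ≤ ρ) (hA : 2 * ρ ≤ A) (i : ℕ) :
    ∑ t ∈ antidiagonal i, ρ ^ t.1 * A ^ t.2 ≤ 2 * A ^ i := by
  have hA0 : 0 ≤ A := by linarith
  induction i with
  | zero => simp
  | succ i ih =>
    rw [Finset.Nat.sum_antidiagonal_succ]
    have e : ∑ p ∈ antidiagonal i, ρ ^ (p.1 + 1) * A ^ p.2 =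
        ρ * ∑ p ∈ antidiagonal i, ρ ^ p.1 * A ^ p.2 := by
      rw [Finset.mul_sum]
      refine Finset.sum_congr rfl fun p _ => ?_
      ring
    rw [e]
    have h1 : ρ * ∑ p ∈ antidiagonal i, ρ ^ p.1 * A ^ p.2 ≤ ρ * (2 * A ^ i) :=
      mul_le_mul_of_nonneg_left ih hρ
    have h2 : 2 * ρ * A ^ i ≤ A * A ^ i := mul_le_mul_of_nonneg_right hA (pow_nonneg hA0 i)
    rw [pow_zero, one_mul, pow_succ]
    nlinarith

theorem W_bound {κ : Idx → ℂ} {M ρ : ℝ} (hκ : Bd κ M ρ) (hM : 1 ≤ M) (hρ : 1 ≤ ρ) :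
    ∀ j i : ℕ, ‖W κ j i‖ ≤ ((i + j).choose i : ℝ) * (2 * ρ) ^ i * (8 * M * ρ) ^ j := by
  intro j
  induction j using Nat.strong_induction_on with
  | _ j ih =>
    intro i
    rcases j with _ | j
    · rw [W_zero]
      split_ifs with h
      · subst h
        simp
        linarith
      · rw [norm_zero]
        positivity
    · set A := 2 * ρ with hA
      set B := 8 * M * ρ with hB
      have hA0 : 0 < A := by positivity
      have hB0 : 0 < B := by positivity
      have hAB : 2 * ρ ≤ B := by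
        rw [hB]
        nlinarith
      set C : ℝ := (((i + j + 1) * (i + j).choose i : ℕ) : ℝ) with hC
      have h1 : ((j : ℝ) + 1) * ‖W κ (j + 1) i‖ ≤ C * A ^ i * B ^ (j + 1) := by
        have h2 : ((j : ℝ) + 1) * ‖W κ (j + 1) i‖ = ‖((j : ℂ) + 1) * W κ (j + 1) i‖ := by
          rw [norm_mul]
          congr 1
          have : ((j : ℂ) + 1) = (((j : ℝ) + 1 : ℝ) : ℂ) := by push_cast; rfl
          rw [this, Complex.norm_real, Real.norm_eq_abs, abs_of_nonneg (by positivity)]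
        rw [h2, W_succ]
        have h3 : ∀ s ∈ antidiagonal j, ∀ t ∈ antidiagonal i,
            ‖κ (t.1, s.1) * (((t.2 : ℂ) + 1) * W κ s.2 (t.2 + 1))‖ ≤
              (M * C * A) * ((ρ ^ s.1 * B ^ s.2) * (ρ ^ t.1 * A ^ t.2)) := by
          intro s hs t ht
          have e1 := HasAntidiagonal.mem_antidiagonal.1 hs
          have e2 := HasAntidiagonal.mem_antidiagonal.1 ht
          rw [norm_mul, norm_mul]
          have h4 : ‖(t.2 : ℂ) + 1‖ = (t.2 : ℝ) + 1 := by
            have : ((t.2 : ℂ) + 1) = (((t.2 : ℝ) + 1 : ℝ) : ℂ) := by push_cast; rfl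
            rw [this, Complex.norm_real, Real.norm_eq_abs, abs_of_nonneg (by positivity)]
          rw [h4]
          have h5 := ih s.2 (by omega) (t.2 + 1)
          have h6 := hκ (t.1, s.1)
          have h7 : ((t.2 : ℝ) + 1) * ((t.2 + 1 + s.2).choose (t.2 + 1) : ℝ) ≤ C := by
            have h8 := c_left t.2 s.2
            have h9 := c_mono (a := t.2) (b := s.2) (i := i) (j := j) (by omega) (by omega)
            rw [← h8] at h9
            rw [hC]
            exact_mod_cast h9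
          calc ‖κ (t.1, s.1)‖ * (((t.2 : ℝ) + 1) * ‖W κ s.2 (t.2 + 1)‖)
              ≤ (M * ρ ^ (t.1 + s.1)) * (((t.2 : ℝ) + 1) *
                (((t.2 + 1 + s.2).choose (t.2 + 1) : ℝ) * A ^ (t.2 + 1) * B ^ s.2)) := by
                gcongr
            _ = (((t.2 : ℝ) + 1) * ((t.2 + 1 + s.2).choose (t.2 + 1) : ℝ)) *
                ((M * A) * ((ρ ^ s.1 * B ^ s.2) * (ρ ^ t.1 * A ^ t.2))) := by
                rw [pow_add ρ, pow_succ A]; ring
            _ ≤ C * ((M * A) * ((ρ ^ s.1 * B ^ s.2) * (ρ ^ t.1 * A ^ t.2))) := by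
                gcongr
            _ = (M * C * A) * ((ρ ^ s.1 * B ^ s.2) * (ρ ^ t.1 * A ^ t.2)) := by ring
        have h10 : ‖∑ s ∈ antidiagonal j, ∑ t ∈ antidiagonal i,
            κ (t.1, s.1) * (((t.2 : ℂ) + 1) * W κ s.2 (t.2 + 1))‖ ≤
            ∑ s ∈ antidiagonal j, ∑ t ∈ antidiagonal i,
              (M * C * A) * ((ρ ^ s.1 * B ^ s.2) * (ρ ^ t.1 * A ^ t.2)) := by
          refine (norm_sum_le _ _).trans (Finset.sum_le_sum fun s hs => ?_)
          exact (norm_sum_le _ _).trans (Finset.sum_le_sum fun t ht => h3 s hs t ht)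
        refine h10.trans ?_
        have h11 : ∑ s ∈ antidiagonal j, ∑ t ∈ antidiagonal i,
              (M * C * A) * ((ρ ^ s.1 * B ^ s.2) * (ρ ^ t.1 * A ^ t.2)) =
            (M * C * A) * ((∑ s ∈ antidiagonal j, ρ ^ s.1 * B ^ s.2) *
              (∑ t ∈ antidiagonal i, ρ ^ t.1 * A ^ t.2)) := by
          rw [Finset.sum_mul_sum, Finset.mul_sum]
          refine Finset.sum_congr rfl fun s _ => ?_
          rw [Finset.mul_sum]
        rw [h11]
        have h12 := antidiag_geo (ρ := ρ) (A := B) (by linarith) hAB j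
        have h13 := antidiag_geo (ρ := ρ) (A := A) (by linarith) le_rfl i
        calc (M * C * A) * ((∑ s ∈ antidiagonal j, ρ ^ s.1 * B ^ s.2) *
              (∑ t ∈ antidiagonal i, ρ ^ t.1 * A ^ t.2))
            ≤ (M * C * A) * ((2 * B ^ j) * (2 * A ^ i)) := by
              gcongr
          _ = C * A ^ i * B ^ (j + 1) := by
              rw [pow_succ B]
              have : B = 4 * M * A := by rw [hB, hA]; ring
              rw [this]
              ring
      have h14 : C = ((j : ℝ) + 1) * ((i + (j + 1)).choose i : ℝ) := by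
        rw [hC, ← c_right]
        push_cast
        ring
      rw [h14] at h1
      have h15 : (0 : ℝ) < (j : ℝ) + 1 := by positivity
      refine le_of_mul_le_mul_left (h1.trans_eq ?_) h15
      ring

/-- Cauchy–Kovalevskaya for `w_y = κ w_x`. -/
theorem exists_solution {κ : ℝ × ℝ → ℂ} (hκ : AnalyticAt ℝ κ 0) :
    ∃ w : ℝ × ℝ → ℂ, AnalyticAt ℝ w 0 ∧ fderiv ℝ w 0 (1, 0) = 1 ∧
      ∀ᶠ z in 𝓝 (0 : ℝ × ℝ), fderiv ℝ w z (0, 1) = κ z * fderiv ℝ w z (1, 0) := by
  obtain ⟨k, M, ρ, hM, hρ, hk, hkS⟩ := exists_coeff hκ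
  set c : Idx → ℂ := fun p => W k p.2 p.1 with hc
  set R : ℝ := 2 * (8 * M * ρ) with hR
  have hR0 : 0 < R := by positivity
  have hbd : Bd c 1 R := by
    intro p
    refine (W_bound hk hM hρ p.2 p.1).trans ?_
    have h1 : ((p.1 + p.2).choose p.1 : ℝ) ≤ 2 ^ (p.1 + p.2) := by
      exact_mod_cast Nat.choose_le_two_pow _ _
    have h2 : 2 * ρ ≤ 8 * M * ρ := by nlinarith
    calc ((p.1 + p.2).choose p.1 : ℝ) * (2 * ρ) ^ p.1 * (8 * M * ρ) ^ p.2
        ≤ 2 ^ (p.1 + p.2) * (8 * M * ρ) ^ p.1 * (8 * M * ρ) ^ p.2 := by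
          gcongr
      _ = 1 * R ^ (p.1 + p.2) := by
          rw [hR]
          generalize 8 * M * ρ = Q
          rw [mul_pow, pow_add Q]; ring
  have hdx := Bd_dx hbd zero_le_one hR0.le
  have hconv : conv k (dx c) = dy c := by
    funext p
    unfold conv dx dy
    simp only [hc]
    exact (W_succ k p.2 p.1).symm
  have han : AnalyticAt ℝ (S c) 0 := analyticAt_S hbd zero_le_one hR0
  have hdiff : ∀ᶠ z in 𝓝 (0 : ℝ × ℝ), DifferentiableAt ℝ (S c) z :=
    han.eventually_analyticAt.mono fun z hz => hz.differentiableAt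
  set τ : ℝ := 1 / (4 * R + 4 * ρ) with hτ
  have hτ0 : 0 < τ := by positivity
  have hRτ : R * τ < 1 := by
    rw [hτ]
    rw [mul_one_div, div_lt_one (by positivity)]
    linarith
  have h2Rτ : 2 * R * τ < 1 := by
    rw [hτ]
    rw [mul_one_div, div_lt_one (by positivity)]
    linarith
  have hρτ : ρ * τ < 1 := by
    rw [hτ]
    rw [mul_one_div, div_lt_one (by positivity)]
    linarith
  have hball : ∀ᶠ z in 𝓝 (0 : ℝ × ℝ), z ∈ Metric.ball (0 : ℝ × ℝ) τ :=
    Metric.ball_mem_nhds 0 hτ0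
  have hpart : ∀ᶠ z in 𝓝 (0 : ℝ × ℝ), fderiv ℝ (S c) z (1, 0) = S (dx c) z ∧
      fderiv ℝ (S c) z (0, 1) = S (dy c) z ∧ |z.1| < τ ∧ |z.2| < τ := by
    filter_upwards [hdiff, hball] with z hz1 hz2
    rw [mem_ball_zero_iff] at hz2
    have h4 : |z.1| < τ := (norm_fst_le z).trans_lt hz2
    have h5 : |z.2| < τ := (norm_snd_le z).trans_lt hz2
    refine ⟨?_, ?_, h4, h5⟩
    · have h6 := hasDeriv_x hbd zero_le_one hR0 hτ0 hRτ h4 h5
      have h7 : HasDerivAt (fun t : ℝ => ((t, z.2) : ℝ × ℝ)) (1, 0) z.1 :=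
        (hasDerivAt_id z.1).prodMk (hasDerivAt_const z.1 z.2)
      have h8 := HasFDerivAt.comp_hasDerivAt (l := S c) (f := fun t : ℝ => ((t, z.2) : ℝ × ℝ))
        z.1 hz1.hasFDerivAt h7
      exact h8.unique h6
    · have h6 := hasDeriv_y hbd zero_le_one hR0 hτ0 hRτ h4 h5
      have h7 : HasDerivAt (fun t : ℝ => ((z.1, t) : ℝ × ℝ)) (0, 1) z.2 :=
        (hasDerivAt_const z.2 z.1).prodMk (hasDerivAt_id z.2)
      have h8 := HasFDerivAt.comp_hasDerivAt (l := S c) (f := fun t : ℝ => ((z.1, t) : ℝ × ℝ))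
        z.2 hz1.hasFDerivAt h7
      exact h8.unique h6
  refine ⟨S c, han, ?_, ?_⟩
  · rw [hpart.self_of_nhds.1]
    unfold S
    rw [tsum_eq_single ((0, 0) : Idx)]
    · unfold term dx
      simp [hc, W_zero]
    · intro p hp
      unfold term
      rcases p with ⟨i, j⟩
      rcases Nat.eq_zero_or_pos i with h | h
      · rcases Nat.eq_zero_or_pos j with h' | h'
        · subst h h'
          exact absurd rfl hp
        · simp [h'.ne']
      · simp [h.ne']
  · filter_upwards [hpart, hkS] with z hz hzk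
    obtain ⟨h1, h2, h3, h4⟩ := hz
    rw [h1, h2, hzk, S_mul hk (by linarith) (by linarith) hdx (by linarith) (by linarith)
      h3.le h4.le hρτ h2Rτ, hconv]

end Pool.Agent.Helper962.DPS
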