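import Mathlib
import Pool.Agent.Helper962.F2
import Pool.Agent.Helper962.K4

set_option autoImplicit false

namespace Pool.Agent.Helper962.Flat

open Set Filter Topology
open scoped RealInnerProductSpace ContDiff

lemma exists_local_inverse {E F : Type*} [NormedAddCommGroup E] [NormedSpace ℝ E] [CompleteSpace E]
    [NormedAddCommGroup F] [NormedSpace ℝ F] {f : E → F} {x : E} (hf : AnalyticAt ℝ f x)
    (L : E ≃L[ℝ] F) (hL : HasFDerivAt f (L : E →L[ℝ] F) x) :
    ∃ k : F → E, AnalyticAt ℝ k (f x) ∧ k (f x) = x ∧ ∀ᶠ y in 𝓝 x, k (f y) = y := by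
  have hs : HasStrictFDerivAt f (L : E →L[ℝ] F) x := by
    have := hf.hasStrictFDerivAt
    rwa [hL.fderiv] at this
  let e := hs.toOpenPartialHomeomorph f
  have hx : x ∈ e.source := hs.mem_toOpenPartialHomeomorph_source
  refine ⟨e.symm, ?_, e.left_inv hx, ?_⟩
  · exact e.analyticAt_symm' (i := L) hx hf hL.fderiv
  · filter_upwards [e.open_source.mem_nhds hx] with y hy using e.left_inv hy

/-- existence of isothermal coordinates, translated to an arbitrary point -/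
lemma exists_iso_coord {κ : V → ℂ} {a : V} (hκ : AnalyticAt ℝ κ a) :
    ∃ w : V → ℂ, AnalyticAt ℝ w a ∧ fderiv ℝ w a (1, 0) = 1 ∧
      ∀ᶠ z in 𝓝 a, fderiv ℝ w z (0, 1) = κ z * fderiv ℝ w z (1, 0) := by
  have h1 : AnalyticAt ℝ (fun z : V => κ (a + z)) 0 := by
    refine AnalyticAt.comp (g := κ) (f := fun z : V => a + z) ?_ (analyticAt_const.add analyticAt_id)
    rwa [add_zero]
  obtain ⟨w, hw, hw1, hw2⟩ := DPS.exists_solution h1
  have hfd : ∀ z : V, fderiv ℝ (fun x : V => w (x - a)) z = fderiv ℝ w (z - a) :=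
    fun z => fderiv_comp_sub a
  refine ⟨fun x => w (x - a), ?_, ?_, ?_⟩
  · refine AnalyticAt.comp (g := w) (f := fun z : V => z - a) ?_ (analyticAt_id.sub analyticAt_const)
    rwa [sub_self]
  · rw [hfd, sub_self]
    exact hw1
  · have h2 : Tendsto (fun z : V => z - a) (𝓝 a) (𝓝 0) := by
      have : ContinuousAt (fun z : V => z - a) a := by fun_prop
      simpa [ContinuousAt] using this
    filter_upwards [h2.eventually hw2] with z hz
    rw [hfd, hz]
    simp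

lemma two_vec {P P' Q Q' : ℝ} (h1 : P ^ 2 + P' ^ 2 = Q ^ 2 + Q' ^ 2) (h2 : P * Q + P' * Q' = 0)
    (h3 : 0 < P * Q' - P' * Q) : Q = -P' ∧ Q' = P := by
  have h4 : (P * Q' - P' * Q) ^ 2 = (P ^ 2 + P' ^ 2) ^ 2 := by
    have : (P * Q' - P' * Q) ^ 2 + (P * Q + P' * Q') ^ 2 = (P ^ 2 + P' ^ 2) * (Q ^ 2 + Q' ^ 2) := by
      ring
    rw [h2, ← h1] at this
    nlinarith
  have h5 : P * Q' - P' * Q = P ^ 2 + P' ^ 2 := by
    have h6 : 0 ≤ P ^ 2 + P' ^ 2 := by positivity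
    exact (pow_left_inj₀ h3.le h6 (by norm_num)).1 h4
  have h7 : (Q + P') ^ 2 + (Q' - P) ^ 2 = 0 := by nlinarith
  constructor <;> nlinarith [sq_nonneg (Q + P'), sq_nonneg (Q' - P)]

lemma key_alg {A B C j : ℝ} {p q : V} {k : ℂ} (hA0 : 0 < A) (hj : 0 < j)
    (hJsq : j ^ 2 = A * C - B ^ 2) (hdet : 0 < p.1 * q.2 - p.2 * q.1)
    (g11 : p.1 * p.1 * A + (p.1 * p.2 + p.2 * p.1) * B + p.2 * p.2 * C = 1)
    (g12 : p.1 * q.1 * A + (p.1 * q.2 + p.2 * q.1) * B + p.2 * q.2 * C = 0)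
    (g22 : q.1 * q.1 * A + (q.1 * q.2 + q.2 * q.1) * B + q.2 * q.2 * C = 1)
    (hk : k = ((B / A : ℝ) : ℂ) + ((j / A : ℝ) : ℂ) * Complex.I) :
    (q.1 : ℂ) + k * q.2 = Complex.I * ((p.1 : ℂ) + k * p.2) := by
  have hA : A ≠ 0 := hA0.ne'
  have hvec := two_vec (P := p.1 + B / A * p.2) (P' := j / A * p.2) (Q := q.1 + B / A * q.2)
    (Q' := j / A * q.2) (by
      have h1 : (A * p.1 + B * p.2) ^ 2 + (j * p.2) ^ 2 = A := by
        have : (A * p.1 + B * p.2) ^ 2 + (j * p.2) ^ 2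
          = A * (p.1 * p.1 * A + (p.1 * p.2 + p.2 * p.1) * B + p.2 * p.2 * C)
            + p.2 ^ 2 * (j ^ 2 - (A * C - B ^ 2)) := by ring
        rw [this, g11, hJsq]; ring
      have h2 : (A * q.1 + B * q.2) ^ 2 + (j * q.2) ^ 2 = A := by
        have : (A * q.1 + B * q.2) ^ 2 + (j * q.2) ^ 2
          = A * (q.1 * q.1 * A + (q.1 * q.2 + q.2 * q.1) * B + q.2 * q.2 * C)
            + q.2 ^ 2 * (j ^ 2 - (A * C - B ^ 2)) := by ring
        rw [this, g22, hJsq]; ring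
      have h3 : (p.1 + B / A * p.2) ^ 2 + (j / A * p.2) ^ 2 =
          ((A * p.1 + B * p.2) ^ 2 + (j * p.2) ^ 2) / A ^ 2 := by field_simp
      have h4 : (q.1 + B / A * q.2) ^ 2 + (j / A * q.2) ^ 2 =
          ((A * q.1 + B * q.2) ^ 2 + (j * q.2) ^ 2) / A ^ 2 := by field_simp
      rw [h3, h4, h1, h2]) (by
      have h1 : (A * p.1 + B * p.2) * (A * q.1 + B * q.2) + j ^ 2 * p.2 * q.2 = 0 := by
        have : (A * p.1 + B * p.2) * (A * q.1 + B * q.2) + j ^ 2 * p.2 * q.2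
          = A * (p.1 * q.1 * A + (p.1 * q.2 + p.2 * q.1) * B + p.2 * q.2 * C)
            + p.2 * q.2 * (j ^ 2 - (A * C - B ^ 2)) := by ring
        rw [this, g12, hJsq]; ring
      have h3 : (p.1 + B / A * p.2) * (q.1 + B / A * q.2) + j / A * p.2 * (j / A * q.2) =
          ((A * p.1 + B * p.2) * (A * q.1 + B * q.2) + j ^ 2 * p.2 * q.2) / A ^ 2 := by
        field_simp
      rw [h3, h1, zero_div]) (by
      have : (p.1 + B / A * p.2) * (j / A * q.2) - j / A * p.2 * (q.1 + B / A * q.2)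
          = j / A * (p.1 * q.2 - p.2 * q.1) := by ring
      rw [this]
      positivity)
  rw [hk]
  have e1 : ((q.1 : ℂ) + (((B / A : ℝ) : ℂ) + ((j / A : ℝ) : ℂ) * Complex.I) * q.2) =
      ((q.1 + B / A * q.2 : ℝ) : ℂ) + ((j / A * q.2 : ℝ) : ℂ) * Complex.I := by
    push_cast; ring
  have e2 : ((p.1 : ℂ) + (((B / A : ℝ) : ℂ) + ((j / A : ℝ) : ℂ) * Complex.I) * p.2) =
      ((p.1 + B / A * p.2 : ℝ) : ℂ) + ((j / A * p.2 : ℝ) : ℂ) * Complex.I := by
    push_cast; ring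
  rw [e1, e2, hvec.1, hvec.2]
  push_cast
  have hI : Complex.I * Complex.I = -1 := Complex.I_mul_I
  linear_combination (-((j : ℂ) / A * p.2)) * hI

/-- Regularity in the parameter plane: if `ψ` is an analytic immersion at `a z0`, `a` is `C¹` near
`z0` with derivative the identity at `z0`, and `ψ ∘ a` is isometric, then `a` is analytic. -/
theorem analytic_param {ψ : V → E3} {a : V → V} {z0 : V} (hψ : AnalyticAt ℝ ψ (a z0))
    (hd : ∀ᶠ z in 𝓝 z0, DifferentiableAt ℝ a z) (hc : ContinuousAt (fderiv ℝ a) z0)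
    (ha0 : fderiv ℝ a z0 = ContinuousLinearMap.id ℝ V)
    (hiso : ∀ᶠ z in 𝓝 z0, ∀ u v : V, ⟪fderiv ℝ ψ (a z) (fderiv ℝ a z u),
      fderiv ℝ ψ (a z) (fderiv ℝ a z v)⟫ = dot u v) : AnalyticAt ℝ a z0 := by
  have hac : ContinuousAt a z0 := (hd.self_of_nhds).continuousAt
  -- metric coefficients
  set h11 : V → ℝ := fun w => ⟪fderiv ℝ ψ w (1, 0), fderiv ℝ ψ w (1, 0)⟫ with hh11
  set h12 : V → ℝ := fun w => ⟪fderiv ℝ ψ w (1, 0), fderiv ℝ ψ w (0, 1)⟫ with hh12
  set h22 : V → ℝ := fun w => ⟪fderiv ℝ ψ w (0, 1), fderiv ℝ ψ w (0, 1)⟫ with hh22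
  have hinner : ∀ {f k : V → E3} {w : V}, AnalyticAt ℝ f w → AnalyticAt ℝ k w →
      AnalyticAt ℝ (fun q => ⟪f q, k q⟫) w := by
    intro f k w hf hk
    exact AnalyticAt.comp (g := fun q : E3 × E3 => innerSL ℝ q.1 q.2) (f := fun q => (f q, k q))
      ((innerSL ℝ : E3 →L[ℝ] E3 →L[ℝ] ℝ).analyticAt_bilinear _) (hf.prod hk)
  have hD1 : AnalyticAt ℝ (fun w => fderiv ℝ ψ w (1, 0)) (a z0) := dir_an_at hψ (1, 0)
  have hD2 : AnalyticAt ℝ (fun w => fderiv ℝ ψ w (0, 1)) (a z0) := dir_an_at hψ (0, 1)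
  have h11an : AnalyticAt ℝ h11 (a z0) := hinner hD1 hD1
  have h12an : AnalyticAt ℝ h12 (a z0) := hinner hD1 hD2
  have h22an : AnalyticAt ℝ h22 (a z0) := hinner hD2 hD2
  have hiso0 := hiso.self_of_nhds
  rw [ha0] at hiso0
  have e11 : h11 (a z0) = 1 := (hiso0 (1, 0) (1, 0)).trans (by norm_num [dot])
  have e12 : h12 (a z0) = 0 := (hiso0 (1, 0) (0, 1)).trans (by norm_num [dot])
  have e22 : h22 (a z0) = 1 := (hiso0 (0, 1) (0, 1)).trans (by norm_num [dot])
  -- the Beltrami coefficient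
  set J : V → ℝ := fun w => Real.sqrt (h11 w * h22 w - h12 w ^ 2) with hJ
  have hJan : AnalyticAt ℝ J (a z0) := by
    have h1 : AnalyticAt ℝ (fun w => h11 w * h22 w - h12 w ^ 2) (a z0) :=
      (h11an.mul h22an).sub (h12an.pow 2)
    have h2 : AnalyticAt ℝ Real.sqrt (h11 (a z0) * h22 (a z0) - h12 (a z0) ^ 2) := by
      have h3 : h11 (a z0) * h22 (a z0) - h12 (a z0) ^ 2 ≠ 0 := by
        rw [e11, e12, e22]; norm_num
      exact (Real.contDiffAt_sqrt (n := ω) h3).analyticAt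
    exact AnalyticAt.comp (g := Real.sqrt) (f := fun w => h11 w * h22 w - h12 w ^ 2) h2 h1
  have hJ0 : J (a z0) = 1 := by
    rw [hJ]
    simp only [e11, e12, e22]
    norm_num
  set κ : V → ℂ := fun w => ((h12 w / h11 w : ℝ) : ℂ) + ((J w / h11 w : ℝ) : ℂ) * Complex.I with hκ
  have hκan : AnalyticAt ℝ κ (a z0) := by
    have h1 : AnalyticAt ℝ (fun w => h12 w / h11 w) (a z0) :=
      h12an.div h11an (by rw [e11]; norm_num)
    have h2 : AnalyticAt ℝ (fun w => J w / h11 w) (a z0) :=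
      hJan.div h11an (by rw [e11]; norm_num)
    have h3 : ∀ {f : V → ℝ}, AnalyticAt ℝ f (a z0) → AnalyticAt ℝ (fun w => (f w : ℂ)) (a z0) :=
      fun hf => (Complex.ofRealCLM.analyticAt _).fun_comp hf
    exact (h3 h1).add ((h3 h2).mul analyticAt_const)
  obtain ⟨w, hw, hw1, hw2⟩ := exists_iso_coord hκan
  -- φ = w ∘ a is holomorphic
  have hwd : ∀ᶠ q in 𝓝 (a z0), DifferentiableAt ℝ w q :=
    hw.eventually_analyticAt.mono fun q hq => hq.differentiableAt
  have h11pos : ∀ᶠ q in 𝓝 (a z0), 0 < h11 q :=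
    h11an.continuousAt.eventually (lt_mem_nhds (by rw [e11]; norm_num))
  have hdetpos : ∀ᶠ q in 𝓝 (a z0), 0 < h11 q * h22 q - h12 q ^ 2 := by
    have h1 : AnalyticAt ℝ (fun w => h11 w * h22 w - h12 w ^ 2) (a z0) :=
      (h11an.mul h22an).sub (h12an.pow 2)
    have h2 : 0 < h11 (a z0) * h22 (a z0) - h12 (a z0) ^ 2 := by rw [e11, e12, e22]; norm_num
    exact h1.continuousAt.eventually (lt_mem_nhds h2)
  have hdetA : ∀ᶠ z in 𝓝 z0, 0 < (fderiv ℝ a z (1, 0)).1 * (fderiv ℝ a z (0, 1)).2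
      - (fderiv ℝ a z (1, 0)).2 * (fderiv ℝ a z (0, 1)).1 := by
    have h1 : ContinuousAt (fun z => (fderiv ℝ a z (1, 0)).1 * (fderiv ℝ a z (0, 1)).2
        - (fderiv ℝ a z (1, 0)).2 * (fderiv ℝ a z (0, 1)).1) z0 := by
      have h2 : ContinuousAt (fun z => fderiv ℝ a z (1, 0)) z0 := hc.clm_apply continuousAt_const
      have h3 : ContinuousAt (fun z => fderiv ℝ a z (0, 1)) z0 := hc.clm_apply continuousAt_const
      exact (h2.fst.mul h3.snd).sub (h2.snd.mul h3.fst)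
    have h4 : 0 < (fderiv ℝ a z0 (1, 0)).1 * (fderiv ℝ a z0 (0, 1)).2
        - (fderiv ℝ a z0 (1, 0)).2 * (fderiv ℝ a z0 (0, 1)).1 := by
      rw [ha0]
      simp
    exact h1.eventually (lt_mem_nhds h4)
  set φ : V → ℂ := fun z => w (a z) with hφ
  have hφd : ∀ᶠ z in 𝓝 z0, DifferentiableAt ℝ φ z ∧
      fderiv ℝ φ z (0, 1) = Complex.I * fderiv ℝ φ z (1, 0) := by
    filter_upwards [hd, hiso, hdetA, hac.eventually hwd, hac.eventually hw2,
      hac.eventually h11pos, hac.eventually hdetpos] with z hz1 hz2 hz3 hz4 hz5 hz6 hz7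
    have hcomp : HasFDerivAt φ ((fderiv ℝ w (a z)).comp (fderiv ℝ a z)) z :=
      hz4.hasFDerivAt.comp z hz1.hasFDerivAt
    refine ⟨hcomp.differentiableAt, ?_⟩
    rw [hcomp.fderiv]
    set p := fderiv ℝ a z (1, 0) with hp
    set q := fderiv ℝ a z (0, 1) with hq
    have hlin : ∀ v : V, fderiv ℝ w (a z) v = fderiv ℝ w (a z) (1, 0) * (v.1 + κ (a z) * v.2) := by
      intro v
      have e : v = v.1 • ((1, 0) : V) + v.2 • ((0, 1) : V) := by ext <;> simp
      conv_lhs => rw [e]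
      rw [map_add, map_smul, map_smul, hz5, Complex.real_smul, Complex.real_smul]
      ring
    rw [ContinuousLinearMap.comp_apply, ContinuousLinearMap.comp_apply,
      hlin (fderiv ℝ a z (0, 1)), hlin (fderiv ℝ a z (1, 0))]
    -- metric identities
    have hh : ∀ u v : V, ⟪fderiv ℝ ψ (a z) u, fderiv ℝ ψ (a z) v⟫ =
        u.1 * v.1 * h11 (a z) + (u.1 * v.2 + u.2 * v.1) * h12 (a z) + u.2 * v.2 * h22 (a z) := by
      intro u v
      have e : ∀ v : V, fderiv ℝ ψ (a z) v = v.1 • fderiv ℝ ψ (a z) (1, 0)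
          + v.2 • fderiv ℝ ψ (a z) (0, 1) := by
        intro v
        have e : v = v.1 • ((1, 0) : V) + v.2 • ((0, 1) : V) := by ext <;> simp
        conv_lhs => rw [e]
        rw [map_add, map_smul, map_smul]
      rw [e u, e v]
      simp only [inner_add_left, inner_add_right, inner_smul_left, inner_smul_right, conj_trivial]
      rw [real_inner_comm (fderiv ℝ ψ (a z) (1, 0)) (fderiv ℝ ψ (a z) (0, 1))]
      simp only [hh11, hh12, hh22]
      ring
    have g11 := hz2 (1, 0) (1, 0)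
    have g12 := hz2 (1, 0) (0, 1)
    have g22 := hz2 (0, 1) (0, 1)
    rw [hh] at g11 g12 g22
    simp only [dot, mul_one, mul_zero, add_zero, zero_add] at g11 g12 g22
    have hJsq : J (a z) ^ 2 = h11 (a z) * h22 (a z) - h12 (a z) ^ 2 := Real.sq_sqrt hz7.le
    have hJpos : 0 < J (a z) := Real.sqrt_pos.2 hz7
    have hκe : κ (a z) = ((h12 (a z) / h11 (a z) : ℝ) : ℂ)
        + ((J (a z) / h11 (a z) : ℝ) : ℂ) * Complex.I := rfl
    rw [key_alg hz6 hJpos hJsq hz3 g11 g12 g22 hκe]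
    ring
  -- analyticity of φ
  have hφan : AnalyticAt ℝ φ z0 := by
    set toV : ℂ → V := fun ζ => (ζ.re, ζ.im) with htoV
    have htoVd : ∀ ζ : ℂ, HasFDerivAt toV (Complex.equivRealProdCLM : ℂ →L[ℝ] V) ζ := fun ζ =>
      (Complex.equivRealProdCLM : ℂ →L[ℝ] V).hasFDerivAt
    set ζ0 : ℂ := ⟨z0.1, z0.2⟩ with hζ0
    have htoV0 : toV ζ0 = z0 := rfl
    have hcont : ContinuousAt toV ζ0 := (htoVd ζ0).continuousAt
    have hev : ∀ᶠ ζ in 𝓝 ζ0, DifferentiableAt ℂ (fun ζ => φ (toV ζ)) ζ := by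
      have h1 : ∀ᶠ ζ in 𝓝 ζ0, DifferentiableAt ℝ φ (toV ζ) ∧
          fderiv ℝ φ (toV ζ) (0, 1) = Complex.I * fderiv ℝ φ (toV ζ) (1, 0) := by
        have h0 := hcont.tendsto
        rw [htoV0] at h0
        exact h0.eventually hφd
      filter_upwards [h1] with ζ hζ
      have h2 := hζ.1.hasFDerivAt.comp ζ (htoVd ζ)
      rw [differentiableAt_complex_iff_differentiableAt_real]
      refine ⟨h2.differentiableAt, ?_⟩
      have h3 : fderiv ℝ (fun ζ => φ (toV ζ)) ζ =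
          (fderiv ℝ φ (toV ζ)).comp (Complex.equivRealProdCLM : ℂ →L[ℝ] V) := h2.fderiv
      rw [h3]
      have e1 : (Complex.equivRealProdCLM : ℂ →L[ℝ] V) Complex.I = (0, 1) := by
        ext <;> simp
      have e2 : (Complex.equivRealProdCLM : ℂ →L[ℝ] V) 1 = (1, 0) := by
        ext <;> simp
      rw [ContinuousLinearMap.comp_apply, ContinuousLinearMap.comp_apply, e1, e2, hζ.2, smul_eq_mul]
    obtain ⟨s, hs, hsd⟩ := eventually_iff_exists_mem.1 hev
    have h4 : AnalyticAt ℂ (fun ζ => φ (toV ζ)) ζ0 :=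
      DifferentiableOn.analyticAt (fun ζ hζ => (hsd ζ hζ).differentiableWithinAt) hs
    have h5 : AnalyticAt ℝ (fun ζ => φ (toV ζ)) ζ0 := h4.restrictScalars
    have h6 : AnalyticAt ℝ (fun z : V => (Complex.equivRealProdCLM.symm : V →L[ℝ] ℂ) z) z0 :=
      (Complex.equivRealProdCLM.symm : V →L[ℝ] ℂ).analyticAt z0
    have h7 : (Complex.equivRealProdCLM.symm : V →L[ℝ] ℂ) z0 = ζ0 := by
      apply Complex.ext <;> simp [hζ0]
    have h8 : AnalyticAt ℝ (fun z : V => φ (toV ((Complex.equivRealProdCLM.symm : V →L[ℝ] ℂ) z))) z0 :=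
      AnalyticAt.comp (g := fun ζ => φ (toV ζ))
        (f := fun z : V => (Complex.equivRealProdCLM.symm : V →L[ℝ] ℂ) z) (by rw [h7]; exact h5) h6
    refine h8.congr (Eventually.of_forall fun z => ?_)
    have : toV ((Complex.equivRealProdCLM.symm : V →L[ℝ] ℂ) z) = z := by
      ext <;> simp [htoV]
    simp only [this]
  -- invert w
  have hwL : HasFDerivAt w ((Complex.equivRealProdCLM.symm : V ≃L[ℝ] ℂ) : V →L[ℝ] ℂ) (a z0) := by
    have h1 := hw.differentiableAt.hasFDerivAt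
    have h2 : fderiv ℝ w (a z0) = ((Complex.equivRealProdCLM.symm : V ≃L[ℝ] ℂ) : V →L[ℝ] ℂ) := by
      refine ContinuousLinearMap.ext fun v => ?_
      have e : v = v.1 • ((1, 0) : V) + v.2 • ((0, 1) : V) := by ext <;> simp
      have h3 : κ (a z0) = Complex.I := by
        rw [hκ]
        simp only [e11, e12, hJ0]
        norm_num
      conv_lhs => rw [e]
      rw [map_add, map_smul, map_smul, hw2.self_of_nhds, hw1, h3, Complex.real_smul,
        Complex.real_smul]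
      apply Complex.ext <;> simp
    rwa [h2] at h1
  obtain ⟨k, hk, -, hk2⟩ := exists_local_inverse hw _ hwL
  have hfin : AnalyticAt ℝ (fun z => k (φ z)) z0 := AnalyticAt.comp (g := k) (f := φ) hk hφan
  refine hfin.congr ?_
  filter_upwards [hac.eventually hk2] with z hz using hz

end Pool.Agent.Helper962.Flat
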