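import Mathlib
import Pool.Agent.Helper962.R1

set_option autoImplicit false

namespace Pool.Agent.Helper962.Flat

open Set Filter Topology
open scoped RealInnerProductSpace ContDiff

/-- A `C¹` isometric immersion of a flat domain into an analytic surface is analytic. -/
theorem analytic_of_isometric {ρ : V → E3} {z0 : V}
    (hd : ∀ᶠ z in 𝓝 z0, DifferentiableAt ℝ ρ z) (hc : ContinuousAt (fderiv ℝ ρ) z0)
    (hiso : ∀ᶠ z in 𝓝 z0, ∀ u v : V, ⟪fderiv ℝ ρ z u, fderiv ℝ ρ z v⟫ = dot u v)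
    {F : E3 → ℝ} (hF : AnalyticAt ℝ F (ρ z0)) (hF' : fderiv ℝ F (ρ z0) ≠ 0)
    (hFρ : ∀ᶠ z in 𝓝 z0, F (ρ z) = 0) : AnalyticAt ℝ ρ z0 := by
  set e1 : E3 := fderiv ℝ ρ z0 (1, 0) with he1
  set e2 : E3 := fderiv ℝ ρ z0 (0, 1) with he2
  have hiso0 := hiso.self_of_nhds
  have h11 : ⟪e1, e1⟫ = 1 := (hiso0 (1, 0) (1, 0)).trans (by norm_num [dot])
  have h12 : ⟪e1, e2⟫ = 0 := (hiso0 (1, 0) (0, 1)).trans (by norm_num [dot])
  have h22 : ⟪e2, e2⟫ = 1 := (hiso0 (0, 1) (0, 1)).trans (by norm_num [dot])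
  obtain ⟨n, hn, hperp⟩ := exists_normal h11 h22 h12
  have hρ0 : DifferentiableAt ℝ ρ z0 := hd.self_of_nhds
  have hFd : HasFDerivAt F (fderiv ℝ F (ρ z0)) (ρ z0) := hF.differentiableAt.hasFDerivAt
  set DF := fderiv ℝ F (ρ z0) with hDF
  have hDFρ : ∀ v : V, DF (fderiv ℝ ρ z0 v) = 0 := by
    intro v
    have h1 : HasFDerivAt (fun z => F (ρ z)) (DF.comp (fderiv ℝ ρ z0)) z0 :=
      hFd.comp z0 hρ0.hasFDerivAt
    have h2 : HasFDerivAt (fun z => F (ρ z)) (0 : V →L[ℝ] ℝ) z0 :=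
      (hasFDerivAt_const (0 : ℝ) z0).congr_of_eventuallyEq hFρ
    have h3 := h1.unique h2
    exact congrArg (fun L : V →L[ℝ] ℝ => L v) h3
  have hDFn : DF n ≠ 0 := by
    intro h0
    apply hF'
    refine ContinuousLinearMap.ext fun y => ?_
    have hy : y = (y - ⟪y, e1⟫ • e1 - ⟪y, e2⟫ • e2) + ⟪y, e1⟫ • e1 + ⟪y, e2⟫ • e2 := by abel
    set y' := y - ⟪y, e1⟫ • e1 - ⟪y, e2⟫ • e2 with hy'
    have p1 : ⟪y', e1⟫ = 0 := by
      rw [hy', inner_sub_left, inner_sub_left, inner_smul_left, inner_smul_left, h11,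
        real_inner_comm e1 e2, h12]
      simp
    have p2 : ⟪y', e2⟫ = 0 := by
      rw [hy', inner_sub_left, inner_sub_left, inner_smul_left, inner_smul_left, h22, h12]
      simp
    have p3 := hperp y' p1 p2
    rw [hy, map_add, map_add, p3, map_smul, map_smul, map_smul, h0, hDFρ, hDFρ]
    simp
  -- the chart
  set L : E3 →L[ℝ] V × ℝ := ((innerSL ℝ e1).prod (innerSL ℝ e2)).prod DF with hL
  have hLinj : Function.Injective (L : E3 →ₗ[ℝ] V × ℝ) := by
    rw [← LinearMap.ker_eq_bot, LinearMap.ker_eq_bot']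
    intro x hx
    have hx' : ((⟪e1, x⟫, ⟪e2, x⟫), DF x) = (((0, 0), 0) : V × ℝ) := hx
    simp only [Prod.mk.injEq] at hx'
    obtain ⟨⟨q1, q2⟩, q3⟩ := hx'
    rw [real_inner_comm] at q1 q2
    have q4 := hperp x q1 q2
    rw [q4, map_smul, smul_eq_mul] at q3
    have q5 : ⟪x, n⟫ = 0 := (mul_eq_zero.1 q3).resolve_right hDFn
    rw [q4, q5, zero_smul]
  have hdim : Module.finrank ℝ E3 = Module.finrank ℝ (V × ℝ) := by simp
  let Le : E3 ≃L[ℝ] V × ℝ :=
    ((L : E3 →ₗ[ℝ] V × ℝ).linearEquivOfInjective hLinj hdim).toContinuousLinearEquiv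
  have hLe : (Le : E3 →L[ℝ] V × ℝ) = L := by
    refine ContinuousLinearMap.ext fun x => ?_
    rfl
  set Θ : E3 → V × ℝ := fun x => ((innerSL ℝ e1 x, innerSL ℝ e2 x), F x) with hΘ
  have hΘan : AnalyticAt ℝ Θ (ρ z0) :=
    (((innerSL ℝ e1).analyticAt _).prod ((innerSL ℝ e2).analyticAt _)).prod hF
  have hΘd : HasFDerivAt Θ (Le : E3 →L[ℝ] V × ℝ) (ρ z0) := by
    rw [hLe]
    exact ((innerSL ℝ e1).hasFDerivAt.prodMk (innerSL ℝ e2).hasFDerivAt).prodMk hFd
  obtain ⟨k, hk, -, hk2⟩ := exists_local_inverse hΘan Le hΘd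
  set a : V → V := fun z => (innerSL ℝ e1 (ρ z), innerSL ℝ e2 (ρ z)) with ha
  set ψ : V → E3 := fun w => k (w, 0) with hψ
  have hΘ0 : Θ (ρ z0) = (a z0, 0) := by
    rw [hΘ, ha]
    simp only [hFρ.self_of_nhds]
  have hψan : AnalyticAt ℝ ψ (a z0) := by
    refine AnalyticAt.comp (g := k) (f := fun w : V => (w, (0 : ℝ))) ?_
      (analyticAt_id.prod analyticAt_const)
    rw [← hΘ0]
    exact hk
  have hρc : ContinuousAt ρ z0 := hρ0.continuousAt
  have hfac : ∀ᶠ z in 𝓝 z0, ρ z = ψ (a z) := by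
    filter_upwards [hρc.eventually hk2, hFρ] with z h1 h2
    have h3 : Θ (ρ z) = (a z, 0) := by
      rw [hΘ, ha]
      simp only [h2]
    rw [h3] at h1
    exact h1.symm
  have haD : ∀ z, DifferentiableAt ℝ ρ z →
      HasFDerivAt a (((innerSL ℝ e1).comp (fderiv ℝ ρ z)).prod ((innerSL ℝ e2).comp (fderiv ℝ ρ z))) z := by
    intro z hz
    exact ((innerSL ℝ e1).hasFDerivAt.comp z hz.hasFDerivAt).prodMk
      ((innerSL ℝ e2).hasFDerivAt.comp z hz.hasFDerivAt)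
  have had : ∀ᶠ z in 𝓝 z0, DifferentiableAt ℝ a z := hd.mono fun z hz => (haD z hz).differentiableAt
  have hafd : ∀ᶠ z in 𝓝 z0, fderiv ℝ a z =
      ((innerSL ℝ e1).comp (fderiv ℝ ρ z)).prod ((innerSL ℝ e2).comp (fderiv ℝ ρ z)) :=
    hd.mono fun z hz => (haD z hz).fderiv
  have hac : ContinuousAt (fderiv ℝ a) z0 := by
    have h1 : ContinuousAt (fun z => ((innerSL ℝ e1).comp (fderiv ℝ ρ z)).prod
        ((innerSL ℝ e2).comp (fderiv ℝ ρ z))) z0 := by
      have h2 : ContinuousAt (fun z => (innerSL ℝ e1).comp (fderiv ℝ ρ z)) z0 :=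
        continuousAt_const.clm_comp hc
      have h3 : ContinuousAt (fun z => (innerSL ℝ e2).comp (fderiv ℝ ρ z)) z0 :=
        continuousAt_const.clm_comp hc
      have h4 : ContinuousAt (fun z =>
          (ContinuousLinearMap.inl ℝ ℝ ℝ).comp ((innerSL ℝ e1).comp (fderiv ℝ ρ z)) +
          (ContinuousLinearMap.inr ℝ ℝ ℝ).comp ((innerSL ℝ e2).comp (fderiv ℝ ρ z))) z0 :=
        (continuousAt_const.clm_comp h2).add (continuousAt_const.clm_comp h3)
      refine h4.congr (Eventually.of_forall fun z => ?_)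
      refine ContinuousLinearMap.ext fun v => ?_
      refine Prod.ext ?_ ?_ <;> simp
    exact h1.congr (hafd.mono fun z hz => hz.symm)
  have ha0 : fderiv ℝ a z0 = ContinuousLinearMap.id ℝ V := by
    rw [hafd.self_of_nhds]
    refine ContinuousLinearMap.ext fun v => ?_
    have q1 := hiso0 (1, 0) v
    have q2 := hiso0 (0, 1) v
    refine Prod.ext ?_ ?_
    · show ⟪e1, fderiv ℝ ρ z0 v⟫ = v.1
      rw [he1, q1]
      simp [dot]
    · show ⟪e2, fderiv ℝ ρ z0 v⟫ = v.2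
      rw [he2, q2]
      simp [dot]
  have hacont : ContinuousAt a z0 := had.self_of_nhds.continuousAt
  have hψd : ∀ᶠ w in 𝓝 (a z0), DifferentiableAt ℝ ψ w :=
    hψan.eventually_analyticAt.mono fun w hw => hw.differentiableAt
  have hcomp : ∀ᶠ z in 𝓝 z0, ∀ u, fderiv ℝ ψ (a z) (fderiv ℝ a z u) = fderiv ℝ ρ z u := by
    filter_upwards [hfac.eventually_nhds, had, hacont.eventually hψd] with z h1 h2 h3 u
    have h4 : HasFDerivAt (fun q => ψ (a q)) ((fderiv ℝ ψ (a z)).comp (fderiv ℝ a z)) z :=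
      h3.hasFDerivAt.comp z h2.hasFDerivAt
    have h5 : fderiv ℝ ρ z = (fderiv ℝ ψ (a z)).comp (fderiv ℝ a z) :=
      (h4.congr_of_eventuallyEq h1).fderiv
    rw [h5]
    rfl
  have haan : AnalyticAt ℝ a z0 := by
    refine analytic_param hψan had hac ha0 ?_
    filter_upwards [hcomp, hiso] with z h1 h2 u v
    rw [h1, h1]
    exact h2 u v
  have hfin : AnalyticAt ℝ (fun z => ψ (a z)) z0 := AnalyticAt.comp (g := ψ) (f := a) hψan haan
  exact hfin.congr (hfac.mono fun z hz => hz.symm)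

end Pool.Agent.Helper962.Flat
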