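import Mathlib
import Pool.Agent.Helper962.G9
import Pool.Agent.Helper962.R2

set_option autoImplicit false

namespace Pool.Agent.Helper962.Comb

open Set Filter Topology Pool.Agent.Helper962.Flat
open scoped RealInnerProductSpace ContDiff unitInterval

lemma D_bounded : Bornology.IsBounded D := by
  rw [isBounded_iff_forall_norm_le]
  refine ⟨12, fun p hp => ?_⟩
  obtain ⟨h1, h2, h3, h4, -⟩ := hp
  rw [Prod.norm_def, max_le_iff, Real.norm_eq_abs, Real.norm_eq_abs, abs_le, abs_le]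
  exact ⟨⟨h1.le, h2.le⟩, by linarith, by linarith⟩

lemma mem1 (q : I × D) :
    (((q.2 : V).1, (1 - (q.1 : ℝ)) * (q.2 : V).2 + q.1 / 2) : V) ∈ D := by
  obtain ⟨t, p, hp⟩ := q
  obtain ⟨h1, h2, h3, h4, h5⟩ := hp
  have ht0 : 0 ≤ (t : ℝ) := t.2.1
  have ht1 : (t : ℝ) ≤ 1 := t.2.2
  simp only [D, mem_ofPred_eq]
  refine ⟨h1, h2, by nlinarith, by nlinarith, ?_⟩
  rcases h5 with h5 | h5
  · left
    rcases eq_or_lt_of_le ht0 with h | h
    · rw [← h]; linarith
    · nlinarith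
  · exact Or.inr h5

lemma mem2 (q : I × D) : (((1 - (q.1 : ℝ)) * (q.2 : V).1, 1 / 2) : V) ∈ D := by
  obtain ⟨t, p, hp⟩ := q
  obtain ⟨h1, h2, h3, h4, h5⟩ := hp
  have ht0 : 0 ≤ (t : ℝ) := t.2.1
  have ht1 : (t : ℝ) ≤ 1 := t.2.2
  simp only [D, mem_ofPred_eq]
  exact ⟨by nlinarith, by nlinarith, by norm_num, by norm_num, Or.inl (by norm_num)⟩

lemma mem3 (p : D) : (((p : V).1, 1 / 2) : V) ∈ D := by
  have := mem1 (1, p)
  simpa using this

lemma mem4 : ((0, 1 / 2) : V) ∈ D := by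
  simp only [D, mem_ofPred_eq]
  norm_num

lemma cD0 : Continuous fun p : D => (p : V).1 := by fun_prop
lemma cD1 : Continuous fun p : D => (p : V).2 := by fun_prop

/-- vertical push into the top strip -/
noncomputable def midMap : C(D, D) :=
  ⟨fun p => ⟨_, mem3 p⟩, Continuous.subtype_mk (cD0.prodMk continuous_const) _⟩

noncomputable def hom1 : (ContinuousMap.id D).Homotopy midMap where
  toFun := fun q => ⟨_, mem1 q⟩
  continuous_toFun := by
    refine Continuous.subtype_mk ((cD0.comp continuous_snd).prodMk ?_) _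
    have ht : Continuous fun q : I × D => (q.1 : ℝ) := continuous_subtype_val.comp continuous_fst
    exact ((continuous_const.sub ht).mul (cD1.comp continuous_snd)).add (ht.div_const 2)
  map_zero_left := by
    intro p
    apply Subtype.ext
    simp
  map_one_left := by
    intro p
    apply Subtype.ext
    simp [midMap]

noncomputable def hom2 : midMap.Homotopy (ContinuousMap.const D ⟨_, mem4⟩) where
  toFun := fun q => ⟨_, mem2 q⟩
  continuous_toFun := by
    refine Continuous.subtype_mk (Continuous.prodMk ?_ continuous_const) _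
    have ht : Continuous fun q : I × D => (q.1 : ℝ) := continuous_subtype_val.comp continuous_fst
    exact (continuous_const.sub ht).mul (cD0.comp continuous_snd)
  map_zero_left := by
    intro p
    apply Subtype.ext
    simp [midMap]
  map_one_left := by
    intro p
    apply Subtype.ext
    simp

lemma D_contractible : ContractibleSpace D := by
  rw [contractible_iff_id_nullhomotopic]
  exact ⟨_, ⟨hom1.trans hom2⟩⟩

/-- two maps with the same first fundamental form coefficients have the same form -/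
lemma form_eq {n k : ℕ} {f : V → EuclideanSpace ℝ (Fin n)} {f' : V → EuclideanSpace ℝ (Fin k)}
    {p : V}
    (h11 : ⟪fderiv ℝ f p (1, 0), fderiv ℝ f p (1, 0)⟫ = ⟪fderiv ℝ f' p (1, 0), fderiv ℝ f' p (1, 0)⟫)
    (h12 : ⟪fderiv ℝ f p (1, 0), fderiv ℝ f p (0, 1)⟫ = ⟪fderiv ℝ f' p (1, 0), fderiv ℝ f' p (0, 1)⟫)
    (h22 : ⟪fderiv ℝ f p (0, 1), fderiv ℝ f p (0, 1)⟫ = ⟪fderiv ℝ f' p (0, 1), fderiv ℝ f' p (0, 1)⟫)
    (u v : V) : ⟪fderiv ℝ f p u, fderiv ℝ f p v⟫ = ⟪fderiv ℝ f' p u, fderiv ℝ f' p v⟫ := by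
  have e : ∀ v : V, v = v.1 • ((1, 0) : V) + v.2 • ((0, 1) : V) := fun v => by ext <;> simp
  have e1 : ∀ v : V, fderiv ℝ f p v = v.1 • fderiv ℝ f p (1, 0) + v.2 • fderiv ℝ f p (0, 1) := by
    intro v
    conv_lhs => rw [e v]
    rw [map_add, map_smul, map_smul]
  have e2 : ∀ v : V, fderiv ℝ f' p v = v.1 • fderiv ℝ f' p (1, 0) + v.2 • fderiv ℝ f' p (0, 1) := by
    intro v
    conv_lhs => rw [e v]
    rw [map_add, map_smul, map_smul]
  rw [e1 u, e1 v, e2 u, e2 v]
  simp only [inner_add_left, inner_add_right, inner_smul_left, inner_smul_right, conj_trivial]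
  rw [real_inner_comm (fderiv ℝ f p (1, 0)) (fderiv ℝ f p (0, 1)),
    real_inner_comm (fderiv ℝ f' p (1, 0)) (fderiv ℝ f' p (0, 1)), h11, h12, h22]

/-- the composition with a section is an isometric immersion of the flat sheet -/
lemma sheet_iso {r : V → E3} {a b c : ℝ} (hT : Tooth a b c)
    (hd : ∀ p ∈ D, DifferentiableAt ℝ r p)
    (hiso : ∀ p ∈ D, ∀ u v, ⟪fderiv ℝ r p u, fderiv ℝ r p v⟫ = ⟪fderiv ℝ Φ p u, fderiv ℝ Φ p v⟫) :
    ∀ z ∈ S a b, ∀ u v, ⟪dir u (fun z => r (sig c z)) z, dir v (fun z => r (sig c z)) z⟫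
      = dot u v := by
  intro z hz u v
  obtain ⟨hzD, -⟩ := hT.key hz
  have hs : HasFDerivAt (sig c) (fderiv ℝ (sig c) z) z :=
    ((sig_contDiff c).differentiable (by simp) z).hasFDerivAt
  have h1 : ∀ w, dir w (fun z => r (sig c z)) z = fderiv ℝ r (sig c z) (fderiv ℝ (sig c) z w) := by
    intro w
    have := (hd _ hzD).hasFDerivAt.comp z hs
    exact congrArg (fun L : V →L[ℝ] E3 => L w) this.fderiv
  have h2 : ∀ w, fderiv ℝ Φ1 (sig c z) (fderiv ℝ (sig c) z w) = w.1 := by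
    intro w
    have h3 := ((Φ1_contDiff.differentiable (by simp)) (sig c z)).hasFDerivAt.comp z hs
    have h4 : (Φ1 ∘ sig c) =ᶠ[𝓝 z] fun q => q.1 := by
      filter_upwards [(isOpen_S a b).mem_nhds hz] with q hq using (hT.key hq).2
    have h5 : HasFDerivAt (fun q : V => q.1) (ContinuousLinearMap.fst ℝ ℝ ℝ) z :=
      hasFDerivAt_fst
    have h6 := (h3.congr_of_eventuallyEq h4.symm).unique h5
    exact congrArg (fun L : V →L[ℝ] ℝ => L w) h6
  have h2' : ∀ w, (fderiv ℝ (sig c) z w).2 = w.2 := by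
    intro w
    have h3 : HasFDerivAt (fun q : V => (sig c q).2)
        ((ContinuousLinearMap.snd ℝ ℝ ℝ).comp (fderiv ℝ (sig c) z)) z :=
      (hasFDerivAt_snd (p := sig c z)).comp z hs
    have h5 : HasFDerivAt (fun q : V => q.2) (ContinuousLinearMap.snd ℝ ℝ ℝ) z :=
      hasFDerivAt_snd
    have h6 := h3.unique h5
    exact congrArg (fun L : V →L[ℝ] ℝ => L w) h6
  rw [h1, h1, hiso _ hzD, inner2, (Φ_deriv _ _).1, (Φ_deriv _ _).1, (Φ_deriv _ _).2,
    (Φ_deriv _ _).2, h2, h2, h2', h2']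
  rfl

lemma sig_T {c : ℝ} {z : V} (hz : z ∈ T) : sig c z = z := by
  unfold sig
  rw [rr_top hz.2.2.1.le]
  ext
  · simp
  · rfl

lemma sig_B_ne {c : ℝ} (hc : c ≠ 0) {z : V} (hz : z ∈ B) : sig 0 z ≠ sig c z := by
  intro h
  have h1 := congrArg (fun p : V => p.1) h
  simp only [sig] at h1
  rw [rr_bot hz.2.2.2.le] at h1
  apply hc
  linarith

/-- Final contradiction, given the regularity of the three sheets. -/
theorem no_embedding {r : V → E3} (hd : ∀ p ∈ D, DifferentiableAt ℝ r p)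
    (hiso : ∀ p ∈ D, ∀ u v, ⟪fderiv ℝ r p u, fderiv ℝ r p v⟫ = ⟪fderiv ℝ Φ p u, fderiv ℝ Φ p v⟫)
    (hinj : InjOn r D)
    (han : ∀ a b c : ℝ, Tooth a b c → AnalyticOnNhd ℝ (fun z => r (sig c z)) (S a b)) : False := by
  have hI : ∀ a b c : ℝ, Tooth a b c → Iso (fun z => r (sig c z)) (S a b) := fun a b c hT =>
    ⟨isOpen_S a b, han a b c hT, sheet_iso hT hd hiso⟩
  refine core (hI _ _ _ tooth_left) (hI _ _ _ tooth_mid) (hI _ _ _ tooth_right) ?_ ?_ ?_ ?_
  · intro z hz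
    simp only
    rw [sig_T hz, sig_T hz]
  · intro z hz
    simp only
    rw [sig_T hz, sig_T hz]
  · intro z hz h
    exact sig_B_ne (by norm_num) hz
      (hinj (tooth_mid.key (B_sub _ _ hz)).1 (tooth_left.key (B_sub _ _ hz)).1 h)
  · intro z hz h
    exact sig_B_ne (by norm_num) hz
      (hinj (tooth_mid.key (B_sub _ _ hz)).1 (tooth_right.key (B_sub _ _ hz)).1 h)

/-- The same with local analyticity of the image. -/
theorem no_analytic {r : V → E3} (hr : ContDiffOn ℝ 1 r D)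
    (hiso : ∀ p ∈ D, ∀ u v, ⟪fderiv ℝ r p u, fderiv ℝ r p v⟫ = ⟪fderiv ℝ Φ p u, fderiv ℝ Φ p v⟫)
    (hinj : InjOn r D)
    (han : ∀ p ∈ D, ∃ (O : Set E3) (F : E3 → ℝ), IsOpen O ∧ r p ∈ O ∧ AnalyticOnNhd ℝ F O ∧
      (∀ x ∈ O, fderiv ℝ F x ≠ 0) ∧ ∀ x ∈ O, x ∈ r '' D → F x = 0) : False := by
  have hd : ∀ p ∈ D, DifferentiableAt ℝ r p := fun p hp =>
    (hr.differentiableOn (by simp)).differentiableAt (isOpen_D.mem_nhds hp)
  refine no_embedding hd hiso hinj fun a b c hT z0 hz0 => ?_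
  obtain ⟨hzD, -⟩ := hT.key hz0
  obtain ⟨O, F, hO, hqO, hF, hF', hFS⟩ := han _ hzD
  have hSev : ∀ᶠ z in 𝓝 z0, z ∈ S a b := (isOpen_S a b).mem_nhds hz0
  have hcd : ContDiffAt ℝ 1 (fun z => r (sig c z)) z0 := by
    have h1 : ContDiffAt ℝ 1 r (sig c z0) := hr.contDiffAt (isOpen_D.mem_nhds hzD)
    have h2 : ContDiffAt ℝ 1 (sig c) z0 := ((sig_contDiff c).of_le (by simp)).contDiffAt
    exact ContDiffAt.comp (g := r) (f := sig c) z0 h1 h2
  have hcont : ContinuousAt (fun z => r (sig c z)) z0 := hcd.continuousAt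
  refine analytic_of_isometric (F := F) ?_ ?_ ?_ (hF _ hqO) (hF' _ hqO) ?_
  · filter_upwards [hSev] with z hz
    exact (hd _ (hT.key hz).1).comp z ((sig_contDiff c).differentiable (by simp) z)
  · exact (hcd.fderiv_right (m := 0) (by norm_num)).continuousAt
  · filter_upwards [hSev] with z hz u v
    exact sheet_iso hT hd hiso z hz u v
  · filter_upwards [hSev, hcont.eventually_mem (hO.mem_nhds hqO)] with z hz hzO
    exact hFS _ hzO ⟨_, (hT.key hz).1, rfl⟩

end Pool.Agent.Helper962.Comb
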