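import Mathlib
import Pool.Agent.Helper962.G10

set_option autoImplicit false

namespace Pool.Agent.Helper962.Comb

open Set Filter Topology Pool.Agent.Helper962.Flat
open scoped RealInnerProductSpace ContDiff

/-- the developing map into the plane of pairs -/
noncomputable def Ψ (p : V) : V := (Φ1 p, p.2)

lemma Ψ_contDiff : ContDiff ℝ ∞ Ψ := Φ1_contDiff.prodMk contDiff_snd

lemma Ψ_deriv (p v : V) : fderiv ℝ Ψ p v = (fderiv ℝ Φ1 p v, v.2) := by
  have h1 : HasFDerivAt Φ1 (fderiv ℝ Φ1 p) p :=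
    (Φ1_contDiff.differentiable (by simp) p).hasFDerivAt
  have h : HasFDerivAt Ψ ((fderiv ℝ Φ1 p).prod (ContinuousLinearMap.snd ℝ ℝ ℝ)) p :=
    h1.prodMk hasFDerivAt_snd
  rw [h.fderiv]
  rfl

lemma gc_eq (u v p : V) :
    gc u v p = fderiv ℝ Φ1 p u * fderiv ℝ Φ1 p v + u.2 * v.2 := by
  unfold gc
  rw [inner2, (Φ_deriv _ _).1, (Φ_deriv _ _).1, (Φ_deriv _ _).2, (Φ_deriv _ _).2]

lemma Ψ_flat {p : V} (hp : p ∈ D) : ∃ U : Set V, IsOpen U ∧ p ∈ U ∧ U ⊆ D ∧
    ContDiffOn ℝ ∞ Ψ U ∧ InjOn Ψ U ∧ IsOpen (Ψ '' U) := by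
  have hinj : Function.Injective (fderiv ℝ Ψ p : V →ₗ[ℝ] V) := by
    rw [← LinearMap.ker_eq_bot, LinearMap.ker_eq_bot']
    intro v hv
    have h2 : fderiv ℝ Ψ p v = 0 := hv
    rw [Ψ_deriv] at h2
    have h3 : v.2 = 0 := congrArg Prod.snd h2
    have h4 : fderiv ℝ Φ1 p v = 0 := congrArg Prod.fst h2
    have h5 : v = v.1 • ((1, 0) : V) := by
      ext
      · simp
      · simp [h3]
    rw [h5, map_smul, smul_eq_mul] at h4
    have h6 := Φ1_deriv (subset_closure hp)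
    have h7 : v.1 = 0 := (mul_eq_zero.1 h4).resolve_right (by linarith)
    exact Prod.ext h7 h3
  let L := (LinearEquiv.ofInjectiveEndo _ hinj).toContinuousLinearEquiv
  have hL : HasFDerivAt Ψ (L : V →L[ℝ] V) p := by
    have h1 : (L : V →L[ℝ] V) = fderiv ℝ Ψ p := by
      refine ContinuousLinearMap.ext fun v => ?_
      rfl
    rw [h1]
    exact (Ψ_contDiff.differentiable (by simp) p).hasFDerivAt
  let e := Ψ_contDiff.contDiffAt.toOpenPartialHomeomorph Ψ hL (by simp)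
  have hpe : p ∈ e.source := Ψ_contDiff.contDiffAt.mem_toOpenPartialHomeomorph_source hL (by simp)
  exact ⟨e.source ∩ D, e.open_source.inter isOpen_D, ⟨hpe, hp⟩, inter_subset_right,
    Ψ_contDiff.contDiffOn, e.injOn.mono inter_subset_left,
    e.isOpen_image_of_subset_source (e.open_source.inter isOpen_D) inter_subset_left⟩

/-- identification of triples with Euclidean 3-space -/
noncomputable def tri : (ℝ × ℝ × ℝ) →ₗ[ℝ] E3 where
  toFun a := !₂[a.1, a.2.1, a.2.2]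
  map_add' a b := by
    ext i
    fin_cases i <;> simp
  map_smul' c a := by
    ext i
    fin_cases i <;> simp

lemma tri_inj : Function.Injective tri := by
  intro a b h
  have h0 := congrArg (fun x : E3 => x 0) h
  have h1 := congrArg (fun x : E3 => x 1) h
  have h2 := congrArg (fun x : E3 => x 2) h
  simp only [tri, LinearMap.coe_mk, AddHom.coe_mk, Matrix.cons_val_zero, Matrix.cons_val_one,
    Matrix.cons_val] at h0 h1 h2
  exact Prod.ext h0 (Prod.ext h1 h2)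

noncomputable def triL : (ℝ × ℝ × ℝ) ≃L[ℝ] E3 :=
  (tri.linearEquivOfInjective tri_inj (by simp)).toContinuousLinearEquiv

lemma triL_apply (a : ℝ × ℝ × ℝ) : triL a = !₂[a.1, a.2.1, a.2.2] := rfl

lemma triL_inner (a b : ℝ × ℝ × ℝ) :
    ⟪triL a, triL b⟫ = a.1 * b.1 + a.2.1 * b.2.1 + a.2.2 * b.2.2 := by
  rw [inner3, triL_apply, triL_apply]
  simp

/-- the same with triples as target -/
theorem no_analytic' {r : V → ℝ × ℝ × ℝ} (hr : ContDiffOn ℝ 1 r D)
    (hiso : ∀ p ∈ D, ∀ u v : V, (u = (1, 0) ∧ v = (1, 0)) ∨ (u = (1, 0) ∧ v = (0, 1)) ∨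
      (u = (0, 1) ∧ v = (0, 1)) →
      (fderiv ℝ r p u).1 * (fderiv ℝ r p v).1 + (fderiv ℝ r p u).2.1 * (fderiv ℝ r p v).2.1
        + (fderiv ℝ r p u).2.2 * (fderiv ℝ r p v).2.2 = gc u v p)
    (hinj : InjOn r D)
    (han : ∀ p ∈ D, ∃ (O : Set (ℝ × ℝ × ℝ)) (F : ℝ × ℝ × ℝ → ℝ), IsOpen O ∧ r p ∈ O ∧
      AnalyticOnNhd ℝ F O ∧ (∀ x ∈ O, fderiv ℝ F x ≠ 0) ∧ ∀ x ∈ O, x ∈ r '' D → F x = 0) :
    False := by
  have hd : ∀ p ∈ D, DifferentiableAt ℝ r p := fun p hp =>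
    (hr.differentiableOn (by simp)).differentiableAt (isOpen_D.mem_nhds hp)
  have hfd : ∀ p ∈ D, ∀ v, fderiv ℝ (fun q => triL (r q)) p v = triL (fderiv ℝ r p v) := by
    intro p hp v
    have h1 := ((triL : (ℝ × ℝ × ℝ) →L[ℝ] E3).hasFDerivAt (x := r p)).comp p
      (hd p hp).hasFDerivAt
    exact congrArg (fun L : V →L[ℝ] E3 => L v) h1.fderiv
  refine no_analytic (r := fun q => triL (r q)) ?_ ?_ ?_ ?_
  · exact triL.contDiff.comp_contDiffOn hr
  · intro p hp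
    refine form_eq ?_ ?_ ?_
    · rw [hfd p hp, triL_inner]
      exact hiso p hp _ _ (Or.inl ⟨rfl, rfl⟩)
    · rw [hfd p hp, hfd p hp, triL_inner]
      exact hiso p hp _ _ (Or.inr (Or.inl ⟨rfl, rfl⟩))
    · rw [hfd p hp, triL_inner]
      exact hiso p hp _ _ (Or.inr (Or.inr ⟨rfl, rfl⟩))
  · exact triL.injective.comp_injOn hinj
  · intro p hp
    obtain ⟨O, F, h1, h2, h3, h4, h5⟩ := han p hp
    refine ⟨triL.symm ⁻¹' O, fun x => F (triL.symm x), h1.preimage triL.symm.continuous, ?_, ?_,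
      ?_, ?_⟩
    · simpa using h2
    · intro x hx
      exact AnalyticAt.comp (g := F) (f := fun x : E3 => triL.symm x) (h3 _ hx)
        ((triL.symm : E3 →L[ℝ] ℝ × ℝ × ℝ).analyticAt x)
    · intro x hx h0
      apply h4 _ hx
      have h6 : HasFDerivAt (fun x : E3 => F (triL.symm x))
          ((fderiv ℝ F (triL.symm x)).comp (triL.symm : E3 →L[ℝ] ℝ × ℝ × ℝ)) x :=
        (h3 _ hx).differentiableAt.hasFDerivAt.comp x
          (triL.symm : E3 →L[ℝ] ℝ × ℝ × ℝ).hasFDerivAt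
      rw [h6.fderiv] at h0
      refine ContinuousLinearMap.ext fun v => ?_
      have h7 := congrArg (fun L : E3 →L[ℝ] ℝ => L (triL v)) h0
      simpa using h7
    · intro x hx hxr
      obtain ⟨q, hq, rfl⟩ := hxr
      refine h5 _ hx ⟨q, hq, ?_⟩
      simp

end Pool.Agent.Helper962.Comb
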